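import Pool.Agent.N855.GN.Dec

/-!
# Project GN: the Moebius function of `ℤ[i]` in almost all narrow sectors
-/

set_option autoImplicit false

namespace Pool.Agent.N855.GN

open Finset MeasureTheory Filter Topology
open Pool.Agent.N782.GN

theorem big_pow {V η : ℝ} (hV : 1 ≤ V) (h0 : 0 < η) (h1 : η ≤ 1) {I : ℕ} (hI : 2 * Real.log V / η ≤ I) :
    V ≤ (1 + η) ^ I := by
  have hp : (0 : ℝ) < 1 + η := by linarith
  have h2 : η / 2 ≤ Real.log (1 + η) := by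
    refine le_trans ?_ (Real.one_sub_inv_le_log_of_pos hp)
    have h3 : 1 - (1 + η)⁻¹ = η / (1 + η) := by field_simp; ring
    rw [h3, div_le_div_iff₀ (by norm_num) hp]
    nlinarith
  have h3 : Real.log V ≤ I * Real.log (1 + η) := by
    rw [div_le_iff₀ h0] at hI
    have h4 : (I : ℝ) * (η / 2) ≤ I * Real.log (1 + η) := mul_le_mul_of_nonneg_left h2 (Nat.cast_nonneg I)
    linarith
  have h4 : Real.log V ≤ Real.log ((1 + η) ^ I) := by
    rw [Real.log_pow]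
    exact h3
  exact (Real.log_le_log_iff (by linarith) (by positivity)).1 h4

theorem int_gen {ι : Type} (δ : ℝ) (s : Finset ι) (c : ι → ℝ) (t : ι → ZI) (a b : ℝ) :
    IntervalIntegrable (fun x => (∑ i ∈ s, c i * sc δ x (t i)) ^ 2) volume a b := by
  have hm : Measurable (fun x => ∑ i ∈ s, c i * sc δ x (t i)) :=
    Finset.measurable_sum s fun i _ => (sc_meas δ (t i)).const_mul (c i)
  refine bdd_int (hm.pow_const 2) (C := (∑ i ∈ s, |c i|) ^ 2) (fun x => ?_) a b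
  rw [abs_pow]
  refine pow_le_pow_left₀ (abs_nonneg _) ?_ 2
  refine (abs_sum_le_sum_abs _ _).trans (sum_le_sum fun i _ => ?_)
  rw [abs_mul, abs_of_nonneg (sc_nonneg δ x (t i))]
  exact mul_le_of_le_one_right (abs_nonneg _) (sc_le δ x (t i))

theorem int_Bc (q : ℕ) (w V η Y1 Y2 δ : ℝ) (p : ℕ × ZI × ZI) (a b : ℝ) :
    IntervalIntegrable (fun x => Bc q w V η Y1 Y2 δ p x ^ 2) volume a b := by
  have h1 := int_gen δ (SA q p.2.1 (As w V η p.1) (As w V η (p.1 + 1)) ×ˢ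
    SA q p.2.2 (Y1 / As w V η p.1) (Y2 / As w V η p.1)) (fun z => mu z.1 * Gw w z.2) (fun z => z.1 * z.2) a b
  have h2 : ∀ x, Bc q w V η Y1 Y2 δ p x = ∑ z ∈ SA q p.2.1 (As w V η p.1) (As w V η (p.1 + 1)) ×ˢ
    SA q p.2.2 (Y1 / As w V η p.1) (Y2 / As w V η p.1), mu z.1 * Gw w z.2 * sc δ x (z.1 * z.2) := by
    intro x
    unfold Bc
    rw [← sum_product']
  simp only [h2]
  exact h1

/-- the error on average: the pointwise part -/
theorem err_sq {V η Y1 Y2 δ : ℝ} (hV : 1 ≤ V) (h0 : 0 < δ) (h1 : δ ≤ 1) (hη0 : 0 ≤ η) (hη1 : η ≤ 1) (hY1 : 0 ≤ Y1)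
    (hY12 : Y1 ≤ Y2) (hYV : Y2 ≤ V) (x : ℝ) :
    (∑ t ∈ bl (2 * V), (dv t : ℝ) ^ 2 * sh η Y1 Y2 (nz t) * sc δ x t) ^ 2 ≤
      4 * (δ * η * V / 2 + 140 * (Real.sqrt (2 * V) + 1)) * ∑ t ∈ bl (2 * V), (dv t : ℝ) ^ 4 * sc δ x t := by
  classical
  set mx := δ * η * V / 2 + 140 * (Real.sqrt (2 * V) + 1) with hmx
  have h2 := Finset.sum_mul_sq_le_sq_mul_sq (bl (2 * V)) (fun t => (dv t : ℝ) ^ 2 * sc δ x t)
    (fun t => sh η Y1 Y2 (nz t) * sc δ x t)
  have e1 : ∑ t ∈ bl (2 * V), (dv t : ℝ) ^ 2 * sc δ x t * (sh η Y1 Y2 (nz t) * sc δ x t) =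
      ∑ t ∈ bl (2 * V), (dv t : ℝ) ^ 2 * sh η Y1 Y2 (nz t) * sc δ x t := by
    refine sum_congr rfl fun t _ => ?_
    have := sc_sq δ x t
    calc (dv t : ℝ) ^ 2 * sc δ x t * (sh η Y1 Y2 (nz t) * sc δ x t) =
        (dv t : ℝ) ^ 2 * sh η Y1 Y2 (nz t) * sc δ x t ^ 2 := by ring
      _ = _ := by rw [this]
  have e2 : ∑ t ∈ bl (2 * V), ((dv t : ℝ) ^ 2 * sc δ x t) ^ 2 = ∑ t ∈ bl (2 * V), (dv t : ℝ) ^ 4 * sc δ x t := by
    refine sum_congr rfl fun t _ => ?_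
    rw [mul_pow, sc_sq, ← pow_mul]
  rw [e1, e2] at h2
  have hcard : ∀ Y : ℝ, 0 ≤ Y → Y ≤ V →
      ∑ t ∈ bl (2 * V), (if Y < nz t ∧ nz t ≤ (1 + η) * Y then (1 : ℝ) else 0) * sc δ x t ≤ mx := by
    intro Y hY hYV'
    have h3 : ∑ t ∈ bl (2 * V), (if Y < nz t ∧ nz t ≤ (1 + η) * Y then (1 : ℝ) else 0) * sc δ x t =
        (((bl (2 * V)).filter (fun t => Y < nz t ∧ nz t ≤ (1 + η) * Y ∧ sc δ x t = 1)).card : ℝ) := by
      rw [card_eq_sum_ones, sum_filter]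
      push_cast
      refine sum_congr rfl fun t _ => ?_
      by_cases h4 : Y < nz t ∧ nz t ≤ (1 + η) * Y
      · rw [if_pos h4, one_mul]
        rcases sc01 δ x t with h5 | h5
        · rw [h5, if_neg]
          rintro ⟨-, -, h6⟩
          exact zero_ne_one h6
        · rw [h5, if_pos ⟨h4.1, h4.2, rfl⟩]
      · rw [if_neg h4, zero_mul, if_neg fun h => h4 ⟨h.1, h.2.1⟩]
    rw [h3]
    have h4 : Y ≤ (1 + η) * Y := by nlinarith
    have h5 := shell_card x h0 h1 hY h4 ((bl (2 * V)).filter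
      (fun t => Y < nz t ∧ nz t ≤ (1 + η) * Y ∧ sc δ x t = 1)) (fun c hc => by
        rw [mem_filter, mem_bl] at hc
        exact ⟨hc.1.1, hc.2⟩)
    refine h5.trans ?_
    rw [hmx]
    have h6 : Real.sqrt ((1 + η) * Y) ≤ Real.sqrt (2 * V) := Real.sqrt_le_sqrt (by nlinarith)
    have h7 : δ * ((1 + η) * Y - Y) / 2 ≤ δ * η * V / 2 := by
      have : δ * ((1 + η) * Y - Y) = δ * η * Y := by ring
      rw [this]
      have := mul_le_mul_of_nonneg_left hYV' (mul_nonneg h0.le hη0)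
      linarith
    linarith
  have h3 : ∑ t ∈ bl (2 * V), (sh η Y1 Y2 (nz t) * sc δ x t) ^ 2 ≤ 4 * mx := by
    have h4 : ∀ t ∈ bl (2 * V), (sh η Y1 Y2 (nz t) * sc δ x t) ^ 2 ≤
        2 * ((if Y1 < nz t ∧ nz t ≤ (1 + η) * Y1 then (1 : ℝ) else 0) * sc δ x t) +
        2 * ((if Y2 < nz t ∧ nz t ≤ (1 + η) * Y2 then (1 : ℝ) else 0) * sc δ x t) := by
      intro t _
      rw [mul_pow, sc_sq, ← mul_add, ← add_mul, ← mul_assoc]
      refine mul_le_mul_of_nonneg_right ?_ (sc_nonneg δ x t)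
      unfold sh
      split_ifs <;> norm_num
    refine (sum_le_sum h4).trans ?_
    rw [sum_add_distrib, ← mul_sum, ← mul_sum]
    have h5 := hcard Y1 hY1 (hY12.trans hYV)
    have h6 := hcard Y2 (hY1.trans hY12) hYV
    linarith
  refine h2.trans ?_
  rw [mul_comm]
  refine mul_le_mul_of_nonneg_right h3 (sum_nonneg fun t _ => mul_nonneg (by positivity) (sc_nonneg δ x t))

/-- the mean square for large `V` -/
theorem mb1_ev (hm : S_MUB) (h1 : S_PC) (h2 : S_P0B) (h3 : S_LSB) (h4 : S_FT) {ε : ℝ} (hε : 0 < ε)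
    (hε2 : ε ≤ 1 / 2) (A B : ℕ) : ∃ C : ℝ, 0 < C ∧ ∀ᶠ V : ℝ in atTop, ∀ (δ Y1 Y2 : ℝ) (q : ℕ) (r : ZI),
      V ^ (-(1 / 2) + ε : ℝ) ≤ δ → δ ≤ 1 → 0 ≤ Y1 → Y1 ≤ Y2 → Y2 ≤ V → 1 ≤ q → (q : ℝ) ≤ (Real.log V) ^ B →
      IsCoprime r ((q : ℕ) : ZI) →
      ∫ x in (0 : ℝ)..(2 * Real.pi), (∑ t ∈ bl V, mu t * FF q r Y1 Y2 δ x t) ^ 2 ≤
        C * δ ^ 2 * V ^ 2 / (Real.log V) ^ A := by
  classical
  obtain ⟨Cd, D, hCd, hdv⟩ := dv_moment h3 h4
  set A2 := A + D with hA2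
  obtain ⟨Cc, hCc, hcell⟩ := cell h1 h3 h4 hε hε2 (A + 2 * (A2 + 1 + 4 * B)) B
  obtain ⟨Cq, hCq, hp0⟩ := p0bw h2 hε A B
  refine ⟨7 * (Cq ^ 2 + 23000) ^ 2 + 9 * Cc + 32 * 2 ^ D * Cd, by positivity, ?_⟩
  have f1 := logpow A2 hε (show (0 : ℝ) < 1 / 280 by norm_num)
  have f2 := logpow A (show 0 < 3 * ε / 4 by positivity) (show (0 : ℝ) < 1 by norm_num)
  filter_upwards [hcell, hp0, f1, f2, eventually_ge_atTop 4] with V hcell hp0 f1 f2 hV4
  intro δ Y1 Y2 q r hδ hδ1 hY1 hY12 hYV hq hqB hr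
  set L := Real.log V with hL
  have hL1 : 1 ≤ L := one_le_log (by linarith)
  have hV0 : 0 < V := by linarith
  have hV1 : 1 ≤ V := by linarith
  set w := V ^ (ε / 8) with hw
  have hw1 : 1 ≤ w := Real.one_le_rpow hV1 (by positivity)
  have hwV : w ≤ V := by
    calc w ≤ V ^ (1 : ℝ) := Real.rpow_le_rpow_of_exponent_le hV1 (by linarith)
      _ = V := Real.rpow_one V
  have hδ0 : 0 < δ := lt_of_lt_of_le (Real.rpow_pos_of_pos hV0 _) hδ
  set sV := Real.sqrt V with hsV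
  have hsV' : sV = V ^ (1 / 2 : ℝ) := Real.sqrt_eq_rpow V
  have hsV1 : 1 ≤ sV := Real.one_le_sqrt.2 hV1
  have hδV : V ^ ε * sV ≤ δ * V := by
    have c1 : V ^ (-(1 / 2) + ε : ℝ) * V = V ^ ε * sV := by
      rw [hsV', ← Real.rpow_add hV0]
      nth_rewrite 2 [← Real.rpow_one V]
      rw [← Real.rpow_add hV0]
      congr 1
      ring
    rw [← c1]
    exact mul_le_mul_of_nonneg_right hδ hV0.le
  -- the width of the cells
  set η := 1 / L ^ A2 with hη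
  have hLA : 1 ≤ L ^ A2 := one_le_pow₀ hL1
  have hη0 : 0 < η := by positivity
  have hη1 : η ≤ 1 := by rw [hη, div_le_one (by positivity)]; exact hLA
  set I := ⌈2 * L / η⌉₊ with hI
  have hI1 : 2 * L / η ≤ I := Nat.le_ceil _
  have hI2 : (I : ℝ) ≤ 3 * L ^ (A2 + 1) := by
    have c1 := Nat.ceil_lt_add_one (show 0 ≤ 2 * L / η by positivity)
    rw [← hI] at c1
    have c2 : 2 * L / η = 2 * L ^ (A2 + 1) := by
      rw [hη, div_div_eq_mul_div, div_one, pow_succ]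
      ring
    rw [c2] at c1
    have c3 : 1 ≤ L ^ (A2 + 1) := one_le_pow₀ hL1
    linarith
  have hbig : V ≤ w * (1 + η) ^ I := by
    have c1 := big_pow hV1 hη0 hη1 hI1
    calc V ≤ (1 + η) ^ I := c1
      _ ≤ w * (1 + η) ^ I := le_mul_of_one_le_left (by positivity) hw1
  -- the number of the cells
  set J := Jx q r I with hJ
  have hJc : (J.card : ℝ) ≤ 3 * L ^ (A2 + 1 + 4 * B) := by
    have c1 : (J.card : ℝ) ≤ (I : ℝ) * (q : ℝ) ^ 4 := by exact_mod_cast card_Jx q r I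
    refine c1.trans ?_
    have c2 : (q : ℝ) ^ 4 ≤ L ^ (4 * B) := by
      calc (q : ℝ) ^ 4 ≤ (L ^ B) ^ 4 := pow_le_pow_left₀ (Nat.cast_nonneg _) hqB 4
        _ = L ^ (4 * B) := by rw [← pow_mul, mul_comm]
    calc (I : ℝ) * (q : ℝ) ^ 4 ≤ (3 * L ^ (A2 + 1)) * L ^ (4 * B) :=
          mul_le_mul hI2 c2 (by positivity) (by positivity)
      _ = 3 * L ^ (A2 + 1 + 4 * B) := by rw [pow_add L (A2 + 1)]; ring
  -- the constants
  set c0 := 288 * w + (δ * V * (Cq / L ^ A) ^ 2 + (9 * w) ^ 2 * (280 * sV)) with hc0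
  have hc0n : 0 ≤ c0 := by positivity
  have hc0b : c0 ≤ (Cq ^ 2 + 23000) * (δ * V / L ^ A) := by
    have d1 : δ * V * (Cq / L ^ A) ^ 2 ≤ Cq ^ 2 * (δ * V / L ^ A) := by
      have e1 : δ * V * (Cq / L ^ A) ^ 2 = Cq ^ 2 * (δ * V / L ^ A) * (1 / L ^ A) := by
        field_simp
      rw [e1]
      apply mul_le_of_le_one_right (by positivity)
      rw [div_le_one (by positivity)]
      exact one_le_pow₀ hL1
    have d2 : w ^ 2 * sV ≤ δ * V / L ^ A := by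
      rw [le_div_iff₀ (by positivity)]
      have e1 : w ^ 2 = V ^ (ε / 4) := by
        rw [hw, ← Real.rpow_natCast, ← Real.rpow_mul hV0.le]
        congr 1
        push_cast
        ring
      have e2 : V ^ (ε / 4) * V ^ (3 * ε / 4) = V ^ ε := by
        rw [← Real.rpow_add hV0]
        congr 1
        ring
      rw [one_mul] at f2
      calc w ^ 2 * sV * L ^ A ≤ w ^ 2 * sV * V ^ (3 * ε / 4) := mul_le_mul_of_nonneg_left f2 (by positivity)
        _ = (V ^ (ε / 4) * V ^ (3 * ε / 4)) * sV := by rw [e1]; ring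
        _ = V ^ ε * sV := by rw [e2]
        _ ≤ δ * V := hδV
    have d3 : 288 * w ≤ 288 * (w ^ 2 * sV) := by
      apply mul_le_mul_of_nonneg_left _ (by norm_num)
      have : w ≤ w ^ 2 := by nlinarith
      calc w ≤ w ^ 2 := this
        _ = w ^ 2 * 1 := (mul_one _).symm
        _ ≤ w ^ 2 * sV := mul_le_mul_of_nonneg_left hsV1 (by positivity)
    have d4 : (9 * w) ^ 2 * (280 * sV) = 22680 * (w ^ 2 * sV) := by ring
    have d5 : 0 ≤ δ * V / L ^ A := by positivity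
    rw [hc0, d4]
    nlinarith
  set mx := δ * η * V / 2 + 140 * (Real.sqrt (2 * V) + 1) with hmx
  have hmx0 : 0 ≤ mx := by positivity
  have hmxb : mx ≤ 2 * (δ * η * V) := by
    have d1 : Real.sqrt (2 * V) ≤ 2 * sV := by
      rw [hsV, show (2 : ℝ) * Real.sqrt V = Real.sqrt (4 * V) by
        rw [Real.sqrt_mul (by norm_num), show (4 : ℝ) = 2 ^ 2 by norm_num, Real.sqrt_sq (by norm_num)]]
      exact Real.sqrt_le_sqrt (by linarith)
    have d2 : 280 * sV ≤ δ * η * V := by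
      rw [hη]
      have e1 : δ * (1 / L ^ A2) * V = δ * V / L ^ A2 := by ring
      rw [e1, le_div_iff₀ (by positivity)]
      calc 280 * sV * L ^ A2 ≤ 280 * sV * (1 / 280 * V ^ ε) := mul_le_mul_of_nonneg_left f1 (by positivity)
        _ = V ^ ε * sV := by ring
        _ ≤ δ * V := hδV
    rw [hmx]
    linarith
  -- the pointwise bound
  have hpt : ∀ x, (∑ t ∈ bl V, mu t * FF q r Y1 Y2 δ x t) ^ 2 ≤
      3 / 256 * (c0 ^ 2 + J.card * ∑ p ∈ J, Bc q w V η Y1 Y2 δ p x ^ 2 +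
        4 * mx * ∑ t ∈ bl (2 * V), (dv t : ℝ) ^ 4 * sc δ x t) := by
    intro x
    have d1 := vid hm hw1 hwV (FF q r Y1 Y2 δ x) (fun t ht => FF_out hYV t ht)
    have d2 : |∑ t ∈ bl w, mu t * FF q r Y1 Y2 δ x t| ≤ 9 * w := by
      refine (abs_sum_le_sum_abs _ _).trans (le_trans (sum_le_sum (g := fun _ => (1 : ℝ)) fun t _ => ?_) ?_)
      · rw [abs_mul]
        have e1 : |FF q r Y1 Y2 δ x t| ≤ 1 := by
          unfold FF
          split_ifs
          · rw [abs_of_nonneg (sc_nonneg _ _ _)]; exact sc_le _ _ _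
          · rw [abs_zero]; exact zero_le_one
        calc |mu t| * |FF q r Y1 Y2 δ x t| ≤ 1 * 1 := mul_le_mul (abs_mu_le t) e1 (abs_nonneg _) zero_le_one
          _ = 1 := one_mul 1
      · rw [sum_const, nsmul_eq_mul, mul_one]
        exact card_bl hw1
    have d3 := typeI hq hr (Y1 := Y1) (Y2 := Y2) x hδ0 hδ1 hY1 hY12 hYV hV1 hw1 (hp0 q hq hqB)
    have d4 := dec_err hq (r := r) (δ := δ) (x := x) hw1 hwV hη0.le hη1 hbig hY1 hY12 hYV
    have d5 := err_sq hV1 hδ0 hδ1 hη0.le hη1 hY1 hY12 hYV x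
    rw [← hmx] at d5
    have d6 : (∑ p ∈ J, Bc q w V η Y1 Y2 δ p x) ^ 2 ≤ J.card * ∑ p ∈ J, Bc q w V η Y1 Y2 δ p x ^ 2 :=
      sq_sum_le_card_mul_sum_sq
    set m := ∑ t ∈ bl V, mu t * FF q r Y1 Y2 δ x t with hmm
    set P1 := ∑ t ∈ bl w, mu t * FF q r Y1 Y2 δ x t with hP1
    set TI := ∑ a ∈ bl w, ∑ b ∈ bl w, mu a * mu b * ∑ c ∈ bl V, FF q r Y1 Y2 δ x (a * b * c) with hTI
    set TII := ∑ a ∈ bg w V, ∑ m ∈ bl V, mu a * Gw w m * FF q r Y1 Y2 δ x (a * m) with hTII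
    set S := ∑ p ∈ J, Bc q w V η Y1 Y2 δ p x with hS
    set Er := ∑ t ∈ bl (2 * V), (dv t : ℝ) ^ 2 * sh η Y1 Y2 (nz t) * sc δ x t with hEr
    have e1 : |16 * m| ≤ c0 + |S| + Er := by
      have g1 : 16 * m = 32 * P1 - TI + S + (TII - S) := by rw [d1]; ring
      rw [g1]
      have g2 : |32 * P1| ≤ 288 * w := by
        rw [abs_mul, abs_of_pos (by norm_num : (0 : ℝ) < 32)]
        linarith
      calc |32 * P1 - TI + S + (TII - S)| ≤ |32 * P1 - TI + S| + |TII - S| := abs_add_le _ _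
        _ ≤ |32 * P1 - TI| + |S| + |TII - S| := by linarith [abs_add_le (32 * P1 - TI) S]
        _ ≤ |32 * P1| + |TI| + |S| + |TII - S| := by linarith [abs_sub (32 * P1) TI]
        _ ≤ c0 + |S| + Er := by rw [hc0]; linarith
    have e2 : (16 * m) ^ 2 ≤ 3 * (c0 ^ 2 + S ^ 2 + Er ^ 2) := by
      have g1 : (16 * m) ^ 2 ≤ (c0 + |S| + Er) ^ 2 := by
        rw [← sq_abs]
        exact pow_le_pow_left₀ (abs_nonneg _) e1 2
      have g2 : |S| ^ 2 = S ^ 2 := sq_abs S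
      nlinarith [sq_nonneg (c0 - |S|), sq_nonneg (c0 - Er), sq_nonneg (|S| - Er)]
    have e3 : (16 * m) ^ 2 = 256 * m ^ 2 := by ring
    rw [e3] at e2
    linarith
  -- integration
  have hi1 : ∀ p ∈ J, IntervalIntegrable (fun x => Bc q w V η Y1 Y2 δ p x ^ 2) volume 0 (2 * Real.pi) :=
    fun p _ => int_Bc _ _ _ _ _ _ _ _ _ _
  have hi2 : IntervalIntegrable (fun x => ∑ p ∈ J, Bc q w V η Y1 Y2 δ p x ^ 2) volume 0 (2 * Real.pi) := by
    have := IntervalIntegrable.sum J (f := fun p x => Bc q w V η Y1 Y2 δ p x ^ 2) hi1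
    refine this.congr_ae ?_
    refine Eventually.of_forall fun x => ?_
    simp
  have hi3 : IntervalIntegrable (fun x => ∑ t ∈ bl (2 * V), (dv t : ℝ) ^ 4 * sc δ x t) volume 0 (2 * Real.pi) :=
    int_sum_sc _ _ _ _ _
  have hi4 : IntervalIntegrable (fun x => c0 ^ 2 + J.card * ∑ p ∈ J, Bc q w V η Y1 Y2 δ p x ^ 2) volume 0
      (2 * Real.pi) := intervalIntegrable_const.add (hi2.const_mul _)
  have hR : ∫ x in (0 : ℝ)..(2 * Real.pi), 3 / 256 * (c0 ^ 2 + J.card * ∑ p ∈ J, Bc q w V η Y1 Y2 δ p x ^ 2 +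
        4 * mx * ∑ t ∈ bl (2 * V), (dv t : ℝ) ^ 4 * sc δ x t) =
      3 / 256 * (2 * Real.pi * c0 ^ 2 + J.card * (∑ p ∈ J, ∫ x in (0 : ℝ)..(2 * Real.pi), Bc q w V η Y1 Y2 δ p x ^ 2) +
        4 * mx * ∑ t ∈ bl (2 * V), (dv t : ℝ) ^ 4 * ∫ x in (0 : ℝ)..(2 * Real.pi), sc δ x t) := by
    rw [intervalIntegral.integral_const_mul, intervalIntegral.integral_add hi4 (hi3.const_mul _),
      intervalIntegral.integral_add intervalIntegrable_const (hi2.const_mul _), intervalIntegral.integral_const_mul,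
      intervalIntegral.integral_const_mul, intervalIntegral.integral_const, smul_eq_mul, sub_zero,
      intervalIntegral.integral_finsetSum hi1, intervalIntegral.integral_finsetSum]
    · congr 3
      refine sum_congr rfl fun t _ => intervalIntegral.integral_const_mul _ _
    · intro t _
      refine bdd_int ((sc_meas δ t).const_mul _) (C := (dv t : ℝ) ^ 4) (fun x => ?_) _ _
      rw [abs_mul, abs_of_nonneg (sc_nonneg _ x t), abs_of_nonneg (by positivity)]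
      exact mul_le_of_le_one_right (by positivity) (sc_le _ x t)
  have hL0 : ∀ x, ∑ t ∈ bl V, mu t * FF q r Y1 Y2 δ x t =
      ∑ t ∈ (cls q r Y2).filter (fun t => Y1 < nz t), mu t * sc δ x t := fun x => (FF_sum hYV).symm
  have hi5 : IntervalIntegrable (fun x => (∑ t ∈ bl V, mu t * FF q r Y1 Y2 δ x t) ^ 2) volume 0 (2 * Real.pi) := by
    simp only [hL0]
    exact int_sum_sc_sq _ _ _ _ _
  have hmain : ∫ x in (0 : ℝ)..(2 * Real.pi), (∑ t ∈ bl V, mu t * FF q r Y1 Y2 δ x t) ^ 2 ≤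
      3 / 256 * (2 * Real.pi * c0 ^ 2 + J.card * (∑ p ∈ J, ∫ x in (0 : ℝ)..(2 * Real.pi), Bc q w V η Y1 Y2 δ p x ^ 2) +
        4 * mx * ∑ t ∈ bl (2 * V), (dv t : ℝ) ^ 4 * ∫ x in (0 : ℝ)..(2 * Real.pi), sc δ x t) := by
    rw [← hR]
    exact intervalIntegral.integral_mono_on (by positivity) hi5 ((hi4.add (hi3.const_mul _)).const_mul _)
      fun x _ => hpt x
  -- the three parts
  set X := δ ^ 2 * V ^ 2 / L ^ A with hX
  have hX0 : 0 ≤ X := by positivity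
  have k1 : 2 * Real.pi * c0 ^ 2 ≤ 7 * (Cq ^ 2 + 23000) ^ 2 * X := by
    have d1 : c0 ^ 2 ≤ (Cq ^ 2 + 23000) ^ 2 * X := by
      calc c0 ^ 2 ≤ ((Cq ^ 2 + 23000) * (δ * V / L ^ A)) ^ 2 := pow_le_pow_left₀ hc0n hc0b 2
        _ = (Cq ^ 2 + 23000) ^ 2 * X * (1 / L ^ A) := by rw [hX]; field_simp
        _ ≤ (Cq ^ 2 + 23000) ^ 2 * X := by
            apply mul_le_of_le_one_right (by positivity)
            rw [div_le_one (by positivity)]
            exact one_le_pow₀ hL1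
    have d2 : 2 * Real.pi ≤ 7 := by linarith [Real.pi_lt_d2]
    calc 2 * Real.pi * c0 ^ 2 ≤ 7 * ((Cq ^ 2 + 23000) ^ 2 * X) := mul_le_mul d2 d1 (by positivity) (by norm_num)
      _ = _ := by ring
  have k2 : J.card * ∑ p ∈ J, ∫ x in (0 : ℝ)..(2 * Real.pi), Bc q w V η Y1 Y2 δ p x ^ 2 ≤ 9 * Cc * X := by
    have d1 : ∀ p ∈ J, ∫ x in (0 : ℝ)..(2 * Real.pi), Bc q w V η Y1 Y2 δ p x ^ 2 ≤
        Cc * δ ^ 2 * V ^ 2 / L ^ (A + 2 * (A2 + 1 + 4 * B)) := by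
      intro p hp
      rw [hJ] at hp
      unfold Jx at hp
      rw [mem_filter, mem_product, mem_product] at hp
      obtain ⟨⟨hpI, -, -⟩, hpd⟩ := hp
      have g1 : IsCoprime p.2.2 ((q : ℕ) : ZI) := coprime_of hr p.2.1 hpd
      have g2 : IsCoprime p.2.1 ((q : ℕ) : ZI) := coprime_of hr p.2.2 (by rwa [mul_comm])
      have hAw := As_ge hwV (by linarith) hη0.le p.1
      unfold Bc
      refine hcell δ Y1 Y2 (As w V η p.1) (As w V η (p.1 + 1)) q p.2.1 p.2.2 hδ hδ1 hY1 hY12 hYV hq hqB g2 g1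
        hAw (As_mono (by linarith) hη0.le (Nat.le_succ _)) ?_ (As_le _ _ _ _)
      refine (As_succ hV0.le hη0.le p.1).trans ?_
      apply mul_le_mul_of_nonneg_right _ (by linarith)
      linarith
    have d2 : ∑ p ∈ J, ∫ x in (0 : ℝ)..(2 * Real.pi), Bc q w V η Y1 Y2 δ p x ^ 2 ≤
        J.card * (Cc * δ ^ 2 * V ^ 2 / L ^ (A + 2 * (A2 + 1 + 4 * B))) := by
      refine (sum_le_sum d1).trans (le_of_eq ?_)
      rw [sum_const, nsmul_eq_mul]
    calc J.card * ∑ p ∈ J, ∫ x in (0 : ℝ)..(2 * Real.pi), Bc q w V η Y1 Y2 δ p x ^ 2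
        ≤ J.card * (J.card * (Cc * δ ^ 2 * V ^ 2 / L ^ (A + 2 * (A2 + 1 + 4 * B)))) :=
          mul_le_mul_of_nonneg_left d2 (Nat.cast_nonneg _)
      _ = (J.card : ℝ) ^ 2 * (Cc * δ ^ 2 * V ^ 2 / L ^ (A + 2 * (A2 + 1 + 4 * B))) := by ring
      _ ≤ (3 * L ^ (A2 + 1 + 4 * B)) ^ 2 * (Cc * δ ^ 2 * V ^ 2 / L ^ (A + 2 * (A2 + 1 + 4 * B))) := by
          apply mul_le_mul_of_nonneg_right _ (by positivity)
          exact pow_le_pow_left₀ (Nat.cast_nonneg _) hJc 2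
      _ = 9 * Cc * X := by
          rw [hX, pow_add L A, mul_comm 2 (A2 + 1 + 4 * B), pow_mul L]
          field_simp
          ring
  have k3 : 4 * mx * ∑ t ∈ bl (2 * V), (dv t : ℝ) ^ 4 * ∫ x in (0 : ℝ)..(2 * Real.pi), sc δ x t ≤
      32 * 2 ^ D * Cd * X := by
    have d1 : ∑ t ∈ bl (2 * V), (dv t : ℝ) ^ 4 * ∫ x in (0 : ℝ)..(2 * Real.pi), sc δ x t ≤
        (∑ t ∈ bl (2 * V), (dv t : ℝ) ^ 4) * (2 * δ) := by
      rw [sum_mul]
      exact sum_le_sum fun t _ => mul_le_mul_of_nonneg_left (integral_sc_le hδ0 hδ1 t) (by positivity)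
    have d2 := hdv (2 * V) (by linarith)
    have d3 : Real.log (2 * V) ≤ 2 * L := by
      rw [Real.log_mul (by norm_num) hV0.ne']
      have := Real.log_two_lt_d9
      linarith
    have d4 : (Real.log (2 * V)) ^ D ≤ 2 ^ D * L ^ D := by
      rw [← mul_pow]
      exact pow_le_pow_left₀ (Real.log_nonneg (by linarith)) d3 _
    have d5 : ∑ t ∈ bl (2 * V), (dv t : ℝ) ^ 4 ≤ Cd * (2 * V) * (2 ^ D * L ^ D) :=
      d2.trans (mul_le_mul_of_nonneg_left d4 (by positivity))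
    calc 4 * mx * ∑ t ∈ bl (2 * V), (dv t : ℝ) ^ 4 * ∫ x in (0 : ℝ)..(2 * Real.pi), sc δ x t
        ≤ 4 * mx * ((∑ t ∈ bl (2 * V), (dv t : ℝ) ^ 4) * (2 * δ)) := mul_le_mul_of_nonneg_left d1 (by positivity)
      _ ≤ 4 * mx * ((Cd * (2 * V) * (2 ^ D * L ^ D)) * (2 * δ)) := by
          apply mul_le_mul_of_nonneg_left _ (by positivity)
          exact mul_le_mul_of_nonneg_right d5 (by positivity)
      _ ≤ 4 * (2 * (δ * η * V)) * ((Cd * (2 * V) * (2 ^ D * L ^ D)) * (2 * δ)) := by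
          apply mul_le_mul_of_nonneg_right _ (by positivity)
          linarith
      _ = 32 * 2 ^ D * Cd * X := by
          rw [hX, hη, hA2, pow_add]
          field_simp
          ring
  refine hmain.trans ?_
  have k4 : 0 ≤ (7 * (Cq ^ 2 + 23000) ^ 2 + 9 * Cc + 32 * 2 ^ D * Cd) * X := by positivity
  calc 3 / 256 * (2 * Real.pi * c0 ^ 2 + J.card * (∑ p ∈ J, ∫ x in (0 : ℝ)..(2 * Real.pi), Bc q w V η Y1 Y2 δ p x ^ 2) +
        4 * mx * ∑ t ∈ bl (2 * V), (dv t : ℝ) ^ 4 * ∫ x in (0 : ℝ)..(2 * Real.pi), sc δ x t)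
      ≤ 3 / 256 * ((7 * (Cq ^ 2 + 23000) ^ 2 + 9 * Cc + 32 * 2 ^ D * Cd) * X) := by
        apply mul_le_mul_of_nonneg_left _ (by norm_num)
        linarith
    _ ≤ (7 * (Cq ^ 2 + 23000) ^ 2 + 9 * Cc + 32 * 2 ^ D * Cd) * X := by linarith
    _ = _ := by rw [hX]; ring

/-- **the Moebius function of `ℤ[i]` in almost all narrow sectors** -/
theorem mb1 (hm : S_MUB) (h1 : S_PC) (h2 : S_P0B) (h3 : S_LSB) (h4 : S_FT) : S_MB1 := by
  classical
  intro ε A B hε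
  rcases le_or_gt ε (1 / 2) with hε2 | hε2
  swap
  · -- there is nothing to prove
    refine ⟨1, one_pos, ?_⟩
    intro V δ Y1 Y2 q r hV hδ hδ1
    exfalso
    have c1 : 1 < V ^ (-(1 / 2) + ε : ℝ) := Real.one_lt_rpow (by linarith) (by linarith)
    linarith
  obtain ⟨C, hC, hev⟩ := mb1_ev hm h1 h2 h3 h4 hε hε2 A B
  rw [eventually_atTop] at hev
  obtain ⟨V1, hV1⟩ := hev
  set V0 := max V1 3 with hV0
  have hV03 : 3 ≤ V0 := le_max_right _ _
  have hlV0 : 1 ≤ Real.log V0 := one_le_log hV03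
  refine ⟨C + 7 * 81 * V0 * (Real.log V0) ^ A, by positivity, ?_⟩
  intro V δ Y1 Y2 q r hV2 hδ hδ1 hY1 hY12 hYV hq hqB hr
  have hVp : 0 < V := by linarith
  have hlV : 0 < Real.log V := Real.log_pos (by linarith)
  have hδ0 : 0 < δ := lt_of_lt_of_le (Real.rpow_pos_of_pos hVp _) hδ
  rcases le_or_gt V0 V with h | h
  · have h5 := hV1 V ((le_max_left _ _).trans h) δ Y1 Y2 q r hδ hδ1 hY1 hY12 hYV hq hqB hr
    have h6 : ∀ x, ∑ t ∈ bl V, mu t * FF q r Y1 Y2 δ x t =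
      ∑ t ∈ (cls q r Y2).filter (fun t => Y1 < nz t), mu t * sc δ x t := fun x => (FF_sum hYV).symm
    simp only [h6] at h5
    refine h5.trans ?_
    have e1 : ∀ K : ℝ, K * δ ^ 2 * V ^ 2 / (Real.log V) ^ A = K * (δ ^ 2 * V ^ 2 / (Real.log V) ^ A) := by
      intro K; ring
    rw [e1, e1]
    apply mul_le_mul_of_nonneg_right _ (by positivity)
    have : 0 ≤ 7 * 81 * V0 * (Real.log V0) ^ A := by positivity
    linarith
  · -- small `V`
    have h5 : ∀ x ∈ Set.Icc 0 (2 * Real.pi), (∑ t ∈ (cls q r Y2).filter (fun t => Y1 < nz t), mu t * sc δ x t) ^ 2 ≤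
        (9 * V) ^ 2 := by
      intro x _
      rw [← sq_abs]
      refine pow_le_pow_left₀ (abs_nonneg _) ?_ 2
      refine (sum_sc_bdd δ _ mu x).trans ?_
      refine (sum_le_sum fun t _ => abs_mu_le t).trans ?_
      rw [sum_const, nsmul_eq_mul, mul_one]
      refine le_trans ?_ (card_bl (X := V) (by linarith))
      norm_cast
      refine card_le_card fun t ht => ?_
      unfold cls at ht
      rw [mem_filter, mem_filter, mem_bl] at ht
      rw [mem_bl]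
      exact ⟨ht.1.1.1, ht.1.1.2.trans hYV⟩
    have h6 : ∫ x in (0 : ℝ)..(2 * Real.pi), (∑ t ∈ (cls q r Y2).filter (fun t => Y1 < nz t), mu t * sc δ x t) ^ 2 ≤
        2 * Real.pi * (9 * V) ^ 2 := by
      refine (intervalIntegral.integral_mono_on (by positivity) (int_sum_sc_sq _ _ _ _ _)
        (intervalIntegrable_const (c := (9 * V) ^ 2)) h5).trans (le_of_eq ?_)
      rw [intervalIntegral.integral_const, smul_eq_mul, sub_zero]
    refine h6.trans ?_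
    have h7 : 1 ≤ δ ^ 2 * V := by
      have c1 : (V ^ (-(1 / 2) + ε : ℝ)) ^ 2 * V = V ^ (2 * ε) := by
        rw [← Real.rpow_natCast, ← Real.rpow_mul hVp.le]
        nth_rewrite 2 [← Real.rpow_one V]
        rw [← Real.rpow_add hVp]
        congr 1
        push_cast
        ring
      calc (1 : ℝ) ≤ V ^ (2 * ε) := Real.one_le_rpow (by linarith) (by positivity)
        _ = (V ^ (-(1 / 2) + ε : ℝ)) ^ 2 * V := c1.symm
        _ ≤ δ ^ 2 * V := by
            apply mul_le_mul_of_nonneg_right _ hVp.le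
            exact pow_le_pow_left₀ (Real.rpow_nonneg hVp.le _) hδ 2
    have h8 : (Real.log V) ^ A ≤ (Real.log V0) ^ A :=
      pow_le_pow_left₀ hlV.le (Real.log_le_log hVp h.le) _
    rw [le_div_iff₀ (by positivity)]
    have h9 : 2 * Real.pi * (9 * V) ^ 2 * (Real.log V) ^ A ≤ 7 * 81 * V0 * (Real.log V0) ^ A * δ ^ 2 * V ^ 2 := by
      have c1 : 2 * Real.pi ≤ 7 := by linarith [Real.pi_lt_d2]
      have c2 : V ≤ V0 := h.le
      have c3 : 1 ≤ V0 * δ ^ 2 := by nlinarith [sq_nonneg δ]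
      calc 2 * Real.pi * (9 * V) ^ 2 * (Real.log V) ^ A ≤ 7 * (9 * V) ^ 2 * (Real.log V0) ^ A := by
            apply mul_le_mul _ h8 (by positivity) (by positivity)
            exact mul_le_mul_of_nonneg_right c1 (by positivity)
        _ = 7 * 81 * (Real.log V0) ^ A * V ^ 2 * 1 := by ring
        _ ≤ 7 * 81 * (Real.log V0) ^ A * V ^ 2 * (V0 * δ ^ 2) := mul_le_mul_of_nonneg_left c3 (by positivity)
        _ = _ := by ring
    have h10 : 0 ≤ C * δ ^ 2 * V ^ 2 := by positivity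
    calc 2 * Real.pi * (9 * V) ^ 2 * (Real.log V) ^ A ≤ 7 * 81 * V0 * (Real.log V0) ^ A * δ ^ 2 * V ^ 2 := h9
      _ ≤ (C + 7 * 81 * V0 * (Real.log V0) ^ A) * δ ^ 2 * V ^ 2 := by nlinarith

end Pool.Agent.N855.GN
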