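import Pool.Agent.N855.GN.Tools

/-!
# Project GN: a cell of the sum of type II
-/

set_option autoImplicit false

namespace Pool.Agent.N855.GN

open Finset MeasureTheory Filter Topology
open Pool.Agent.N782.GN

open Classical in
/-- the elements of a class with norm in a range -/
noncomputable def SA (q : ℕ) (r : ZI) (A0 A1 : ℝ) : Finset ZI := (cls q r A1).filter (fun a => A0 < nz a)

open Classical in
theorem mem_SA {q : ℕ} {r : ZI} {A0 A1 : ℝ} {a : ZI} :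
    a ∈ SA q r A0 A1 ↔ a ≠ 0 ∧ nz a ≤ A1 ∧ ((q : ℕ) : ZI) ∣ a - r ∧ A0 < nz a := by
  unfold SA cls
  rw [mem_filter, mem_filter, mem_bl, and_assoc, and_assoc]

theorem SA_empty {q : ℕ} {r : ZI} {A0 A1 : ℝ} (h : A1 ≤ A0) : SA q r A0 A1 = ∅ := by
  rw [eq_empty_iff_forall_notMem]
  intro a ha
  rw [mem_SA] at ha
  linarith [ha.2.1, ha.2.2.2]

theorem SA_sum {R : Type} [AddCommGroup R] {q : ℕ} {r : ZI} {A0 A1 : ℝ} (h : A0 ≤ A1) (f : ZI → R) :
    ∑ a ∈ SA q r A0 A1, f a = ∑ a ∈ cls q r A1, f a - ∑ a ∈ cls q r A0, f a := by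
  classical
  rw [eq_sub_iff_add_eq, ← sum_filter_add_sum_filter_not (cls q r A1) (fun a => A0 < nz a)]
  congr 1
  refine sum_congr ?_ fun _ _ => rfl
  ext a
  unfold cls
  rw [mem_filter, mem_filter, mem_filter, mem_bl, mem_bl, not_lt]
  constructor
  · rintro ⟨⟨h1, h2⟩, h3⟩
    exact ⟨⟨⟨h1, h2.trans h⟩, h3⟩, h2⟩
  · rintro ⟨⟨⟨h1, _⟩, h3⟩, h2⟩
    exact ⟨⟨h1, h2⟩, h3⟩

/-- differences -/
theorem diff_le {q : ℕ} {r : ZI} {k : ℤ} {w c : ℝ}
    (hP : ∀ Z : ℝ, w ≤ Z → ‖∑ t ∈ cls q r Z, (mu t : ℂ) * ph k 0 t‖ ≤ c * Z) (hc : 0 ≤ c)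
    {Z1 Z2 : ℝ} (h1 : w ≤ Z1) (h2 : 0 ≤ Z2) :
    ‖∑ t ∈ SA q r Z1 Z2, (mu t : ℂ) * ph k 0 t‖ ≤ 2 * c * Z2 := by
  rcases le_or_gt Z2 Z1 with h | h
  · rw [SA_empty h, sum_empty, norm_zero]
    positivity
  · rw [SA_sum h.le]
    refine (norm_sub_le _ _).trans ?_
    have h3 := hP Z1 h1
    have h4 := hP Z2 (h1.trans h.le)
    have h5 : c * Z1 ≤ c * Z2 := mul_le_mul_of_nonneg_left h.le hc
    linarith

/-- the first factor -/
noncomputable def Fa (q : ℕ) (r1 : ZI) (A0 A1 : ℝ) (k : ℤ) : ℂ := ∑ a ∈ SA q r1 A0 A1, (mu a : ℂ) * ph k 0 a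

/-- the second factor -/
noncomputable def Fm (w : ℝ) (q : ℕ) (r2 : ZI) (M0 M1 : ℝ) (k : ℤ) : ℂ :=
  ∑ m ∈ SA q r2 M0 M1, (Gw w m : ℂ) * ph k 0 m

theorem coprime_of {q : ℕ} {r c : ZI} (hr : IsCoprime r ((q : ℕ) : ZI)) (b : ZI)
    (h : ((q : ℕ) : ZI) ∣ b * c - r) : IsCoprime c ((q : ℕ) : ZI) := by
  obtain ⟨k, hk⟩ := h
  obtain ⟨e, f, hef⟩ := hr
  refine ⟨e * b, f - e * k, ?_⟩
  linear_combination hef + e * hk

/-- **the second factor is small** -/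
theorem Fm_le {q : ℕ} {r2 : ZI} (hr : IsCoprime r2 ((q : ℕ) : ZI)) {k : ℤ} {w c M0 M1 : ℝ}
    (hP : ∀ r : ZI, IsCoprime r ((q : ℕ) : ZI) → ∀ Z : ℝ, w ≤ Z →
      ‖∑ t ∈ cls q r Z, (mu t : ℂ) * ph k 0 t‖ ≤ c * Z) (hc : 0 ≤ c) (h1 : 0 ≤ M1) :
    ‖Fm w q r2 M0 M1 k‖ ≤ 2 * c * M1 * ∑ d ∈ bl M1, 1 / nz d := by
  classical
  set H : ZI → ℂ := fun m => if m ∈ SA q r2 M0 M1 then ph k 0 m else 0 with hH
  set g : ZI → ℂ := fun b => if w < nz b then (mu b : ℂ) else 0 with hg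
  have hsub : SA q r2 M0 M1 ⊆ bl M1 := by
    intro m hm
    rw [mem_SA] at hm
    rw [mem_bl]
    exact ⟨hm.1, hm.2.1⟩
  have e1 : Fm w q r2 M0 M1 k = ∑ m ∈ bl M1, (∑ b ∈ Dv m, g b) * H m := by
    unfold Fm
    rw [← sum_subset hsub (f := fun m => (∑ b ∈ Dv m, g b) * H m)]
    · refine sum_congr rfl fun m hm => ?_
      rw [hH]
      simp only
      rw [if_pos hm]
      congr 1
      unfold Gw
      rw [hg]
      push_cast
      refine sum_congr rfl fun b _ => ?_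
      split_ifs <;> simp
    · intro m _ hm
      rw [hH]
      simp only
      rw [if_neg hm, mul_zero]
  have e2 := grp2 M1 g H (fun m hm => by
    rw [hH]
    simp only
    rw [if_neg fun h => hm (hsub h)])
  rw [e1, e2, sum_comm, mul_sum]
  refine (norm_sum_le _ _).trans (sum_le_sum fun d hd => ?_)
  have hd0 := ((mem_bl _ _).1 hd).1
  have hdp := nz_pos hd0
  by_cases hcop : IsCoprime d ((q : ℕ) : ZI)
  · obtain ⟨e, f, hef⟩ := hcop
    have hcr : IsCoprime (e * r2) ((q : ℕ) : ZI) := by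
      refine IsCoprime.mul_left ⟨d, f, by linear_combination hef⟩ hr
    have e3 : ∑ b ∈ bl M1, g b * H (b * d) =
        ph k 0 d * ∑ b ∈ SA q (e * r2) (max w (M0 / nz d)) (M1 / nz d), (mu b : ℂ) * ph k 0 b := by
      have hs : SA q (e * r2) (max w (M0 / nz d)) (M1 / nz d) ⊆ bl M1 := by
        intro b hb
        rw [mem_SA] at hb
        rw [mem_bl]
        exact ⟨hb.1, hb.2.1.trans (div_le_self h1 (nz_one_le hd0))⟩
      rw [mul_sum, ← sum_subset hs (f := fun b => g b * H (b * d))]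
      · refine sum_congr rfl fun b hb => ?_
        rw [mem_SA, max_lt_iff, div_lt_iff₀ hdp, le_div_iff₀ hdp] at hb
        obtain ⟨hb0, hb1, hb2, hb3, hb4⟩ := hb
        have h2 : b * d ∈ SA q r2 M0 M1 := by
          rw [mem_SA, nz_mul]
          refine ⟨mul_ne_zero hb0 hd0, hb1, ?_, hb4⟩
          have h3 : b * d - r2 = d * (b - e * r2) - r2 * f * ((q : ℕ) : ZI) := by
            linear_combination r2 * hef
          rw [h3]
          exact dvd_sub (Dvd.dvd.mul_left hb2 _) (dvd_mul_left _ _)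
        rw [hg, hH]
        simp only
        rw [if_pos hb3, if_pos h2, ph_mul k hb0 hd0]
        ring
      · intro b hb hb'
        rw [hg, hH]
        simp only
        by_cases h2 : w < nz b
        · by_cases h3 : b * d ∈ SA q r2 M0 M1
          · exfalso
            apply hb'
            rw [mem_SA, nz_mul] at h3
            rw [mem_SA, max_lt_iff, div_lt_iff₀ hdp, le_div_iff₀ hdp]
            refine ⟨((mem_bl _ _).1 hb).1, h3.2.1, ?_, h2, h3.2.2.2⟩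
            have h4 : b - e * r2 = e * (b * d - r2) + f * b * ((q : ℕ) : ZI) := by
              linear_combination (-b) * hef
            rw [h4]
            exact dvd_add (Dvd.dvd.mul_left h3.2.2.1 _) (dvd_mul_left _ _)
          · rw [if_neg h3, mul_zero]
        · rw [if_neg h2, zero_mul]
    rw [e3, norm_mul, norm_ph, one_mul]
    have h3 := diff_le (hP (e * r2) hcr) hc (Z1 := max w (M0 / nz d)) (Z2 := M1 / nz d) (le_max_left _ _)
      (by positivity)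
    refine h3.trans (le_of_eq ?_)
    ring
  · have e3 : ∑ b ∈ bl M1, g b * H (b * d) = 0 := by
      refine sum_eq_zero fun b _ => ?_
      rw [hH]
      simp only
      rw [if_neg, mul_zero]
      intro h3
      rw [mem_SA] at h3
      exact hcop (coprime_of hr b h3.2.2.1)
    rw [e3, norm_zero]
    positivity

theorem dv_le_sq (m : ZI) (hm : m ≠ 0) : (dv m : ℝ) ≤ (dv m : ℝ) ^ 2 := by
  have h1 : (1 : ℝ) ≤ dv m := by exact_mod_cast dv_one_le hm
  nlinarith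

theorem cf_all (f g : ZI → ℝ) (S1 S2 : Finset ZI) (hf : ∀ a, |f a| ≤ 1) (hg : ∀ m, |g m| ≤ dv m)
    (h1 : ∀ a ∈ S1, a ≠ 0) (h2 : ∀ a ∈ S2, a ≠ 0) (t : ZI) : |cf f g S1 S2 t| ≤ (dv t : ℝ) ^ 2 := by
  by_cases ht : t = 0
  · unfold cf
    rw [filter_eq_empty_iff.2, sum_empty, abs_zero]
    · positivity
    · intro p hp h
      rw [ht] at h
      rw [mem_product] at hp
      exact mul_ne_zero (h1 _ hp.1) (h2 _ hp.2) h
  · exact cf_le f g S1 S2 hf (fun m _ => hg m) ht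

/-- **a cell** -/
theorem cell (h1 : S_PC) (h3 : S_LSB) (h4 : S_FT) {ε : ℝ} (hε : 0 < ε) (hε2 : ε ≤ 1 / 2) (A B : ℕ) :
    ∃ C : ℝ, 0 < C ∧ ∀ᶠ V : ℝ in atTop, ∀ (δ Y1 Y2 A0 A1 : ℝ) (q : ℕ) (r1 r2 : ZI),
      V ^ (-(1 / 2) + ε : ℝ) ≤ δ → δ ≤ 1 → 0 ≤ Y1 → Y1 ≤ Y2 → Y2 ≤ V → 1 ≤ q → (q : ℝ) ≤ (Real.log V) ^ B →
      IsCoprime r1 ((q : ℕ) : ZI) → IsCoprime r2 ((q : ℕ) : ZI) → V ^ (ε / 8) ≤ A0 → A0 ≤ A1 → A1 ≤ 2 * A0 →
      A1 ≤ V →
      ∫ x in (0 : ℝ)..(2 * Real.pi), (∑ a ∈ SA q r1 A0 A1, ∑ m ∈ SA q r2 (Y1 / A0) (Y2 / A0),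
        mu a * Gw (V ^ (ε / 8)) m * sc δ x (a * m)) ^ 2 ≤ C * δ ^ 2 * V ^ 2 / (Real.log V) ^ A := by
  classical
  obtain ⟨C2, D2, hC2, h3⟩ := h3
  obtain ⟨C1, D1, hC1, h4⟩ := h4
  obtain ⟨Cp, hCp, hpc⟩ := pcw h1 hε (A + D2 + 4) B
  refine ⟨C1 * (73728 * Cp ^ 2 * C2 + 6 * 2 ^ D1), by positivity, ?_⟩
  have f1 := logpow (A + D1) hε (show (0 : ℝ) < 1 / 2 by norm_num)
  have f2 : ∀ᶠ V : ℝ in atTop, 2 ≤ V ^ (ε / 8) := (tendsto_rpow_atTop (by positivity)).eventually_ge_atTop _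
  filter_upwards [hpc, f1, f2, eventually_ge_atTop 4] with V hpc f1 f2 hV4
  intro δ Y1 Y2 A0 A1 q r1 r2 hδ hδ1 hY hY2 hYV hq hqB hr1 hr2 hA0 hA01 hA12 hA1V
  set L := Real.log V with hL
  have hL1 : 1 ≤ L := one_le_log (by linarith)
  have hV0 : 0 < V := by linarith
  set w := V ^ (ε / 8) with hw
  have hA00 : 0 < A0 := by linarith
  set sV := V ^ (1 / 2 : ℝ) with hsV
  have hsV2 : sV * sV = V := by
    rw [hsV, ← Real.rpow_add hV0]
    norm_num
  have hsV0 : 0 < sV := Real.rpow_pos_of_pos hV0 _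
  have hsV1 : 2 ≤ sV := by nlinarith
  have hsVV : sV ≤ V := by nlinarith
  have hδ0 : 0 < δ := lt_of_lt_of_le (Real.rpow_pos_of_pos hV0 _) hδ
  have hδi : δ⁻¹ * V ^ ε ≤ sV := by
    rw [inv_mul_le_iff₀ hδ0]
    have c1 : V ^ (-(1 / 2) + ε : ℝ) * sV = V ^ ε := by
      rw [hsV, ← Real.rpow_add hV0]
      congr 1
      ring
    rw [← c1]
    exact mul_le_mul_of_nonneg_right hδ hsV0.le
  have hδV : 1 ≤ δ * V := by
    have c1 : 1 ≤ V ^ ε := Real.one_le_rpow (by linarith) hε.le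
    have c2 : δ⁻¹ ≤ sV := by
      calc δ⁻¹ = δ⁻¹ * 1 := (mul_one _).symm
        _ ≤ δ⁻¹ * V ^ ε := mul_le_mul_of_nonneg_left c1 (by positivity)
        _ ≤ sV := hδi
    rw [inv_le_iff_one_le_mul₀ hδ0] at c2
    calc (1 : ℝ) ≤ sV * δ := c2
      _ ≤ V * δ := mul_le_mul_of_nonneg_right hsVV hδ0.le
      _ = δ * V := mul_comm _ _
  -- the number of frequencies
  set K := ⌈δ⁻¹ * L ^ (A + D1)⌉₊ with hK
  have hK1 : δ⁻¹ * L ^ (A + D1) ≤ K := Nat.le_ceil _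
  have hδ1' : 1 ≤ δ⁻¹ := (one_le_inv₀ hδ0).2 hδ1
  have hLp : 1 ≤ L ^ (A + D1) := one_le_pow₀ hL1
  have hK0 : 1 ≤ δ⁻¹ * L ^ (A + D1) := one_le_mul_of_one_le_of_one_le hδ1' hLp
  have hK2 : (K : ℝ) ≤ sV := by
    have c1 := Nat.ceil_lt_add_one (zero_le_one.trans hK0)
    rw [← hK] at c1
    have c2 : δ⁻¹ * L ^ (A + D1) ≤ 1 / 2 * sV := by
      calc δ⁻¹ * L ^ (A + D1) ≤ δ⁻¹ * (1 / 2 * V ^ ε) := mul_le_mul_of_nonneg_left f1 (by positivity)
        _ = 1 / 2 * (δ⁻¹ * V ^ ε) := by ring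
        _ ≤ 1 / 2 * sV := mul_le_mul_of_nonneg_left hδi (by norm_num)
    linarith
  have hKpos : (0 : ℝ) < K := by linarith
  have hK3 : 1 ≤ K := by
    have : (1 : ℝ) ≤ K := by linarith
    exact_mod_cast this
  -- the sets
  set S1 := SA q r1 A0 A1 with hS1
  set S2 := SA q r2 (Y1 / A0) (Y2 / A0) with hS2
  set M := V / A0 with hM
  have hM0 : 0 < M := by positivity
  have hAM : A0 * M = V := by rw [hM]; field_simp
  have hS1n : ∀ a ∈ S1, a ≠ 0 := fun a ha => (mem_SA.1 ha).1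
  have hS2n : ∀ a ∈ S2, a ≠ 0 := fun a ha => (mem_SA.1 ha).1
  have hS2M : S2 ⊆ bl M := by
    intro m hm
    rw [hS2, mem_SA] at hm
    rw [mem_bl]
    exact ⟨hm.1, hm.2.1.trans (div_le_div_of_nonneg_right hYV hA00.le)⟩
  have hprod : ∀ a ∈ S1, ∀ m ∈ S2, a * m ∈ bl (2 * V) := by
    intro a ha m hm
    rw [mem_bl, nz_mul]
    refine ⟨mul_ne_zero (hS1n a ha) (hS2n m hm), ?_⟩
    have c1 := (mem_SA.1 ha).2.1
    have c2 := ((mem_bl _ _).1 (hS2M hm)).2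
    calc nz a * nz m ≤ (2 * A0) * M := mul_le_mul (c1.trans hA12) c2 (nz_nonneg _) (by positivity)
      _ = 2 * V := by rw [mul_assoc, hAM]
  -- the bound of the integral by the frequencies
  have hX : ∫ x in (0 : ℝ)..(2 * Real.pi), (∑ a ∈ S1, ∑ m ∈ S2, mu a * Gw w m * sc δ x (a * m)) ^ 2 ≤
      C1 * (δ ^ 2 * ∑ k ∈ Icc (-(K : ℤ)) K, (‖Fa q r1 A0 A1 k‖ ^ 2 * ‖Fm w q r2 (Y1 / A0) (Y2 / A0) k‖ ^ 2) +
        2 * V * (Real.log (2 * V)) ^ D1 * (1 / K + 2 * V / K ^ 2)) := by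
    have c1 := h4 (2 * V) δ K (cf mu (Gw w) S1 S2) (by linarith) hδ0 hδ1 hK3
      (cf_all _ _ _ _ abs_mu_le (fun m => Gw_le w m) hS1n hS2n)
    have c2 : ∀ x, ∑ a ∈ S1, ∑ m ∈ S2, mu a * Gw w m * sc δ x (a * m) =
        ∑ t ∈ bl (2 * V), cf mu (Gw w) S1 S2 t * sc δ x t :=
      fun x => grp mu (Gw w) (fun t => sc δ x t) S1 S2 _ hprod
    simp only [c2]
    refine c1.trans (le_of_eq ?_)
    congr 3
    refine sum_congr rfl fun k _ => ?_
    rw [← mul_pow, ← norm_mul, ← grpC mu (Gw w) (fun t => ph k 0 t) S1 S2 _ hprod]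
    congr 2
    unfold Fa Fm
    rw [sum_mul_sum]
    refine sum_congr rfl fun a ha => sum_congr rfl fun m hm => ?_
    rw [ph_mul k (hS1n a ha) (hS2n m hm)]
    ring
  -- the error of the frequencies
  have hE : 2 * V * (Real.log (2 * V)) ^ D1 * (1 / K + 2 * V / K ^ 2) ≤
      6 * 2 ^ D1 * (δ ^ 2 * V ^ 2 / L ^ A) := by
    have c0 : Real.log (2 * V) ≤ 2 * L := by
      rw [Real.log_mul (by norm_num) hV0.ne']
      have := Real.log_two_lt_d9
      linarith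
    have c0' : 0 ≤ Real.log (2 * V) := Real.log_nonneg (by linarith)
    have c1 : (Real.log (2 * V)) ^ D1 ≤ 2 ^ D1 * L ^ D1 := by
      rw [← mul_pow]
      exact pow_le_pow_left₀ c0' c0 _
    have c2 : 1 / (K : ℝ) ≤ δ / L ^ (A + D1) := by
      rw [div_le_div_iff₀ hKpos (by positivity), one_mul]
      calc L ^ (A + D1) = δ * (δ⁻¹ * L ^ (A + D1)) := by field_simp
        _ ≤ δ * K := mul_le_mul_of_nonneg_left hK1 hδ0.le
    have c3 : 1 / (K : ℝ) ^ 2 ≤ δ ^ 2 / L ^ (A + D1) := by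
      have d1 : 1 / (K : ℝ) ^ 2 = (1 / K) ^ 2 := by rw [div_pow, one_pow]
      rw [d1]
      calc (1 / (K : ℝ)) ^ 2 ≤ (δ / L ^ (A + D1)) ^ 2 := pow_le_pow_left₀ (by positivity) c2 2
        _ = δ ^ 2 / L ^ (A + D1) * (1 / L ^ (A + D1)) := by field_simp
        _ ≤ δ ^ 2 / L ^ (A + D1) * 1 := by
            apply mul_le_mul_of_nonneg_left _ (by positivity)
            rw [div_le_one (by positivity)]
            exact hLp
        _ = _ := mul_one _
    have c4 : 1 / (K : ℝ) + 2 * V / K ^ 2 ≤ 3 * (δ ^ 2 * V) / L ^ (A + D1) := by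
      have d1 : 2 * V / (K : ℝ) ^ 2 = 2 * V * (1 / K ^ 2) := by ring
      have d2 : 2 * V * (1 / (K : ℝ) ^ 2) ≤ 2 * V * (δ ^ 2 / L ^ (A + D1)) :=
        mul_le_mul_of_nonneg_left c3 (by positivity)
      have d3 : δ / L ^ (A + D1) ≤ δ ^ 2 * V / L ^ (A + D1) := by
        apply div_le_div_of_nonneg_right _ (by positivity)
        nlinarith
      calc 1 / (K : ℝ) + 2 * V / K ^ 2 ≤ δ ^ 2 * V / L ^ (A + D1) + 2 * V * (δ ^ 2 / L ^ (A + D1)) := by
            rw [d1]; linarith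
        _ = 3 * (δ ^ 2 * V) / L ^ (A + D1) := by ring
    calc 2 * V * (Real.log (2 * V)) ^ D1 * (1 / K + 2 * V / K ^ 2)
        ≤ 2 * V * (2 ^ D1 * L ^ D1) * (3 * (δ ^ 2 * V) / L ^ (A + D1)) := by
          apply mul_le_mul _ c4 (by positivity) (by positivity)
          exact mul_le_mul_of_nonneg_left c1 (by positivity)
      _ = 6 * 2 ^ D1 * (δ ^ 2 * V ^ 2 / L ^ A) := by
          rw [pow_add]
          field_simp
          ring
  -- the hypothesis on the classes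
  have hPk : ∀ k ∈ Icc (-(K : ℤ)) K, ∀ r : ZI, IsCoprime r ((q : ℕ) : ZI) → ∀ Z : ℝ, w ≤ Z →
      ‖∑ t ∈ cls q r Z, (mu t : ℂ) * ph k 0 t‖ ≤ (Cp / L ^ (A + D2 + 4)) * Z := by
    intro k hk r hr Z hZ
    have c1 : |(k : ℝ)| ≤ V := by
      rw [mem_Icc] at hk
      have d1 : |k| ≤ (K : ℤ) := abs_le.2 hk
      have d2 : |(k : ℝ)| ≤ (K : ℝ) := by exact_mod_cast d1
      linarith
    refine (hpc Z q r k hZ hq hqB hr c1).trans (le_of_eq ?_)
    ring
  set cp := Cp / L ^ (A + D2 + 4) with hcp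
  have hcp0 : 0 ≤ cp := by positivity
  have hFa : ∀ k ∈ Icc (-(K : ℤ)) K, ‖Fa q r1 A0 A1 k‖ ≤ 4 * cp * A0 := by
    intro k hk
    have c1 := diff_le (hPk k hk r1 hr1) hcp0 (Z1 := A0) (Z2 := A1) hA0 (by linarith)
    unfold Fa
    refine c1.trans ?_
    nlinarith
  have hMV : M ≤ V := by
    rw [hM]
    exact div_le_self hV0.le (by linarith)
  have hFm : ∀ k ∈ Icc (-(K : ℤ)) K, ‖Fm w q r2 (Y1 / A0) (Y2 / A0) k‖ ≤ 96 * cp * M * L ^ 2 := by
    intro k hk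
    have hY2M : Y2 / A0 ≤ M := div_le_div_of_nonneg_right hYV hA00.le
    have hY20 : 0 ≤ Y2 / A0 := div_nonneg (hY.trans hY2) hA00.le
    have c1 := Fm_le hr2 (M0 := Y1 / A0) (M1 := Y2 / A0) (hPk k hk) hcp0 hY20
    have c2 : ∑ d ∈ bl (Y2 / A0), 1 / nz d ≤ 48 * L ^ 2 := by
      refine le_trans (sum_le_sum_of_subset_of_nonneg ?_ fun d hd _ => ?_) (sum_inv_nz (V := V) (by linarith))
      · intro d hd
        rw [mem_bl] at hd ⊢
        exact ⟨hd.1, hd.2.trans (hY2M.trans hMV)⟩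
      · exact div_nonneg zero_le_one (nz_nonneg d)
    have c3 : 0 ≤ ∑ d ∈ bl (Y2 / A0), 1 / nz d := sum_nonneg fun d _ => div_nonneg zero_le_one (nz_nonneg d)
    calc ‖Fm w q r2 (Y1 / A0) (Y2 / A0) k‖ ≤ 2 * cp * (Y2 / A0) * ∑ d ∈ bl (Y2 / A0), 1 / nz d := c1
      _ ≤ 2 * cp * M * (48 * L ^ 2) := by
          apply mul_le_mul _ c2 c3 (by positivity)
          exact mul_le_mul_of_nonneg_left hY2M (by positivity)
      _ = _ := by ring
  -- the mean value theorem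
  have hXX : ∑ k ∈ Icc (-(K : ℤ)) K, (‖Fa q r1 A0 A1 k‖ ^ 2 * ‖Fm w q r2 (Y1 / A0) (Y2 / A0) k‖ ^ 2) ≤
      73728 * Cp ^ 2 * C2 * (V ^ 2 / L ^ A) := by
    have hfin : cp ^ 2 * L ^ (D2 + 4) ≤ Cp ^ 2 * (1 / L ^ A) := by
      rw [hcp, div_pow, div_mul_eq_mul_div, mul_div_assoc]
      apply mul_le_mul_of_nonneg_left _ (by positivity)
      rw [div_le_div_iff₀ (by positivity) (by positivity), one_mul, ← pow_add, ← pow_mul]
      exact pow_le_pow_right₀ hL1 (by omega)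
    rcases le_or_gt A0 sV with hcase | hcase
    · -- small `a`
      have hsM : sV ≤ M := by
        rw [hM, le_div_iff₀ hA00]
        nlinarith
      have hM2 : 2 ≤ M := hsV1.trans hsM
      have c1 := h3 M K (fun m => if m ∈ S2 then (Gw w m : ℂ) else 0) hM2 hK3 (fun m => by
        split_ifs with h
        · rw [Complex.norm_real, Real.norm_eq_abs]
          exact (Gw_le w m).trans (dv_le_sq m (hS2n m h))
        · rw [norm_zero]; positivity)
      have c2 : ∀ k : ℤ, ∑ m ∈ bl M, (if m ∈ S2 then (Gw w m : ℂ) else 0) * ph k 0 m =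
          Fm w q r2 (Y1 / A0) (Y2 / A0) k := by
        intro k
        unfold Fm
        rw [← hS2, ← sum_subset hS2M (f := fun m => (if m ∈ S2 then (Gw w m : ℂ) else 0) * ph k 0 m)]
        · exact sum_congr rfl fun m hm => by rw [if_pos hm]
        · intro m _ hm
          rw [if_neg hm, zero_mul]
      simp only [c2] at c1
      have hlM : (Real.log M) ^ D2 ≤ L ^ D2 :=
        pow_le_pow_left₀ (Real.log_nonneg (by linarith)) (Real.log_le_log hM0 hMV) _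
      calc ∑ k ∈ Icc (-(K : ℤ)) K, (‖Fa q r1 A0 A1 k‖ ^ 2 * ‖Fm w q r2 (Y1 / A0) (Y2 / A0) k‖ ^ 2)
          ≤ ∑ k ∈ Icc (-(K : ℤ)) K, ((4 * cp * A0) ^ 2 * ‖Fm w q r2 (Y1 / A0) (Y2 / A0) k‖ ^ 2) := by
            refine sum_le_sum fun k hk => mul_le_mul_of_nonneg_right ?_ (by positivity)
            exact pow_le_pow_left₀ (norm_nonneg _) (hFa k hk) 2
        _ = (4 * cp * A0) ^ 2 * ∑ k ∈ Icc (-(K : ℤ)) K, ‖Fm w q r2 (Y1 / A0) (Y2 / A0) k‖ ^ 2 := by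
            rw [mul_sum]
        _ ≤ (4 * cp * A0) ^ 2 * (C2 * (K + M) * M * (Real.log M) ^ D2) :=
            mul_le_mul_of_nonneg_left c1 (by positivity)
        _ ≤ (4 * cp * A0) ^ 2 * (C2 * (2 * M) * M * L ^ D2) := by
            apply mul_le_mul_of_nonneg_left _ (by positivity)
            apply mul_le_mul _ hlM (pow_nonneg (Real.log_nonneg (by linarith)) _) (by positivity)
            apply mul_le_mul_of_nonneg_right _ hM0.le
            apply mul_le_mul_of_nonneg_left _ hC2.le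
            linarith
        _ = 32 * C2 * (A0 * M) ^ 2 * (cp ^ 2 * L ^ D2) := by ring
        _ ≤ 32 * C2 * (A0 * M) ^ 2 * (cp ^ 2 * L ^ (D2 + 4)) := by
            apply mul_le_mul_of_nonneg_left _ (by positivity)
            apply mul_le_mul_of_nonneg_left _ (by positivity)
            exact pow_le_pow_right₀ hL1 (by omega)
        _ ≤ 32 * C2 * (A0 * M) ^ 2 * (Cp ^ 2 * (1 / L ^ A)) :=
            mul_le_mul_of_nonneg_left hfin (by positivity)
        _ = 32 * Cp ^ 2 * C2 * (V ^ 2 / L ^ A) := by rw [hAM]; ring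
        _ ≤ 73728 * Cp ^ 2 * C2 * (V ^ 2 / L ^ A) := by
            apply mul_le_mul_of_nonneg_right _ (by positivity)
            apply mul_le_mul_of_nonneg_right _ hC2.le
            apply mul_le_mul_of_nonneg_right _ (by positivity)
            norm_num
    · -- large `a`
      have hA12' : 2 ≤ A1 := by linarith
      have hA10 : 0 < A1 := by linarith
      have hS1A : S1 ⊆ bl A1 := by
        intro a ha
        rw [hS1, mem_SA] at ha
        rw [mem_bl]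
        exact ⟨ha.1, ha.2.1⟩
      have c1 := h3 A1 K (fun a => if a ∈ S1 then (mu a : ℂ) else 0) hA12' hK3 (fun a => by
        split_ifs with h
        · rw [Complex.norm_real, Real.norm_eq_abs]
          refine (abs_mu_le a).trans ?_
          have d1 : (1 : ℝ) ≤ dv a := by exact_mod_cast dv_one_le (hS1n a h)
          nlinarith
        · rw [norm_zero]; positivity)
      have c2 : ∀ k : ℤ, ∑ a ∈ bl A1, (if a ∈ S1 then (mu a : ℂ) else 0) * ph k 0 a = Fa q r1 A0 A1 k := by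
        intro k
        unfold Fa
        rw [← hS1, ← sum_subset hS1A (f := fun a => (if a ∈ S1 then (mu a : ℂ) else 0) * ph k 0 a)]
        · exact sum_congr rfl fun m hm => by rw [if_pos hm]
        · intro m _ hm
          rw [if_neg hm, zero_mul]
      simp only [c2] at c1
      have hlM : (Real.log A1) ^ D2 ≤ L ^ D2 :=
        pow_le_pow_left₀ (Real.log_nonneg (by linarith)) (Real.log_le_log hA10 hA1V) _
      calc ∑ k ∈ Icc (-(K : ℤ)) K, (‖Fa q r1 A0 A1 k‖ ^ 2 * ‖Fm w q r2 (Y1 / A0) (Y2 / A0) k‖ ^ 2)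
          ≤ ∑ k ∈ Icc (-(K : ℤ)) K, (‖Fa q r1 A0 A1 k‖ ^ 2 * (96 * cp * M * L ^ 2) ^ 2) := by
            refine sum_le_sum fun k hk => mul_le_mul_of_nonneg_left ?_ (by positivity)
            exact pow_le_pow_left₀ (norm_nonneg _) (hFm k hk) 2
        _ = (∑ k ∈ Icc (-(K : ℤ)) K, ‖Fa q r1 A0 A1 k‖ ^ 2) * (96 * cp * M * L ^ 2) ^ 2 := by
            rw [sum_mul]
        _ ≤ (C2 * (K + A1) * A1 * (Real.log A1) ^ D2) * (96 * cp * M * L ^ 2) ^ 2 :=
            mul_le_mul_of_nonneg_right c1 (by positivity)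
        _ ≤ (C2 * (4 * A0) * (2 * A0) * L ^ D2) * (96 * cp * M * L ^ 2) ^ 2 := by
            apply mul_le_mul_of_nonneg_right _ (by positivity)
            apply mul_le_mul _ hlM (pow_nonneg (Real.log_nonneg (by linarith)) _) (by positivity)
            apply mul_le_mul _ hA12 hA10.le (by positivity)
            apply mul_le_mul_of_nonneg_left _ hC2.le
            linarith
        _ = 73728 * C2 * (A0 * M) ^ 2 * (cp ^ 2 * L ^ (D2 + 4)) := by ring
        _ ≤ 73728 * C2 * (A0 * M) ^ 2 * (Cp ^ 2 * (1 / L ^ A)) :=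
            mul_le_mul_of_nonneg_left hfin (by positivity)
        _ = 73728 * Cp ^ 2 * C2 * (V ^ 2 / L ^ A) := by rw [hAM]; ring
  refine hX.trans ?_
  calc C1 * (δ ^ 2 * ∑ k ∈ Icc (-(K : ℤ)) K, (‖Fa q r1 A0 A1 k‖ ^ 2 * ‖Fm w q r2 (Y1 / A0) (Y2 / A0) k‖ ^ 2) +
        2 * V * (Real.log (2 * V)) ^ D1 * (1 / K + 2 * V / K ^ 2))
      ≤ C1 * (δ ^ 2 * (73728 * Cp ^ 2 * C2 * (V ^ 2 / L ^ A)) + 6 * 2 ^ D1 * (δ ^ 2 * V ^ 2 / L ^ A)) := by
        apply mul_le_mul_of_nonneg_left _ hC1.le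
        exact add_le_add (mul_le_mul_of_nonneg_left hXX (by positivity)) hE
    _ = C1 * (73728 * Cp ^ 2 * C2 + 6 * 2 ^ D1) * δ ^ 2 * V ^ 2 / L ^ A := by ring

end Pool.Agent.N855.GN
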