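import Pool.Agent.N855.GN.Cell

/-!
# Project GN: decomposition of the sum of type II into cells
-/

set_option autoImplicit false

namespace Pool.Agent.N855.GN

open Finset MeasureTheory Filter Topology
open Pool.Agent.N782.GN

/-- the ends of the cells -/
noncomputable def As (w V η : ℝ) (i : ℕ) : ℝ := min V (w * (1 + η) ^ i)

theorem As_zero {w V η : ℝ} (h : w ≤ V) : As w V η 0 = w := by
  unfold As
  rw [pow_zero, mul_one, min_eq_right h]

theorem As_mono {w V η : ℝ} (hw : 0 ≤ w) (hη : 0 ≤ η) : Monotone (As w V η) := by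
  refine monotone_nat_of_le_succ fun i => ?_
  unfold As
  refine min_le_min le_rfl (mul_le_mul_of_nonneg_left ?_ hw)
  exact pow_le_pow_right₀ (by linarith) (Nat.le_succ i)

theorem As_succ {w V η : ℝ} (hV : 0 ≤ V) (hη : 0 ≤ η) (i : ℕ) :
    As w V η (i + 1) ≤ (1 + η) * As w V η i := by
  unfold As
  rw [mul_min_of_nonneg _ _ (by linarith)]
  refine min_le_min (by nlinarith) (le_of_eq ?_)
  rw [pow_succ]
  ring

theorem As_ge {w V η : ℝ} (hwV : w ≤ V) (hw : 0 ≤ w) (hη : 0 ≤ η) (i : ℕ) : w ≤ As w V η i := by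
  have := As_mono (V := V) hw hη (Nat.zero_le i)
  rwa [As_zero hwV] at this

theorem As_le (w V η : ℝ) (i : ℕ) : As w V η i ≤ V := min_le_left _ _

theorem As_last {w V η : ℝ} {I : ℕ} (h : V ≤ w * (1 + η) ^ I) : As w V η I = V := min_eq_left h

theorem cellidx {w V η : ℝ} (hw : 0 ≤ w) (hwV : w ≤ V) (hη : 0 ≤ η) {I : ℕ} (hI : V ≤ w * (1 + η) ^ I) {n : ℝ}
    (h1 : w < n) (h2 : n ≤ V) :
    ∃ i ∈ range I, ∀ j ∈ range I, (As w V η j < n ∧ n ≤ As w V η (j + 1)) ↔ j = i := by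
  have hmono := As_mono (V := V) hw hη
  have hex : ∃ i, n ≤ As w V η (i + 1) := ⟨I, by
    have h3 := hmono (Nat.le_succ I)
    rw [As_last hI] at h3
    exact h2.trans h3⟩
  classical
  set i := Nat.find hex with hi
  have hi1 : n ≤ As w V η (i + 1) := Nat.find_spec hex
  have hi2 : As w V η i < n := by
    rcases Nat.eq_zero_or_pos i with h | h
    · rw [h, As_zero hwV]
      exact h1
    · have h3 := Nat.find_min hex (m := i - 1) (by omega)
      rw [not_le, Nat.sub_add_cancel h] at h3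
      exact h3
  refine ⟨i, ?_, ?_⟩
  · rw [mem_range]
    by_contra h
    push Not at h
    have h3 := hmono h
    rw [As_last hI] at h3
    linarith
  · intro j _
    constructor
    · rintro ⟨h3, h4⟩
      by_contra hne
      rcases lt_or_gt_of_ne hne with h5 | h5
      · have := hmono (show j + 1 ≤ i by omega)
        linarith
      · have := hmono (show i + 1 ≤ j by omega)
        linarith
    · rintro rfl
      exact ⟨hi2, hi1⟩

/-- representatives modulo `q` -/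
noncomputable def Rq (q : ℕ) : Finset ZI := by
  classical
  exact (range q ×ˢ range q).image (fun p : ℕ × ℕ => (⟨p.1, p.2⟩ : ZI))

theorem card_Rq (q : ℕ) : (Rq q).card ≤ q ^ 2 := by
  classical
  unfold Rq
  refine card_image_le.trans ?_
  rw [card_product, card_range, sq]

theorem Rq_unique {q : ℕ} (hq : 1 ≤ q) (a : ZI) :
    ∃ r ∈ Rq q, ∀ s ∈ Rq q, ((q : ℕ) : ZI) ∣ a - s ↔ s = r := by
  classical
  have hq0 : (0 : ℤ) < q := by exact_mod_cast hq
  have hm : ∀ s ∈ Rq q, (0 ≤ s.re ∧ s.re < q) ∧ (0 ≤ s.im ∧ s.im < q) := by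
    intro s hs
    unfold Rq at hs
    rw [mem_image] at hs
    obtain ⟨p, hp, rfl⟩ := hs
    rw [mem_product, mem_range, mem_range] at hp
    simp only
    omega
  refine ⟨⟨a.re % q, a.im % q⟩, ?_, ?_⟩
  · unfold Rq
    rw [mem_image]
    have h1 := Int.emod_nonneg a.re hq0.ne'
    have h2 := Int.emod_lt_of_pos a.re hq0
    have h3 := Int.emod_nonneg a.im hq0.ne'
    have h4 := Int.emod_lt_of_pos a.im hq0
    refine ⟨((a.re % q).toNat, (a.im % q).toNat), ?_, ?_⟩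
    · rw [mem_product, mem_range, mem_range]
      simp only
      omega
    · apply Zsqrtd.ext
      · simp only
        omega
      · simp only
        omega
  · intro s hs
    obtain ⟨⟨h1, h2⟩, h3, h4⟩ := hm s hs
    rw [dvd_ZI, Zsqrtd.re_sub, Zsqrtd.im_sub]
    constructor
    · rintro ⟨h5, h6⟩
      apply Zsqrtd.ext
      · simp only
        rw [← Int.emod_eq_of_lt h1 h2]
        exact (Int.emod_emod_of_dvd s.re (dvd_refl _)).symm.trans
          (by rw [Int.emod_emod_of_dvd _ (dvd_refl _)]; exact (Int.emod_emod_of_dvd _ (dvd_refl _)).symm.trans (by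
            rw [Int.emod_emod_of_dvd _ (dvd_refl _)]
            exact (Int.ModEq.symm ((Int.modEq_iff_dvd).2 (by
              have := dvd_neg.2 h5
              rwa [neg_sub] at this)))))
      · simp only
        rw [← Int.emod_eq_of_lt h3 h4]
        exact (Int.ModEq.symm ((Int.modEq_iff_dvd).2 (by
              have := dvd_neg.2 h6
              rwa [neg_sub] at this)))
    · rintro rfl
      simp only
      exact ⟨Int.dvd_self_sub_emod, Int.dvd_self_sub_emod⟩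

/-- the sum of a cell -/
noncomputable def Bc (q : ℕ) (w V η Y1 Y2 δ : ℝ) (p : ℕ × ZI × ZI) (x : ℝ) : ℝ :=
  ∑ a ∈ SA q p.2.1 (As w V η p.1) (As w V η (p.1 + 1)),
    ∑ m ∈ SA q p.2.2 (Y1 / As w V η p.1) (Y2 / As w V η p.1), mu a * Gw w m * sc δ x (a * m)

open Classical in
/-- the index set of the cells -/
noncomputable def Jx (q : ℕ) (r : ZI) (I : ℕ) : Finset (ℕ × ZI × ZI) :=
  (range I ×ˢ (Rq q ×ˢ Rq q)).filter (fun p => ((q : ℕ) : ZI) ∣ p.2.1 * p.2.2 - r)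

theorem card_Jx (q : ℕ) (r : ZI) (I : ℕ) : (Jx q r I).card ≤ I * q ^ 4 := by
  classical
  unfold Jx
  refine (card_filter_le _ _).trans ?_
  rw [card_product, card_product, card_range]
  have := card_Rq q
  calc I * ((Rq q).card * (Rq q).card) ≤ I * (q ^ 2 * q ^ 2) := by gcongr
    _ = I * q ^ 4 := by ring

open Classical in
/-- the weight of a pair -/
noncomputable def Wt (q : ℕ) (r : ZI) (I : ℕ) (w V η Y1 Y2 : ℝ) (a m : ZI) : ℝ :=
  ∑ p ∈ Jx q r I, if a ∈ SA q p.2.1 (As w V η p.1) (As w V η (p.1 + 1)) ∧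
    m ∈ SA q p.2.2 (Y1 / As w V η p.1) (Y2 / As w V η p.1) then 1 else 0

theorem dec_sum {q : ℕ} {r : ZI} {I : ℕ} {w V η Y1 Y2 δ x : ℝ} (hw : 1 ≤ w) (hwV : w ≤ V) (hη : 0 ≤ η)
    (hY2 : 0 ≤ Y2) (hYV : Y2 ≤ V) :
    ∑ p ∈ Jx q r I, Bc q w V η Y1 Y2 δ p x =
      ∑ a ∈ bg w V, ∑ m ∈ bl V, mu a * Gw w m * (sc δ x (a * m) * Wt q r I w V η Y1 Y2 a m) := by
  classical
  have h1 : ∀ p ∈ Jx q r I, Bc q w V η Y1 Y2 δ p x = ∑ a ∈ bg w V, ∑ m ∈ bl V,
      mu a * Gw w m * (sc δ x (a * m) * (if a ∈ SA q p.2.1 (As w V η p.1) (As w V η (p.1 + 1)) ∧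
        m ∈ SA q p.2.2 (Y1 / As w V η p.1) (Y2 / As w V η p.1) then 1 else 0)) := by
    intro p _
    have hA : w ≤ As w V η p.1 := As_ge hwV (by linarith) hη p.1
    have hs1 : SA q p.2.1 (As w V η p.1) (As w V η (p.1 + 1)) ⊆ bg w V := by
      intro a ha
      rw [mem_SA] at ha
      rw [mem_bg]
      exact ⟨ha.1, ha.2.1.trans (As_le _ _ _ _), lt_of_le_of_lt hA ha.2.2.2⟩
    have hs2 : SA q p.2.2 (Y1 / As w V η p.1) (Y2 / As w V η p.1) ⊆ bl V := by
      intro m hm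
      rw [mem_SA] at hm
      rw [mem_bl]
      exact ⟨hm.1, hm.2.1.trans ((div_le_self hY2 (hw.trans hA)).trans hYV)⟩
    unfold Bc
    rw [← sum_subset hs1 (f := fun a => ∑ m ∈ bl V, mu a * Gw w m * (sc δ x (a * m) *
      (if a ∈ SA q p.2.1 (As w V η p.1) (As w V η (p.1 + 1)) ∧
        m ∈ SA q p.2.2 (Y1 / As w V η p.1) (Y2 / As w V η p.1) then 1 else 0)))]
    · refine sum_congr rfl fun a ha => ?_
      rw [← sum_subset hs2 (f := fun m => mu a * Gw w m * (sc δ x (a * m) *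
        (if a ∈ SA q p.2.1 (As w V η p.1) (As w V η (p.1 + 1)) ∧
          m ∈ SA q p.2.2 (Y1 / As w V η p.1) (Y2 / As w V η p.1) then 1 else 0)))]
      · refine sum_congr rfl fun m hm => ?_
        rw [if_pos ⟨ha, hm⟩, mul_one]
      · intro m _ hm
        rw [if_neg fun h => hm h.2, mul_zero, mul_zero]
    · intro a _ ha
      refine sum_eq_zero fun m _ => ?_
      rw [if_neg fun h => ha h.1, mul_zero, mul_zero]
  rw [sum_congr rfl h1, sum_comm]
  refine sum_congr rfl fun a _ => ?_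
  rw [sum_comm]
  refine sum_congr rfl fun m _ => ?_
  unfold Wt
  rw [mul_sum, mul_sum]

open Classical in
theorem Wt_eq {q : ℕ} (hq : 1 ≤ q) {r : ZI} {I : ℕ} {w V η Y1 Y2 : ℝ} (hw : 1 ≤ w) (hwV : w ≤ V) (hη : 0 ≤ η)
    (hI : V ≤ w * (1 + η) ^ I) {a m : ZI} (ha : a ∈ bg w V) (hm : m ∈ bl V) :
    ∃ A0 : ℝ, A0 < nz a ∧ nz a ≤ (1 + η) * A0 ∧ w ≤ A0 ∧ Wt q r I w V η Y1 Y2 a m =
      if ((q : ℕ) : ZI) ∣ a * m - r ∧ Y1 / A0 < nz m ∧ nz m ≤ Y2 / A0 then 1 else 0 := by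
  rw [mem_bg] at ha
  rw [mem_bl] at hm
  obtain ⟨i, hiI, hi⟩ := cellidx (by linarith) hwV hη hI ha.2.2 ha.2.1
  obtain ⟨ra, hra, hra'⟩ := Rq_unique hq a
  obtain ⟨rm, hrm, hrm'⟩ := Rq_unique hq m
  have hi0 := (hi i hiI).2 rfl
  refine ⟨As w V η i, hi0.1, hi0.2.trans (As_succ (by linarith) hη i), As_ge hwV (by linarith) hη i, ?_⟩
  unfold Wt Jx
  rw [sum_filter, sum_eq_single (i, ra, rm)]
  · have hda := (hra' ra hra).2 rfl
    have hdm := (hrm' rm hrm).2 rfl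
    have hiff : ((q : ℕ) : ZI) ∣ ra * rm - r ↔ ((q : ℕ) : ZI) ∣ a * m - r := by
      have h1 : ((q : ℕ) : ZI) ∣ a * m - ra * rm := by
        have : a * m - ra * rm = a * (m - rm) + rm * (a - ra) := by ring
        rw [this]
        exact dvd_add (Dvd.dvd.mul_left hdm _) (Dvd.dvd.mul_left hda _)
      constructor
      · intro h
        have := dvd_add h1 h
        rwa [show a * m - ra * rm + (ra * rm - r) = a * m - r by ring] at this
      · intro h
        have := dvd_sub h h1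
        rwa [show a * m - r - (a * m - ra * rm) = ra * rm - r by ring] at this
    simp only
    by_cases h1 : ((q : ℕ) : ZI) ∣ a * m - r
    · rw [if_pos (hiff.2 h1)]
      by_cases h2 : Y1 / As w V η i < nz m ∧ nz m ≤ Y2 / As w V η i
      · rw [if_pos, if_pos ⟨h1, h2⟩]
        rw [mem_SA, mem_SA]
        exact ⟨⟨ha.1, hi0.2, hda, hi0.1⟩, hm.1, h2.2, hdm, h2.1⟩
      · rw [if_neg, if_neg fun h => h2 h.2]
        rw [mem_SA, mem_SA]
        rintro ⟨-, -, h3, -, h4⟩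
        exact h2 ⟨h4, h3⟩
    · rw [if_neg fun h => h1 (hiff.1 h), if_neg fun h => h1 h.1]
  · rintro ⟨j, s, t⟩ hp hne
    rw [mem_product, mem_product] at hp
    obtain ⟨hj, hs, ht⟩ := hp
    simp only at hj hs ht ⊢
    split_ifs with h1 h2
    · exfalso
      rw [mem_SA, mem_SA] at h2
      obtain ⟨⟨-, h3, h4, h5⟩, -, -, h6, -⟩ := h2
      apply hne
      rw [(hi j hj).1 ⟨h5, h3⟩, (hra' s hs).1 h4, (hrm' t ht).1 h6]
    · rfl
    · rfl
  · intro h
    exact absurd (mem_product.2 ⟨hiI, mem_product.2 ⟨hra, hrm⟩⟩) h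

open Classical in
/-- the weight of the thin shells -/
noncomputable def sh (η Y1 Y2 : ℝ) (n : ℝ) : ℝ :=
  (if Y1 < n ∧ n ≤ (1 + η) * Y1 then 1 else 0) + (if Y2 < n ∧ n ≤ (1 + η) * Y2 then 1 else 0)

theorem sh_nonneg (η Y1 Y2 n : ℝ) : 0 ≤ sh η Y1 Y2 n := by
  unfold sh
  split_ifs <;> norm_num

/-- the error of the separation of the variables -/
theorem FF_err {q : ℕ} (hq : 1 ≤ q) {r : ZI} {I : ℕ} {w V η Y1 Y2 δ x : ℝ} (hw : 1 ≤ w) (hwV : w ≤ V) (hη : 0 ≤ η)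
    (hI : V ≤ w * (1 + η) ^ I) {a m : ZI} (ha : a ∈ bg w V) (hm : m ∈ bl V) :
    |FF q r Y1 Y2 δ x (a * m) - sc δ x (a * m) * Wt q r I w V η Y1 Y2 a m| ≤
      sc δ x (a * m) * sh η Y1 Y2 (nz (a * m)) := by
  classical
  obtain ⟨A0, hA1, hA2, hA3, hW⟩ := Wt_eq hq (r := r) (Y1 := Y1) (Y2 := Y2) hw hwV hη hI ha hm
  have ha0 := (mem_bg.1 ha).1
  have hm0 := ((mem_bl _ _).1 hm).1
  have hA0 : 0 < A0 := by linarith
  have hmp := nz_pos hm0
  rw [hW]
  unfold FF sh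
  have hsc := sc_nonneg δ x (a * m)
  have ham : a * m ≠ 0 := mul_ne_zero ha0 hm0
  have e1 : Y1 / A0 < nz m ↔ Y1 < A0 * nz m := by rw [div_lt_iff₀ hA0, mul_comm]
  have e2 : nz m ≤ Y2 / A0 ↔ A0 * nz m ≤ Y2 := by rw [le_div_iff₀ hA0, mul_comm]
  simp only [e1, e2, nz_mul]
  have h1 : A0 * nz m < nz a * nz m := mul_lt_mul_of_pos_right hA1 hmp
  have h2 : nz a * nz m ≤ (1 + η) * (A0 * nz m) := by
    rw [← mul_assoc]
    exact mul_le_mul_of_nonneg_right hA2 hmp.le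
  set N := nz a * nz m with hN
  set N' := A0 * nz m with hN'
  have h1η : 0 < 1 + η := by linarith
  have hs0 : ∀ b : ℝ, 0 ≤ b → 0 ≤ sc δ x (a * m) * b := fun b hb => mul_nonneg hsc hb
  have hind : ∀ (P : Prop) [Decidable P], (0 : ℝ) ≤ (if P then 1 else 0) := fun P _ => by
    split_ifs <;> norm_num
  by_cases hd : ((q : ℕ) : ZI) ∣ a * m - r
  · by_cases hP : Y1 < N ∧ N ≤ Y2
    · rw [if_pos ⟨hd, hP.1, hP.2, ham⟩]
      by_cases hP' : Y1 < N' ∧ N' ≤ Y2
      · rw [if_pos ⟨hd, hP'⟩, mul_one, sub_self, abs_zero]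
        exact hs0 _ (add_nonneg (hind _) (hind _))
      · rw [if_neg fun h => hP' h.2, mul_zero, sub_zero, abs_of_nonneg hsc]
        have h3 : N' ≤ Y1 := by
          by_contra h
          push Not at h
          exact hP' ⟨h, h1.le.trans hP.2⟩
        have h4 : Y1 < N ∧ N ≤ (1 + η) * Y1 := ⟨hP.1, h2.trans (mul_le_mul_of_nonneg_left h3 h1η.le)⟩
        rw [if_pos h4]
        calc sc δ x (a * m) = sc δ x (a * m) * 1 := (mul_one _).symm
          _ ≤ _ := mul_le_mul_of_nonneg_left (by linarith [hind (Y2 < N ∧ N ≤ (1 + η) * Y2)]) hsc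
    · rw [if_neg fun h => hP ⟨h.2.1, h.2.2.1⟩]
      by_cases hP' : Y1 < N' ∧ N' ≤ Y2
      · rw [if_pos ⟨hd, hP'⟩, mul_one, zero_sub, abs_neg, abs_of_nonneg hsc]
        have h3 : Y2 < N := by
          by_contra h
          push Not at h
          exact hP ⟨hP'.1.trans h1, h⟩
        have h4 : Y2 < N ∧ N ≤ (1 + η) * Y2 := ⟨h3, h2.trans (mul_le_mul_of_nonneg_left hP'.2 h1η.le)⟩
        rw [if_pos h4]
        calc sc δ x (a * m) = sc δ x (a * m) * 1 := (mul_one _).symm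
          _ ≤ _ := mul_le_mul_of_nonneg_left (by linarith [hind (Y1 < N ∧ N ≤ (1 + η) * Y1)]) hsc
      · rw [if_neg fun h => hP' h.2, mul_zero, sub_zero, abs_zero]
        exact hs0 _ (add_nonneg (hind _) (hind _))
  · rw [if_neg fun h => hd h.1, if_neg fun h => hd h.1, mul_zero, sub_zero, abs_zero]
    exact hs0 _ (add_nonneg (hind _) (hind _))

/-- the sum of type II and the cells -/
theorem dec_err {q : ℕ} (hq : 1 ≤ q) {r : ZI} {I : ℕ} {w V η Y1 Y2 δ x : ℝ} (hw : 1 ≤ w) (hwV : w ≤ V) (hη : 0 ≤ η)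
    (hη1 : η ≤ 1) (hI : V ≤ w * (1 + η) ^ I) (hY1 : 0 ≤ Y1) (hY12 : Y1 ≤ Y2) (hYV : Y2 ≤ V) :
    |∑ a ∈ bg w V, ∑ m ∈ bl V, mu a * Gw w m * FF q r Y1 Y2 δ x (a * m) -
      ∑ p ∈ Jx q r I, Bc q w V η Y1 Y2 δ p x| ≤
      ∑ t ∈ bl (2 * V), (dv t : ℝ) ^ 2 * sh η Y1 Y2 (nz t) * sc δ x t := by
  classical
  rw [dec_sum hw hwV hη (hY1.trans hY12) hYV, ← sum_sub_distrib]
  set H : ZI → ℝ := fun t => if t ∈ bl (2 * V) then (dv t : ℝ) * (sc δ x t * sh η Y1 Y2 (nz t)) else 0 with hH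
  have hH0 : ∀ t, 0 ≤ H t := by
    intro t
    rw [hH]
    simp only
    split_ifs
    · exact mul_nonneg (Nat.cast_nonneg _) (mul_nonneg (sc_nonneg _ _ _) (sh_nonneg _ _ _ _))
    · exact le_rfl
  have h1 : ∀ a ∈ bg w V, ∀ m ∈ bl V, |mu a * Gw w m * FF q r Y1 Y2 δ x (a * m) -
      mu a * Gw w m * (sc δ x (a * m) * Wt q r I w V η Y1 Y2 a m)| ≤ H (a * m) := by
    intro a ha m hm
    have ha0 := (mem_bg.1 ha).1
    have hm0 := ((mem_bl _ _).1 hm).1
    rw [← mul_sub, abs_mul, abs_mul]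
    have h2 := FF_err hq (r := r) (Y1 := Y1) (Y2 := Y2) (δ := δ) (x := x) hw hwV hη hI ha hm
    have h3 : |mu a| * |Gw w m| ≤ dv (a * m) := by
      calc |mu a| * |Gw w m| ≤ 1 * (dv m : ℝ) := mul_le_mul (abs_mu_le a) (Gw_le w m) (abs_nonneg _) zero_le_one
        _ = dv m := one_mul _
        _ ≤ dv (a * m) := by exact_mod_cast dv_mono (mul_ne_zero ha0 hm0) (Dvd.intro_left a rfl)
    refine (mul_le_mul h3 h2 (abs_nonneg _) (Nat.cast_nonneg _)).trans ?_
    rw [hH]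
    simp only
    split_ifs with h4
    · exact le_rfl
    · have h5 : sh η Y1 Y2 (nz (a * m)) = 0 := by
        have h6 : 2 * V < nz (a * m) := by
          by_contra h
          push Not at h
          exact h4 ((mem_bl _ _).2 ⟨mul_ne_zero ha0 hm0, h⟩)
        unfold sh
        have hV0 : 0 ≤ V := by linarith
        rw [if_neg, if_neg, add_zero]
        · rintro ⟨-, h⟩
          nlinarith
        · rintro ⟨-, h⟩
          nlinarith
      rw [h5, mul_zero, mul_zero]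
  have h2 : |∑ a ∈ bg w V, (∑ m ∈ bl V, mu a * Gw w m * FF q r Y1 Y2 δ x (a * m) -
      ∑ m ∈ bl V, mu a * Gw w m * (sc δ x (a * m) * Wt q r I w V η Y1 Y2 a m))| ≤
      ∑ a ∈ bg w V, ∑ m ∈ bl V, H (a * m) := by
    refine (abs_sum_le_sum_abs _ _).trans (sum_le_sum fun a ha => ?_)
    rw [← sum_sub_distrib]
    exact (abs_sum_le_sum_abs _ _).trans (sum_le_sum fun m hm => h1 a ha m hm)
  refine h2.trans ?_
  have hsub1 : bg w V ⊆ bl (2 * V) := by
    intro a ha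
    rw [mem_bg] at ha
    rw [mem_bl]
    exact ⟨ha.1, by linarith [ha.2.1]⟩
  have hsub2 : bl V ⊆ bl (2 * V) := by
    intro a ha
    rw [mem_bl] at ha ⊢
    exact ⟨ha.1, by linarith [ha.2]⟩
  have h3 : ∑ a ∈ bg w V, ∑ m ∈ bl V, H (a * m) ≤ ∑ a ∈ bl (2 * V), ∑ m ∈ bl (2 * V), 1 * H (a * m) := by
    refine (sum_le_sum_of_subset_of_nonneg hsub1 fun a _ _ => sum_nonneg fun m _ => hH0 _).trans ?_
    refine sum_le_sum fun a _ => ?_
    refine (sum_le_sum_of_subset_of_nonneg hsub2 fun m _ _ => hH0 _).trans (le_of_eq ?_)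
    exact sum_congr rfl fun m _ => (one_mul _).symm
  refine h3.trans ?_
  rw [← grp2 (2 * V) (fun _ => (1 : ℝ)) H (fun t ht => by rw [hH]; simp only; rw [if_neg ht])]
  refine le_of_eq (sum_congr rfl fun t ht => ?_)
  rw [hH]
  simp only
  rw [if_pos ht, sum_const, nsmul_eq_mul, mul_one, ← dv_card]
  ring

end Pool.Agent.N855.GN
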