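import Pool.Agent.N782.GN.StmT

/-!
# Project GN: lattice points in annular sectors
-/

set_option autoImplicit false

namespace Pool.Agent.N855.GN

open Finset MeasureTheory
open Pool.Agent.N782.GN

/-- the imaginary part of `z e^{-iθ}` -/
noncomputable def ri (θ : ℝ) (z : ℂ) : ℝ := z.im * Real.cos θ - z.re * Real.sin θ

/-- the annular sector -/
def SD (x δ R1 R2 : ℝ) : Set ℂ := {z | R1 < ‖z‖ ∧ ‖z‖ ≤ R2 ∧ 0 ≤ ri x z ∧ ri (x + δ) z < 0}

theorem ri_sub (θ : ℝ) (z w : ℂ) : ri θ z - ri θ w = ri θ (z - w) := by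
  unfold ri
  rw [Complex.sub_im, Complex.sub_re]
  ring

theorem abs_ri_le (θ : ℝ) (z : ℂ) : |ri θ z| ≤ ‖z‖ := by
  unfold ri
  apply abs_le_of_sq_le_sq _ (norm_nonneg z)
  rw [← Complex.normSq_eq_norm_sq, Complex.normSq_apply]
  nlinarith [Real.sin_sq_add_cos_sq θ, sq_nonneg (z.re * Real.cos θ + z.im * Real.sin θ)]

theorem ri_rot (x θ : ℝ) (z : ℂ) : ri (θ - x) (rotation (Circle.exp (-x)) z) = ri θ z := by
  have h1 : rotation (Circle.exp (-x)) z =
      ⟨z.re * Real.cos x + z.im * Real.sin x, z.im * Real.cos x - z.re * Real.sin x⟩ := by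
    rw [rotation_apply, Circle.coe_exp]
    apply Complex.ext
    · rw [Complex.mul_re, Complex.exp_ofReal_mul_I_re, Complex.exp_ofReal_mul_I_im, Real.cos_neg,
        Real.sin_neg]
      ring
    · rw [Complex.mul_im, Complex.exp_ofReal_mul_I_re, Complex.exp_ofReal_mul_I_im, Real.cos_neg,
        Real.sin_neg]
      ring
  rw [h1]
  unfold ri
  rw [Real.cos_sub, Real.sin_sub]
  have h2 := Real.sin_sq_add_cos_sq x
  have h3 : Real.sin x ^ 2 = 1 - Real.cos x ^ 2 := by linarith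
  ring_nf
  rw [h3]
  ring

theorem ri_cont (θ : ℝ) : Continuous (ri θ) := by
  unfold ri
  fun_prop

theorem SD_meas (x δ R1 R2 : ℝ) : MeasurableSet (SD x δ R1 R2) := by
  unfold SD
  apply MeasurableSet.inter
  · exact measurableSet_lt measurable_const measurable_norm
  apply MeasurableSet.inter
  · exact measurableSet_le measurable_norm measurable_const
  apply MeasurableSet.inter
  · exact measurableSet_le measurable_const (ri_cont x).measurable
  · exact measurableSet_lt (ri_cont (x + δ)).measurable measurable_const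

theorem SD_sub (x δ R1 R2 : ℝ) : SD x δ R1 R2 ⊆ Metric.closedBall 0 R2 := by
  intro z hz
  rw [mem_closedBall_zero_iff]
  exact hz.2.1

theorem SD_fin (x δ R1 R2 : ℝ) : volume (SD x δ R1 R2) ≠ ⊤ :=
  ne_top_of_le_ne_top (isCompact_closedBall (0 : ℂ) R2).measure_lt_top.ne (measure_mono (SD_sub x δ R1 R2))

theorem SD_rot (x δ R1 R2 : ℝ) :
    SD x δ R1 R2 = (rotation (Circle.exp (-x))) ⁻¹' (SD 0 δ R1 R2) := by
  ext z
  unfold SD
  simp only [Set.mem_ofPred_eq, Set.mem_preimage, LinearIsometryEquiv.norm_map]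
  have h1 := ri_rot x x z
  have h2 := ri_rot x (x + δ) z
  rw [sub_self] at h1
  rw [show x + δ - x = 0 + δ by ring] at h2
  rw [h1, h2]

theorem real_rot (x : ℝ) (S : Set ℂ) (hS : MeasurableSet S) :
    volume.real ((rotation (Circle.exp (-x))) ⁻¹' S) = volume.real S := by
  unfold Measure.real
  rw [(LinearIsometryEquiv.measurePreserving (rotation (Circle.exp (-x)))).measure_preimage
    hS.nullMeasurableSet]

/-- the area of the annular sector -/
theorem vol_SD (x δ R1 R2 : ℝ) (h0 : 0 ≤ δ) (h1 : δ ≤ 1) (hR : 0 ≤ R1) (hR2 : R1 ≤ R2) :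
    volume.real (SD x δ R1 R2) = δ * (R2 ^ 2 - R1 ^ 2) / 2 := by
  rw [SD_rot, real_rot x _ (SD_meas _ _ _ _), ← integral_indicator_one (SD_meas _ _ _ _),
    ← Complex.integral_comp_polarCoord_symm]
  have h2 : ∀ p ∈ polarCoord.target, p.1 • (SD 0 δ R1 R2).indicator (1 : ℂ → ℝ) (Complex.polarCoord.symm p) =
      (Set.Ioc R1 R2 ×ˢ Set.Ico 0 δ).indicator (fun p : ℝ × ℝ => p.1) p := by
    rintro ⟨r, θ⟩ hp
    rw [polarCoord_target] at hp
    obtain ⟨hr, hθ⟩ := hp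
    simp only [Set.mem_Ioi, Set.mem_Ioo] at hr hθ
    have e : Complex.polarCoord.symm (r, θ) = (⟨r * Real.cos θ, r * Real.sin θ⟩ : ℂ) := by
      rw [Complex.polarCoord_symm_apply]
      apply Complex.ext <;> simp [-Complex.ofReal_cos, -Complex.ofReal_sin]
    have e1 : ‖Complex.polarCoord.symm (r, θ)‖ = r := by
      rw [Complex.norm_polarCoord_symm, abs_of_pos hr]
    have e2 : ri 0 (Complex.polarCoord.symm (r, θ)) = r * Real.sin θ := by
      rw [e]; unfold ri; simp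
    have e3 : ri (0 + δ) (Complex.polarCoord.symm (r, θ)) = r * Real.sin (θ - δ) := by
      rw [e]; unfold ri; rw [Real.sin_sub, zero_add]; ring
    have key : Complex.polarCoord.symm (r, θ) ∈ SD 0 δ R1 R2 ↔ (r, θ) ∈ Set.Ioc R1 R2 ×ˢ Set.Ico 0 δ := by
      unfold SD
      rw [Set.mem_ofPred_eq, e1, e2, e3, Set.mem_prod, Set.mem_Ioc, Set.mem_Ico]
      constructor
      · rintro ⟨a, b, c, d⟩
        refine ⟨⟨a, b⟩, ?_, ?_⟩
        · by_contra h
          push Not at h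
          have := Real.sin_neg_of_neg_of_neg_pi_lt h hθ.1
          nlinarith
        · by_contra h
          push Not at h
          have := Real.sin_nonneg_of_nonneg_of_le_pi (x := θ - δ) (by linarith) (by linarith)
          nlinarith
      · rintro ⟨⟨a, b⟩, c, d⟩
        refine ⟨a, b, mul_nonneg hr.le (Real.sin_nonneg_of_nonneg_of_le_pi c hθ.2.le), ?_⟩
        have := Real.sin_neg_of_neg_of_neg_pi_lt (x := θ - δ) (by linarith) (by linarith [Real.pi_gt_three])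
        nlinarith
    by_cases h : Complex.polarCoord.symm (r, θ) ∈ SD 0 δ R1 R2
    · rw [Set.indicator_of_mem h, Set.indicator_of_mem (key.1 h)]
      simp
    · rw [Set.indicator_of_notMem h, Set.indicator_of_notMem (fun h' => h (key.2 h'))]
      simp
  rw [setIntegral_congr_fun polarCoord.open_target.measurableSet h2,
    setIntegral_indicator (measurableSet_Ioc.prod measurableSet_Ico)]
  have h3 : polarCoord.target ∩ Set.Ioc R1 R2 ×ˢ Set.Ico 0 δ = Set.Ioc R1 R2 ×ˢ Set.Ico 0 δ := by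
    rw [Set.inter_eq_right]
    rintro ⟨r, θ⟩ ⟨h4, h5⟩
    rw [polarCoord_target]
    simp only [Set.mem_Ioc, Set.mem_Ico] at h4 h5
    refine ⟨?_, ?_, ?_⟩
    · exact lt_of_le_of_lt hR h4.1
    · change -Real.pi < θ
      linarith [Real.pi_pos]
    · change θ < Real.pi
      linarith [Real.pi_gt_three]
  rw [h3]
  have h4 := setIntegral_prod_mul (μ := volume) (ν := volume) (fun r : ℝ => r) (fun _ : ℝ => (1 : ℝ)) (Set.Ioc R1 R2) (Set.Ico 0 δ)
  simp only [mul_one] at h4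
  rw [Measure.volume_eq_prod, h4, ← intervalIntegral.integral_of_le hR2, integral_id]
  simp [h0]
  ring

/-- the neighbourhood of a circle -/
theorem vol_shell (R ρ : ℝ) (hR : 0 ≤ R) (hρ : 0 ≤ ρ) :
    volume.real {z : ℂ | |‖z‖ - R| ≤ ρ} ≤ 13 * ρ * (R + ρ) := by
  have h1 : {z : ℂ | |‖z‖ - R| ≤ ρ} ⊆ Metric.closedBall 0 (R + ρ) \ Metric.ball 0 (R - ρ) := by
    intro z hz
    have hz' : |‖z‖ - R| ≤ ρ := hz
    rw [abs_le] at hz'
    refine ⟨?_, ?_⟩
    · rw [mem_closedBall_zero_iff]; linarith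
    · rw [mem_ball_zero_iff]; linarith
  have h2 : Metric.ball (0 : ℂ) (R - ρ) ⊆ Metric.closedBall 0 (R + ρ) :=
    Metric.ball_subset_closedBall.trans (Metric.closedBall_subset_closedBall (by linarith))
  have hf : volume (Metric.closedBall (0 : ℂ) (R + ρ)) ≠ ⊤ := (isCompact_closedBall (0 : ℂ) _).measure_lt_top.ne
  have h3 : volume.real {z : ℂ | |‖z‖ - R| ≤ ρ} ≤
      volume.real (Metric.closedBall (0 : ℂ) (R + ρ)) - volume.real (Metric.ball (0 : ℂ) (R - ρ)) := by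
    rw [← measureReal_sdiff h2 measurableSet_ball ]
    exact measureReal_mono h1 (ne_top_of_le_ne_top hf (measure_mono Set.sdiff_subset))
  have h4 : volume.real (Metric.closedBall (0 : ℂ) (R + ρ)) = (R + ρ) ^ 2 * Real.pi := by
    unfold Measure.real
    rw [Complex.volume_closedBall]
    simp [ENNReal.toReal_ofReal (add_nonneg hR hρ)]
  have h5 : volume.real (Metric.ball (0 : ℂ) (R - ρ)) = (max (R - ρ) 0) ^ 2 * Real.pi := by
    unfold Measure.real
    rw [Complex.volume_ball]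
    simp [ENNReal.toReal_ofReal']
  rw [h4, h5] at h3
  refine h3.trans ?_
  have hpi : Real.pi < 3.15 := Real.pi_lt_d2
  have hpi0 := Real.pi_pos
  rcases le_total (R - ρ) 0 with h | h
  · rw [max_eq_right h]
    have : (R + ρ) ^ 2 ≤ 2 * ρ * (R + ρ) := by nlinarith
    nlinarith [mul_nonneg hρ (add_nonneg hR hρ)]
  · rw [max_eq_left h]
    have : (R + ρ) ^ 2 - (R - ρ) ^ 2 ≤ 4 * ρ * (R + ρ) := by nlinarith
    nlinarith [mul_nonneg hρ (add_nonneg hR hρ)]

/-- rectangles -/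
theorem vol_rect (a b c d : ℝ) (h1 : a ≤ b) (h2 : c ≤ d) :
    volume.real (Set.Ico a b ×ℂ Set.Ico c d) = (b - a) * (d - c) ∧
    volume.real (Set.Icc a b ×ℂ Set.Icc c d) = (b - a) * (d - c) := by
  have key : ∀ S T : Set ℝ, MeasurableSet S → MeasurableSet T →
      volume.real (S ×ℂ T) = volume.real S * volume.real T := by
    intro S T hS hT
    have h3 : S ×ℂ T = Complex.measurableEquivRealProd ⁻¹' (S ×ˢ T) := by
      ext z
      simp [Complex.mem_reProdIm]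
    unfold Measure.real
    rw [h3, Complex.volume_preserving_equiv_real_prod.measure_preimage (hS.prod hT).nullMeasurableSet,
      Measure.volume_eq_prod, Measure.prod_prod, ENNReal.toReal_mul]
  constructor
  · rw [key _ _ measurableSet_Ico measurableSet_Ico, Real.volume_real_Ico_of_le h1,
      Real.volume_real_Ico_of_le h2]
  · rw [key _ _ measurableSet_Icc measurableSet_Icc, Real.volume_real_Icc_of_le h1,
      Real.volume_real_Icc_of_le h2]

/-- the neighbourhood of a ray -/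
theorem vol_strip (θ R ρ : ℝ) (hR : 0 ≤ R) (hρ : 0 ≤ ρ) :
    volume.real {z : ℂ | ‖z‖ ≤ R ∧ |ri θ z| ≤ ρ} ≤ 4 * ρ * R := by
  have h1 : {z : ℂ | ‖z‖ ≤ R ∧ |ri θ z| ≤ ρ} ⊆
      (rotation (Circle.exp (-θ))) ⁻¹' (Set.Icc (-R) R ×ℂ Set.Icc (-ρ) ρ) := by
    rintro z ⟨h1, h2⟩
    rw [Set.mem_preimage, Complex.mem_reProdIm, Set.mem_Icc, Set.mem_Icc, ← abs_le, ← abs_le]
    constructor
    · refine (Complex.abs_re_le_norm _).trans ?_
      rwa [LinearIsometryEquiv.norm_map]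
    · have h3 := ri_rot θ θ z
      rw [sub_self] at h3
      rw [← h3] at h2
      unfold ri at h2
      simpa using h2
  have hm : MeasurableSet (Set.Icc (-R) R ×ℂ Set.Icc (-ρ) ρ) := by
    have h3 : Set.Icc (-R) R ×ℂ Set.Icc (-ρ) ρ =
        Complex.measurableEquivRealProd ⁻¹' (Set.Icc (-R) R ×ˢ Set.Icc (-ρ) ρ) := by
      ext z
      simp only [Complex.mem_reProdIm, Set.mem_preimage, Complex.measurableEquivRealProd_apply, Set.mem_prod]
    rw [h3]
    exact Complex.measurableEquivRealProd.measurable (measurableSet_Icc.prod measurableSet_Icc)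
  have h2 : volume.real ((rotation (Circle.exp (-θ))) ⁻¹' (Set.Icc (-R) R ×ℂ Set.Icc (-ρ) ρ)) = 4 * ρ * R := by
    rw [real_rot θ _ hm, (vol_rect _ _ _ _ (by linarith) (by linarith)).2]
    ring
  rw [← h2]
  refine measureReal_mono h1 ?_
  rw [(LinearIsometryEquiv.measurePreserving (rotation (Circle.exp (-θ)))).measure_preimage
    hm.nullMeasurableSet]
  refine ne_top_of_le_ne_top (isCompact_closedBall (0 : ℂ) (R + ρ)).measure_lt_top.ne (measure_mono ?_)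
  intro z hz
  rw [Complex.mem_reProdIm, Set.mem_Icc, Set.mem_Icc, ← abs_le, ← abs_le] at hz
  rw [mem_closedBall_zero_iff]
  exact (Complex.norm_le_abs_re_add_abs_im z).trans (add_le_add hz.1 hz.2)

/-- the neighbourhood of the boundary -/
def GB (x δ R1 R2 ρ : ℝ) : Set ℂ := ({z | |‖z‖ - R1| ≤ ρ} ∪ {z | |‖z‖ - R2| ≤ ρ}) ∪
  ({z | ‖z‖ ≤ R2 + ρ ∧ |ri x z| ≤ ρ} ∪ {z | ‖z‖ ≤ R2 + ρ ∧ |ri (x + δ) z| ≤ ρ})

theorem GB_sub (x δ R1 R2 ρ : ℝ) (h12 : R1 ≤ R2) : GB x δ R1 R2 ρ ⊆ Metric.closedBall 0 (R2 + ρ) := by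
  intro z hz
  rw [mem_closedBall_zero_iff]
  rcases hz with (hz | hz) | (hz | hz)
  · have h1 : |‖z‖ - R1| ≤ ρ := hz
    rw [abs_le] at h1
    linarith
  · have h1 : |‖z‖ - R2| ≤ ρ := hz
    rw [abs_le] at h1
    linarith
  · exact hz.1
  · exact hz.1

theorem vol_GB (x δ R1 R2 ρ : ℝ) (hR : 0 ≤ R1) (h12 : R1 ≤ R2) (hρ : 0 ≤ ρ) :
    volume.real (GB x δ R1 R2 ρ) ≤ 34 * ρ * (R2 + ρ) := by
  unfold GB
  refine (measureReal_union_le _ _).trans ?_
  refine (add_le_add (measureReal_union_le _ _) (measureReal_union_le _ _)).trans ?_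
  have h1 := vol_shell R1 ρ hR hρ
  have h2 := vol_shell R2 ρ (hR.trans h12) hρ
  have h3 := vol_strip x (R2 + ρ) ρ (by linarith) hρ
  have h4 := vol_strip (x + δ) (R2 + ρ) ρ (by linarith) hρ
  have h5 : 13 * ρ * (R1 + ρ) ≤ 13 * ρ * (R2 + ρ) := by
    apply mul_le_mul_of_nonneg_left <;> linarith
  linarith

theorem near {x δ R1 R2 ρ : ℝ} {z w : ℂ} (h : ‖z - w‖ ≤ ρ)
    (hne : ¬ (z ∈ SD x δ R1 R2 ↔ w ∈ SD x δ R1 R2)) : z ∈ GB x δ R1 R2 ρ := by
  by_contra hG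
  apply hne
  have hG1 : ¬ (|‖z‖ - R1| ≤ ρ) := fun h' => hG (Or.inl (Or.inl h'))
  have hG2 : ¬ (|‖z‖ - R2| ≤ ρ) := fun h' => hG (Or.inl (Or.inr h'))
  have hG3 : ¬ (‖z‖ ≤ R2 + ρ ∧ |ri x z| ≤ ρ) := fun h' => hG (Or.inr (Or.inl h'))
  have hG4 : ¬ (‖z‖ ≤ R2 + ρ ∧ |ri (x + δ) z| ≤ ρ) := fun h' => hG (Or.inr (Or.inr h'))
  have hn : |‖z‖ - ‖w‖| ≤ ρ := (abs_norm_sub_norm_le z w).trans h
  have hr : ∀ θ, |ri θ z - ri θ w| ≤ ρ := fun θ => by
    rw [ri_sub]
    exact (abs_ri_le θ _).trans h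
  have hρ : 0 ≤ ρ := (norm_nonneg _).trans h
  rw [abs_le] at hn
  by_cases hz : ‖z‖ ≤ R2 + ρ
  · have h3 : ¬ (|ri x z| ≤ ρ) := fun h' => hG3 ⟨hz, h'⟩
    have h4 : ¬ (|ri (x + δ) z| ≤ ρ) := fun h' => hG4 ⟨hz, h'⟩
    have h5 := hr x
    have h6 := hr (x + δ)
    rw [abs_le] at h5 h6
    rw [abs_le, not_and_or, not_le, not_le] at hG1 hG2 h3 h4
    unfold SD
    simp only [Set.mem_ofPred_eq]
    constructor
    · rintro ⟨a, b, c, d⟩
      refine ⟨?_, ?_, ?_, ?_⟩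
      · rcases hG1 with h7 | h7 <;> linarith
      · rcases hG2 with h7 | h7 <;> linarith
      · rcases h3 with h7 | h7 <;> linarith
      · rcases h4 with h7 | h7 <;> linarith
    · rintro ⟨a, b, c, d⟩
      refine ⟨?_, ?_, ?_, ?_⟩
      · rcases hG1 with h7 | h7 <;> linarith
      · rcases hG2 with h7 | h7 <;> linarith
      · rcases h3 with h7 | h7 <;> linarith
      · rcases h4 with h7 | h7 <;> linarith
  · push Not at hz
    constructor
    · intro h1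
      exact absurd h1.2.1 (by linarith)
    · intro h1
      exact absurd h1.2.1 (by linarith)

/-- the square of a lattice point -/
def Qs (q : ℕ) (c : ZI) : Set ℂ := Set.Ico (c.re : ℝ) (c.re + q) ×ℂ Set.Ico (c.im : ℝ) (c.im + q)

theorem Qs_norm {q : ℕ} {c : ZI} {z : ℂ} (hz : z ∈ Qs q c) : ‖z - (c : ℂ)‖ ≤ 2 * q := by
  unfold Qs at hz
  rw [Complex.mem_reProdIm, Set.mem_Ico, Set.mem_Ico] at hz
  obtain ⟨⟨h1, h2⟩, h3, h4⟩ := hz
  refine (Complex.norm_le_abs_re_add_abs_im _).trans ?_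
  rw [Complex.sub_re, Complex.sub_im, ← GaussianInt.intCast_re, ← GaussianInt.intCast_im,
    abs_of_nonneg (by linarith), abs_of_nonneg (by linarith)]
  linarith

theorem dvd_ZI (q : ℕ) (z : ZI) : ((q : ℕ) : ZI) ∣ z ↔ (q : ℤ) ∣ z.re ∧ (q : ℤ) ∣ z.im := by
  have := Zsqrtd.intCast_dvd (d := -1) (q : ℤ) z
  rwa [Int.cast_natCast] at this

theorem Qs_exists {q : ℕ} (hq : 1 ≤ q) (r : ZI) (z : ℂ) :
    ∃ c : ZI, ((q : ℕ) : ZI) ∣ c - r ∧ z ∈ Qs q c := by
  have hq0 : (0 : ℝ) < q := by exact_mod_cast hq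
  refine ⟨⟨r.re + q * ⌊(z.re - r.re) / q⌋, r.im + q * ⌊(z.im - r.im) / q⌋⟩, ?_, ?_⟩
  · rw [dvd_ZI]
    simp
  · unfold Qs
    rw [Complex.mem_reProdIm, Set.mem_Ico, Set.mem_Ico]
    push_cast
    have h : ∀ a b : ℝ, b + q * ⌊(a - b) / q⌋ ≤ a ∧ a < b + q * ⌊(a - b) / q⌋ + q := by
      intro a b
      have h1 := Int.floor_le ((a - b) / q)
      have h2 := Int.lt_floor_add_one ((a - b) / q)
      rw [le_div_iff₀ hq0] at h1
      rw [div_lt_iff₀ hq0] at h2
      constructor <;> nlinarith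
    exact ⟨h _ _, h _ _⟩

theorem Qs_disj {q : ℕ} (hq : 1 ≤ q) {r c c' : ZI} (h : ((q : ℕ) : ZI) ∣ c - r)
    (h' : ((q : ℕ) : ZI) ∣ c' - r) (hne : c ≠ c') : Disjoint (Qs q c) (Qs q c') := by
  rw [Set.disjoint_left]
  intro z hz hz'
  apply hne
  unfold Qs at hz hz'
  rw [Complex.mem_reProdIm, Set.mem_Ico, Set.mem_Ico] at hz hz'
  rw [dvd_ZI, Zsqrtd.re_sub, Zsqrtd.im_sub] at h h'
  have key : ∀ (a b e : ℤ) (t : ℝ), (q : ℤ) ∣ a - e → (q : ℤ) ∣ b - e → (a : ℝ) ≤ t → t < a + q →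
      (b : ℝ) ≤ t → t < b + q → a = b := by
    intro a b e t h1 h2 h3 h4 h5 h6
    have h7 : (q : ℤ) ∣ a - b := by
      have := dvd_sub h1 h2
      rwa [sub_sub_sub_cancel_right] at this
    obtain ⟨k, hk⟩ := h7
    have h8 : (a : ℝ) < b + q := by linarith
    have h9 : (b : ℝ) < a + q := by linarith
    have h8' : a < b + q := by exact_mod_cast h8
    have h9' : b < a + q := by exact_mod_cast h9
    have hq' : (1 : ℤ) ≤ q := by exact_mod_cast hq
    have hk0 : k = 0 := by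
      by_contra hk0
      rcases lt_or_gt_of_ne hk0 with h | h
      · nlinarith
      · nlinarith
    rw [hk0, mul_zero] at hk
    linarith
  exact Zsqrtd.ext (key _ _ _ _ h.1 h'.1 hz.1.1 hz.1.2 hz'.1.1 hz'.1.2)
    (key _ _ _ _ h.2 h'.2 hz.2.1 hz.2.2 hz'.2.1 hz'.2.2)

theorem vol_Qs (q : ℕ) (c : ZI) : volume.real (Qs q c) = (q : ℝ) ^ 2 := by
  unfold Qs
  rw [(vol_rect _ _ _ _ (by linarith [(Nat.cast_nonneg q : (0 : ℝ) ≤ q)])
    (by linarith [(Nat.cast_nonneg q : (0 : ℝ) ≤ q)])).1]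
  ring

theorem meas_Qs (q : ℕ) (c : ZI) : MeasurableSet (Qs q c) := by
  unfold Qs
  have h3 : ∀ S T : Set ℝ, S ×ℂ T = Complex.measurableEquivRealProd ⁻¹' (S ×ˢ T) := by
    intro S T
    ext z
    simp only [Complex.mem_reProdIm, Set.mem_preimage, Complex.measurableEquivRealProd_apply, Set.mem_prod]
  rw [h3]
  exact Complex.measurableEquivRealProd.measurable (measurableSet_Ico.prod measurableSet_Ico)

theorem fin_Qs (q : ℕ) (c : ZI) : volume (Qs q c) ≠ ⊤ := by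
  refine ne_top_of_le_ne_top (isCompact_closedBall (c : ℂ) (2 * q)).measure_lt_top.ne (measure_mono ?_)
  intro z hz
  rw [mem_closedBall_iff_norm]
  exact Qs_norm hz

/-- **lattice points in an annular sector** -/
theorem count {x δ R1 R2 : ℝ} (h0 : 0 ≤ δ) (h1 : δ ≤ 1) (hR : 0 ≤ R1) (h12 : R1 ≤ R2) {q : ℕ} (hq : 1 ≤ q)
    (r : ZI) (S : Finset ZI) (hS : ∀ c, c ∈ S ↔ ((q : ℕ) : ZI) ∣ c - r ∧ (c : ℂ) ∈ SD x δ R1 R2) :
    |(S.card : ℝ) - δ * (R2 ^ 2 - R1 ^ 2) / (2 * q ^ 2)| ≤ 140 * (R2 / q + 1) := by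
  have hq0 : (0 : ℝ) < q := by exact_mod_cast hq
  have hfG : volume (GB x δ R1 R2 (2 * q)) ≠ ⊤ :=
    ne_top_of_le_ne_top (isCompact_closedBall (0 : ℂ) _).measure_lt_top.ne
      (measure_mono (GB_sub x δ R1 R2 (2 * q) h12))
  have hU : volume.real (⋃ c ∈ S, Qs q c) = S.card * (q : ℝ) ^ 2 := by
    rw [measureReal_biUnion_finset (fun c hc c' hc' hne => Qs_disj hq ((hS c).1 hc).1 ((hS c').1 hc').1 hne)
      (fun c _ => meas_Qs q c) (fun c _ => fin_Qs q c),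
      sum_congr rfl fun c _ => vol_Qs q c, sum_const, nsmul_eq_mul]
  have hfU : volume (⋃ c ∈ S, Qs q c) ≠ ⊤ := by
    refine ne_top_of_le_ne_top ?_ (measure_biUnion_finset_le S (Qs q))
    exact ENNReal.sum_ne_top.2 fun c _ => fin_Qs q c
  have hs1 : (⋃ c ∈ S, Qs q c) ⊆ SD x δ R1 R2 ∪ GB x δ R1 R2 (2 * q) := by
    intro z hz
    rw [Set.mem_iUnion₂] at hz
    obtain ⟨c, hc, hz⟩ := hz
    by_cases h : z ∈ SD x δ R1 R2
    · exact Or.inl h
    · refine Or.inr (near (Qs_norm hz) ?_)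
      rintro h'
      exact h (h'.2 ((hS c).1 hc).2)
  have hs2 : SD x δ R1 R2 ⊆ (⋃ c ∈ S, Qs q c) ∪ GB x δ R1 R2 (2 * q) := by
    intro z hz
    obtain ⟨c, hc, hzc⟩ := Qs_exists hq r z
    by_cases h : (c : ℂ) ∈ SD x δ R1 R2
    · refine Or.inl ?_
      rw [Set.mem_iUnion₂]
      exact ⟨c, (hS c).2 ⟨hc, h⟩, hzc⟩
    · refine Or.inr (near (Qs_norm hzc) ?_)
      rintro h'
      exact h (h'.1 hz)
  have h3 := (measureReal_mono hs1 (by
    exact (measure_union_lt_top (SD_fin x δ R1 R2).lt_top hfG.lt_top).ne)).trans (measureReal_union_le _ _)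
  have h4 := (measureReal_mono hs2 (by
    exact (measure_union_lt_top hfU.lt_top hfG.lt_top).ne)).trans (measureReal_union_le _ _)
  rw [hU] at h3 h4
  rw [vol_SD x δ R1 R2 h0 h1 hR h12] at h3 h4
  have h5 := vol_GB x δ R1 R2 (2 * q) hR h12 (by positivity)
  have h6 : |S.card * (q : ℝ) ^ 2 - δ * (R2 ^ 2 - R1 ^ 2) / 2| ≤ 140 * (R2 / q + 1) * q ^ 2 := by
    have h7 : 140 * (R2 / q + 1) * (q : ℝ) ^ 2 = 140 * (q * R2 + q ^ 2) := by
      field_simp
    rw [h7, abs_le]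
    have h8 : 34 * (2 * (q : ℝ)) * (R2 + 2 * q) ≤ 140 * (q * R2 + q ^ 2) := by
      nlinarith [mul_nonneg hq0.le (hR.trans h12)]
    constructor <;> linarith
  have h7 : (S.card : ℝ) - δ * (R2 ^ 2 - R1 ^ 2) / (2 * q ^ 2) =
      (S.card * (q : ℝ) ^ 2 - δ * (R2 ^ 2 - R1 ^ 2) / 2) / q ^ 2 := by
    field_simp
  rw [h7, abs_div, abs_of_pos (by positivity : (0 : ℝ) < (q : ℝ) ^ 2), div_le_iff₀ (by positivity)]
  exact h6

end Pool.Agent.N855.GN
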