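import Pool.Agent.N855.GN.Sc

/-!
# Project GN: grouping and the identity of Vaughan type
-/

set_option autoImplicit false

namespace Pool.Agent.N855.GN

open Finset MeasureTheory
open Pool.Agent.N782.GN

open Classical in
/-- the divisors -/
noncomputable def Dv (m : ZI) : Finset ZI := (bl (nz m)).filter (fun d => d ∣ m)

theorem mem_Dv {m d : ZI} (hm : m ≠ 0) : d ∈ Dv m ↔ d ∣ m := by
  classical
  unfold Dv
  rw [mem_filter, and_iff_right_iff_imp]
  rintro ⟨e, rfl⟩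
  have hd : d ≠ 0 := left_ne_zero_of_mul hm
  have he : e ≠ 0 := right_ne_zero_of_mul hm
  rw [mem_bl]
  refine ⟨hd, ?_⟩
  rw [nz_mul]
  exact le_mul_of_one_le_right (nz_nonneg d) (nz_one_le he)

theorem dv_card (m : ZI) : dv m = (Dv m).card := rfl

theorem dv_mono {m t : ZI} (ht : t ≠ 0) (h : m ∣ t) : dv m ≤ dv t := by
  have hm : m ≠ 0 := fun h0 => ht (by rw [h0, zero_dvd_iff] at h; exact h)
  rw [dv_card, dv_card]
  refine card_le_card fun d hd => ?_
  rw [mem_Dv hm] at hd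
  rw [mem_Dv ht]
  exact hd.trans h

theorem dv_one_le {t : ZI} (ht : t ≠ 0) : 1 ≤ dv t := by
  rw [dv_card]
  exact card_pos.2 ⟨1, (mem_Dv ht).2 (one_dvd t)⟩

/-- the coefficients of a product -/
noncomputable def cf (f g : ZI → ℝ) (SA SM : Finset ZI) (t : ZI) : ℝ :=
  ∑ p ∈ (SA ×ˢ SM).filter (fun p => p.1 * p.2 = t), f p.1 * g p.2

theorem grp (f g H : ZI → ℝ) (SA SM T : Finset ZI) (h : ∀ a ∈ SA, ∀ m ∈ SM, a * m ∈ T) :
    ∑ a ∈ SA, ∑ m ∈ SM, f a * g m * H (a * m) = ∑ t ∈ T, cf f g SA SM t * H t := by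
  rw [← sum_product', ← sum_fiberwise_of_maps_to (s := SA ×ˢ SM) (t := T) (g := fun p => p.1 * p.2)
    (fun p hp => h _ (mem_product.1 hp).1 _ (mem_product.1 hp).2)]
  refine sum_congr rfl fun t _ => ?_
  unfold cf
  rw [sum_mul]
  refine sum_congr rfl fun p hp => ?_
  rw [(mem_filter.1 hp).2]

theorem grpC (f g : ZI → ℝ) (H : ZI → ℂ) (SA SM T : Finset ZI) (h : ∀ a ∈ SA, ∀ m ∈ SM, a * m ∈ T) :
    ∑ a ∈ SA, ∑ m ∈ SM, (f a : ℂ) * (g m : ℂ) * H (a * m) = ∑ t ∈ T, (cf f g SA SM t : ℂ) * H t := by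
  rw [← sum_product', ← sum_fiberwise_of_maps_to (s := SA ×ˢ SM) (t := T) (g := fun p => p.1 * p.2)
    (fun p hp => h _ (mem_product.1 hp).1 _ (mem_product.1 hp).2)]
  refine sum_congr rfl fun t _ => ?_
  unfold cf
  push_cast
  rw [sum_mul]
  refine sum_congr rfl fun p hp => ?_
  rw [(mem_filter.1 hp).2]

theorem cf_le (f g : ZI → ℝ) (SA SM : Finset ZI) (hf : ∀ a, |f a| ≤ 1) (hg : ∀ m, m ≠ 0 → |g m| ≤ dv m)
    {t : ZI} (ht : t ≠ 0) : |cf f g SA SM t| ≤ (dv t : ℝ) ^ 2 := by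
  unfold cf
  refine (abs_sum_le_sum_abs _ _).trans ?_
  have h1 : ∀ p ∈ (SA ×ˢ SM).filter (fun p => p.1 * p.2 = t), |f p.1 * g p.2| ≤ (dv t : ℝ) := by
    intro p hp
    have hpt := (mem_filter.1 hp).2
    have h2 : p.2 ≠ 0 := fun h => ht (by rw [← hpt, h, mul_zero])
    rw [abs_mul]
    have h3 : |g p.2| ≤ (dv t : ℝ) := (hg _ h2).trans (by exact_mod_cast dv_mono ht ⟨p.1, by rw [← hpt, mul_comm]⟩)
    calc |f p.1| * |g p.2| ≤ 1 * (dv t : ℝ) := mul_le_mul (hf _) h3 (abs_nonneg _) zero_le_one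
      _ = (dv t : ℝ) := one_mul _
  refine (sum_le_sum h1).trans ?_
  rw [sum_const, nsmul_eq_mul, sq]
  refine mul_le_mul_of_nonneg_right ?_ (Nat.cast_nonneg _)
  rw [dv_card]
  norm_cast
  refine card_le_card_of_injOn (fun p => p.1) ?_ ?_
  · intro p hp
    have hp' := mem_filter.1 (mem_coe.1 hp)
    rw [mem_coe, mem_Dv ht]
    exact ⟨p.2, hp'.2.symm⟩
  · intro p hp p' hp' hpp
    have h1 := (mem_filter.1 (mem_coe.1 hp)).2
    have h2 := (mem_filter.1 (mem_coe.1 hp')).2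
    have h3 : p.1 ≠ 0 := fun h => ht (by rw [← h1, h, zero_mul])
    have hpp' : p.1 = p'.1 := hpp
    refine Prod.ext hpp' ?_
    rw [← h2, ← hpp'] at h1
    exact mul_left_cancel₀ h3 h1

/-- grouping by the product -/
theorem grp2 {R : Type} [CommRing R] (V : ℝ) (g H : ZI → R) (hH : ∀ m, m ∉ bl V → H m = 0) :
    ∑ m ∈ bl V, (∑ b ∈ Dv m, g b) * H m = ∑ b ∈ bl V, ∑ c ∈ bl V, g b * H (b * c) := by
  classical
  have h1 : ∑ b ∈ bl V, ∑ c ∈ bl V, g b * H (b * c) =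
      ∑ p ∈ (bl V ×ˢ bl V).filter (fun p => p.1 * p.2 ∈ bl V), g p.1 * H (p.1 * p.2) := by
    rw [← sum_product', sum_filter]
    refine sum_congr rfl fun p _ => ?_
    split_ifs with h
    · rfl
    · rw [hH _ h, mul_zero]
  have h2 : ∑ m ∈ bl V, (∑ b ∈ Dv m, g b) * H m = ∑ x ∈ (bl V).sigma Dv, g x.2 * H x.1 := by
    rw [sum_sigma]
    exact sum_congr rfl fun m _ => sum_mul _ _ _
  rw [h1, h2]
  symm
  refine sum_bij (fun p _ => (⟨p.1 * p.2, p.1⟩ : (_ : ZI) × ZI)) ?_ ?_ ?_ ?_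
  · intro p hp
    rw [mem_filter] at hp
    rw [mem_sigma]
    exact ⟨hp.2, (mem_Dv ((mem_bl _ _).1 hp.2).1).2 (Dvd.intro _ rfl)⟩
  · intro p hp p' hp' h
    rw [Sigma.mk.injEq] at h
    obtain ⟨h3, h4⟩ := h
    have h4' : p.1 = p'.1 := eq_of_heq h4
    rw [mem_filter, mem_product, mem_bl] at hp
    refine Prod.ext h4' ?_
    rw [← h4'] at h3
    exact mul_left_cancel₀ hp.1.1.1 h3
  · rintro ⟨m, b⟩ hx
    rw [mem_sigma] at hx
    obtain ⟨hm, hb⟩ := hx
    have hm0 : m ≠ 0 := ((mem_bl _ _).1 hm).1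
    have hb' : b ∣ m := (mem_Dv hm0).1 hb
    obtain ⟨c, rfl⟩ := hb'
    have hb0 : b ≠ 0 := left_ne_zero_of_mul hm0
    have hc0 : c ≠ 0 := right_ne_zero_of_mul hm0
    have hn := ((mem_bl _ _).1 hm).2
    rw [nz_mul] at hn
    refine ⟨(b, c), ?_, rfl⟩
    rw [mem_filter, mem_product, mem_bl, mem_bl]
    refine ⟨⟨⟨hb0, ?_⟩, hc0, ?_⟩, hm⟩
    · exact (le_mul_of_one_le_right (nz_nonneg b) (nz_one_le hc0)).trans hn
    · exact (le_mul_of_one_le_left (nz_nonneg c) (nz_one_le hb0)).trans hn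
  · intro p _
    rfl

theorem not_mem_mul {V : ℝ} {a m : ZI} (hm : m ∉ bl V) : a * m ∉ bl V := by
  intro h
  rw [mem_bl] at h
  have ha : a ≠ 0 := left_ne_zero_of_mul h.1
  have hm0 : m ≠ 0 := right_ne_zero_of_mul h.1
  apply hm
  rw [mem_bl]
  refine ⟨hm0, ?_⟩
  rw [nz_mul] at h
  exact (le_mul_of_one_le_left (nz_nonneg m) (nz_one_le ha)).trans h.2

theorem nz_unit {u : ZI} (hu : IsUnit u) : nz u = 1 := by
  unfold nz
  have h1 : 0 ≤ Zsqrtd.norm u := GaussianInt.norm_nonneg u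
  have h2 : (Zsqrtd.norm u).natAbs = 1 := Zsqrtd.norm_eq_one_iff.2 hu
  have h3 : Zsqrtd.norm u = 1 := by omega
  rw [h3]
  norm_num

open Classical in
/-- the number of the units is four -/
theorem card_units (hm : S_MUB) : ((bl 1).filter (fun u => IsUnit u)).card = 4 := by
  have h1 := hm.2.2.2.1 1 one_ne_zero
  rw [if_pos isUnit_one] at h1
  have e1 : nz 1 = 1 := nz_unit isUnit_one
  have mu1 : mu 1 = 1 := by
    unfold mu
    rw [if_pos squarefree_one, UniqueFactorizationMonoid.factors_one]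
    simp
  have h2 : ∑ d ∈ (bl (nz 1)).filter (fun d => d ∣ 1), mu d =
      (((bl 1).filter (fun u => IsUnit u)).card : ℝ) := by
    rw [e1, filter_congr (q := fun u => IsUnit u) (fun d _ => isUnit_iff_dvd_one.symm),
      sum_congr rfl (g := fun _ => (1 : ℝ)) ?_, sum_const, nsmul_eq_mul, mul_one]
    intro d hd
    have h3 := hm.2.2.1 d 1 (mem_filter.1 hd).2
    rw [mul_one] at h3
    rw [h3, mu1]
  rw [h2] at h1
  exact_mod_cast h1

/-- a set of Gaussian integers that is invariant under the units -/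
def Uinv (S : Finset ZI) : Prop := ∀ u a : ZI, IsUnit u → a ∈ S → u * a ∈ S

theorem T_units (hm : S_MUB) {V : ℝ} (hV : 1 ≤ V) (F : ZI → ℝ) {S : Finset ZI} (hS : Uinv S) :
    ∑ a ∈ S, mu a * ∑ m ∈ bl V, (∑ b ∈ Dv m, mu b) * F (a * m) = 16 * ∑ a ∈ S, mu a * F a := by
  classical
  have h1 : ∀ a ∈ S, mu a * ∑ m ∈ bl V, (∑ b ∈ Dv m, mu b) * F (a * m) =
      ∑ u ∈ (bl 1).filter (fun u => IsUnit u), 4 * (mu a * F (a * u)) := by
    intro a _
    have h2 : ∀ m ∈ bl V, (∑ b ∈ Dv m, mu b) * F (a * m) = if IsUnit m then 4 * F (a * m) else 0 := by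
      intro m hmV
      have h3 := hm.2.2.2.1 m ((mem_bl _ _).1 hmV).1
      have h4 : ∑ b ∈ Dv m, mu b = if IsUnit m then 4 else 0 := h3
      rw [h4]
      split_ifs
      · rfl
      · rw [zero_mul]
    rw [sum_congr rfl h2, ← sum_filter, mul_sum]
    have h3 : (bl V).filter (fun m => IsUnit m) = (bl 1).filter (fun u => IsUnit u) := by
      ext u
      rw [mem_filter, mem_filter, mem_bl, mem_bl]
      constructor
      · rintro ⟨⟨h5, -⟩, h6⟩
        exact ⟨⟨h5, (nz_unit h6).le⟩, h6⟩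
      · rintro ⟨⟨h5, -⟩, h6⟩
        exact ⟨⟨h5, (nz_unit h6).le.trans hV⟩, h6⟩
    rw [h3]
    exact sum_congr rfl fun u _ => by ring
  rw [sum_congr rfl h1, sum_comm]
  have h2 : ∀ u ∈ (bl 1).filter (fun u => IsUnit u), ∑ a ∈ S, 4 * (mu a * F (a * u)) =
      4 * ∑ a ∈ S, mu a * F a := by
    intro u hu
    have hu' : IsUnit u := (mem_filter.1 hu).2
    obtain ⟨v, hv⟩ := hu'.exists_left_inv
    rw [← mul_sum]
    congr 1
    refine sum_bij' (fun a _ => u * a) (fun a _ => v * a) ?_ ?_ ?_ ?_ ?_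
    · intro a ha
      exact hS u a hu' ha
    · intro a ha
      exact hS v a (IsUnit.of_mul_eq_one _ hv) ha
    · intro a _
      rw [← mul_assoc, hv, one_mul]
    · intro a _
      rw [← mul_assoc, mul_comm u v, hv, one_mul]
    · intro a _
      rw [hm.2.2.1 u a hu', mul_comm u a]
  rw [sum_congr rfl h2, sum_const, card_units hm, nsmul_eq_mul]
  push_cast
  ring

theorem Uinv_bl (V : ℝ) : Uinv (bl V) := by
  intro u a hu ha
  rw [mem_bl] at ha ⊢
  refine ⟨mul_ne_zero hu.ne_zero ha.1, ?_⟩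
  rw [nz_mul, nz_unit hu, one_mul]
  exact ha.2

open Classical in
/-- the large elements -/
noncomputable def bg (w V : ℝ) : Finset ZI := (bl V).filter (fun a => w < nz a)

theorem mem_bg {w V : ℝ} {a : ZI} : a ∈ bg w V ↔ a ≠ 0 ∧ nz a ≤ V ∧ w < nz a := by
  unfold bg
  rw [mem_filter, mem_bl, and_assoc]

theorem Uinv_bg (w V : ℝ) : Uinv (bg w V) := by
  intro u a hu ha
  rw [mem_bg] at ha ⊢
  refine ⟨mul_ne_zero hu.ne_zero ha.1, ?_⟩
  rw [nz_mul, nz_unit hu, one_mul]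
  exact ha.2

/-- the coefficient of the second variable -/
noncomputable def Gw (w : ℝ) (m : ZI) : ℝ := ∑ b ∈ Dv m, if w < nz b then mu b else 0

theorem Gw_le (w : ℝ) (m : ZI) : |Gw w m| ≤ dv m := by
  unfold Gw
  refine (abs_sum_le_sum_abs _ _).trans ?_
  rw [dv_card, ← nsmul_one, ← sum_const]
  refine sum_le_sum fun b _ => ?_
  split_ifs
  · exact abs_mu_le b
  · rw [abs_zero]; exact zero_le_one

theorem sum_split (w V : ℝ) (hw : w ≤ V) (f : ZI → ℝ) :
    ∑ a ∈ bl V, f a = ∑ a ∈ bl w, f a + ∑ a ∈ bg w V, f a := by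
  classical
  rw [← sum_filter_add_sum_filter_not (bl V) (fun a => nz a ≤ w)]
  congr 1
  · refine sum_congr ?_ fun _ _ => rfl
    ext a
    rw [mem_filter, mem_bl, mem_bl]
    constructor
    · rintro ⟨⟨h1, -⟩, h2⟩
      exact ⟨h1, h2⟩
    · rintro ⟨h1, h2⟩
      exact ⟨⟨h1, h2.trans hw⟩, h2⟩
  · refine sum_congr ?_ fun _ _ => rfl
    ext a
    rw [mem_filter, mem_bg, mem_bl, not_le, and_assoc]

/-- **the identity** -/
theorem vid (hm : S_MUB) {w V : ℝ} (hw : 1 ≤ w) (hwV : w ≤ V) (F : ZI → ℝ) (hF : ∀ t, t ∉ bl V → F t = 0) :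
    16 * ∑ t ∈ bl V, mu t * F t = 32 * ∑ t ∈ bl w, mu t * F t -
      ∑ a ∈ bl w, ∑ b ∈ bl w, mu a * mu b * ∑ c ∈ bl V, F (a * b * c) +
      ∑ a ∈ bg w V, ∑ m ∈ bl V, mu a * Gw w m * F (a * m) := by
  classical
  have hV : 1 ≤ V := hw.trans hwV
  set P : ZI → ℝ := fun m => ∑ b ∈ Dv m, if nz b ≤ w then mu b else 0 with hP
  have hPG : ∀ m, Gw w m = (∑ b ∈ Dv m, mu b) - P m := by
    intro m
    rw [hP]
    unfold Gw
    simp only
    rw [← sum_sub_distrib]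
    refine sum_congr rfl fun b _ => ?_
    by_cases h : nz b ≤ w
    · rw [if_neg (not_lt.2 h), if_pos h, sub_self]
    · rw [if_pos (not_le.1 h), if_neg h, sub_zero]
  -- the sum with `P`
  have hQ : ∀ a : ZI, ∑ m ∈ bl V, P m * F (a * m) = ∑ b ∈ bl w, mu b * ∑ c ∈ bl V, F (a * b * c) := by
    intro a
    rw [hP]
    rw [grp2 V (fun b => if nz b ≤ w then mu b else 0) (fun m => F (a * m))
      (fun m hmV => hF _ (not_mem_mul hmV))]
    rw [sum_split w V hwV]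
    have h0 : ∑ b ∈ bg w V, ∑ c ∈ bl V, (if nz b ≤ w then mu b else 0) * F (a * (b * c)) = 0 := by
      refine sum_eq_zero fun b hb => sum_eq_zero fun c _ => ?_
      rw [if_neg (not_le.2 (mem_bg.1 hb).2.2), zero_mul]
    rw [h0, add_zero]
    refine sum_congr rfl fun b hb => ?_
    rw [mul_sum]
    refine sum_congr rfl fun c _ => ?_
    rw [if_pos ((mem_bl _ _).1 hb).2, mul_assoc a b c]
  have h3 : ∑ a ∈ bl V, mu a * ∑ m ∈ bl V, P m * F (a * m) = 16 * ∑ a ∈ bl w, mu a * F a := by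
    rw [← T_units hm hV F (Uinv_bl w)]
    calc ∑ a ∈ bl V, mu a * ∑ m ∈ bl V, P m * F (a * m)
        = ∑ a ∈ bl V, ∑ b ∈ bl w, mu b * ∑ c ∈ bl V, mu a * F (b * (a * c)) := by
          refine sum_congr rfl fun a _ => ?_
          rw [hQ a, mul_sum]
          refine sum_congr rfl fun b _ => ?_
          rw [mul_sum, mul_sum, mul_sum]
          refine sum_congr rfl fun c _ => ?_
          rw [show a * b * c = b * (a * c) by ring]
          ring
      _ = ∑ b ∈ bl w, mu b * ∑ a ∈ bl V, ∑ c ∈ bl V, mu a * F (b * (a * c)) := by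
          rw [sum_comm]
          refine sum_congr rfl fun b _ => ?_
          rw [mul_sum]
      _ = _ := by
          refine sum_congr rfl fun b _ => ?_
          rw [grp2 V mu (fun m => F (b * m)) (fun m hmV => hF _ (not_mem_mul hmV))]
  have h4 : ∑ a ∈ bg w V, ∑ m ∈ bl V, mu a * Gw w m * F (a * m) =
      16 * ∑ a ∈ bg w V, mu a * F a - ∑ a ∈ bg w V, mu a * ∑ m ∈ bl V, P m * F (a * m) := by
    rw [← T_units hm hV F (Uinv_bg w V), ← sum_sub_distrib]
    refine sum_congr rfl fun a _ => ?_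
    rw [← mul_sub, ← sum_sub_distrib, mul_sum]
    refine sum_congr rfl fun m _ => ?_
    rw [hPG m]
    ring
  have h5 := sum_split w V hwV (fun a => mu a * ∑ m ∈ bl V, P m * F (a * m))
  rw [h3] at h5
  have h6 : ∑ a ∈ bl w, mu a * ∑ m ∈ bl V, P m * F (a * m) =
      ∑ a ∈ bl w, ∑ b ∈ bl w, mu a * mu b * ∑ c ∈ bl V, F (a * b * c) := by
    refine sum_congr rfl fun a _ => ?_
    rw [hQ a, mul_sum]
    exact sum_congr rfl fun b _ => by ring
  rw [h6] at h5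
  have h7 := sum_split w V hwV (fun a => mu a * F a)
  rw [h7, h4]
  linarith

end Pool.Agent.N855.GN
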