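import Pool.Agent.N855.GN.Geo

/-!
# Project GN: sectors and phases
-/

set_option autoImplicit false

namespace Pool.Agent.N855.GN

open Finset MeasureTheory
open Pool.Agent.N782.GN

theorem cne {t : ZI} (ht : t ≠ 0) : (t : ℂ) ≠ 0 := fun h => ht (GaussianInt.toComplex_eq_zero.1 h)

theorem nz_norm (z : ZI) : nz z = ‖(z : ℂ)‖ ^ 2 := by
  unfold nz
  rw [GaussianInt.intCast_real_norm, Complex.normSq_eq_norm_sq]

theorem nz_mul (a b : ZI) : nz (a * b) = nz a * nz b := by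
  unfold nz
  rw [Zsqrtd.norm_mul]
  push_cast
  rfl

theorem nz_one_le {z : ZI} (hz : z ≠ 0) : 1 ≤ nz z := by
  unfold nz
  have := GaussianInt.norm_pos.2 hz
  exact_mod_cast this

theorem nz_pos {z : ZI} (hz : z ≠ 0) : 0 < nz z := lt_of_lt_of_le one_pos (nz_one_le hz)

theorem ri_arg (θ : ℝ) (z : ℂ) : ri θ z = ‖z‖ * Real.sin (Complex.arg z - θ) := by
  unfold ri
  rw [Real.sin_sub, mul_sub, ← mul_assoc, ← mul_assoc, Complex.norm_mul_sin_arg, Complex.norm_mul_cos_arg]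

theorem ri_mul (θ : ℝ) (u z : ℂ) : ri θ (u * z) = ‖u‖ * ri (θ - Complex.arg u) z := by
  have h1 : ri (θ - Complex.arg u) z = (z.im * Real.cos θ - z.re * Real.sin θ) * Real.cos (Complex.arg u) +
      (z.re * Real.cos θ + z.im * Real.sin θ) * Real.sin (Complex.arg u) := by
    unfold ri
    rw [Real.sin_sub, Real.cos_sub]
    ring
  rw [h1, mul_add, ← mul_assoc, mul_comm ‖u‖, mul_assoc, Complex.norm_mul_cos_arg, mul_comm ‖u‖, mul_assoc,
    mul_comm _ ‖u‖, Complex.norm_mul_sin_arg]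
  unfold ri
  rw [Complex.mul_im, Complex.mul_re]
  ring

/-- the `x` with `t` in the sector -/
def Es (δ : ℝ) (t : ZI) : Set ℝ :=
  {x | ∃ j : ℤ, x ≤ Complex.arg (t : ℂ) + 2 * Real.pi * j ∧ Complex.arg (t : ℂ) + 2 * Real.pi * j < x + δ}

theorem sc_ind (δ x : ℝ) (t : ZI) : sc δ x t = (Es δ t).indicator (fun _ => (1 : ℝ)) x := by
  classical
  unfold sc
  by_cases h : x ∈ Es δ t
  · rw [Set.indicator_of_mem h]
    exact if_pos h
  · rw [Set.indicator_of_notMem h]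
    exact if_neg h

theorem sc01 (δ x : ℝ) (t : ZI) : sc δ x t = 0 ∨ sc δ x t = 1 := by
  unfold sc
  split_ifs
  · exact Or.inr rfl
  · exact Or.inl rfl

theorem sc_nonneg (δ x : ℝ) (t : ZI) : 0 ≤ sc δ x t := by
  rcases sc01 δ x t with h | h <;> rw [h]
  exact zero_le_one

theorem sc_le (δ x : ℝ) (t : ZI) : sc δ x t ≤ 1 := by
  rcases sc01 δ x t with h | h <;> rw [h]
  exact zero_le_one

theorem sc_sq (δ x : ℝ) (t : ZI) : sc δ x t ^ 2 = sc δ x t := by
  rcases sc01 δ x t with h | h <;> rw [h] <;> norm_num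

theorem Es_eq (δ : ℝ) (t : ZI) : Es δ t =
    ⋃ j : ℤ, Set.Ioc (Complex.arg (t : ℂ) + 2 * Real.pi * j - δ) (Complex.arg (t : ℂ) + 2 * Real.pi * j) := by
  ext x
  unfold Es
  simp only [Set.mem_ofPred_eq, Set.mem_iUnion, Set.mem_Ioc]
  refine exists_congr fun j => ?_
  constructor
  · rintro ⟨h1, h2⟩
    exact ⟨by linarith, h1⟩
  · rintro ⟨h1, h2⟩
    exact ⟨h2, by linarith⟩

theorem Es_meas (δ : ℝ) (t : ZI) : MeasurableSet (Es δ t) := by
  rw [Es_eq]
  exact MeasurableSet.iUnion fun j => measurableSet_Ioc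

theorem sc_meas (δ : ℝ) (t : ZI) : Measurable (fun x => sc δ x t) := by
  have : (fun x => sc δ x t) = (Es δ t).indicator (fun _ => (1 : ℝ)) := by
    ext x
    exact sc_ind δ x t
  rw [this]
  exact measurable_const.indicator (Es_meas δ t)

/-- a bounded measurable function is integrable on the circle -/
theorem bdd_int {f : ℝ → ℝ} (hf : Measurable f) {C : ℝ} (hC : ∀ x, |f x| ≤ C) (a b : ℝ) :
    IntervalIntegrable f volume a b := by
  refine (intervalIntegrable_const (c := C)).mono_fun hf.aestronglyMeasurable ?_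
  refine Filter.Eventually.of_forall fun x => ?_
  change ‖f x‖ ≤ ‖C‖
  rw [Real.norm_eq_abs, Real.norm_eq_abs]
  exact (hC x).trans (le_abs_self C)

theorem sum_sc_meas (δ : ℝ) (S : Finset ZI) (c : ZI → ℝ) : Measurable (fun x => ∑ t ∈ S, c t * sc δ x t) :=
  Finset.measurable_sum S fun t _ => (sc_meas δ t).const_mul (c t)

theorem sum_sc_bdd (δ : ℝ) (S : Finset ZI) (c : ZI → ℝ) (x : ℝ) :
    |∑ t ∈ S, c t * sc δ x t| ≤ ∑ t ∈ S, |c t| := by
  refine (abs_sum_le_sum_abs _ _).trans (sum_le_sum fun t _ => ?_)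
  rw [abs_mul, abs_of_nonneg (sc_nonneg δ x t)]
  exact mul_le_of_le_one_right (abs_nonneg _) (sc_le δ x t)

theorem int_sum_sc (δ : ℝ) (S : Finset ZI) (c : ZI → ℝ) (a b : ℝ) :
    IntervalIntegrable (fun x => ∑ t ∈ S, c t * sc δ x t) volume a b :=
  bdd_int (sum_sc_meas δ S c) (sum_sc_bdd δ S c) a b

theorem int_sum_sc_sq (δ : ℝ) (S : Finset ZI) (c : ZI → ℝ) (a b : ℝ) :
    IntervalIntegrable (fun x => (∑ t ∈ S, c t * sc δ x t) ^ 2) volume a b := by
  refine bdd_int ((sum_sc_meas δ S c).pow_const 2) (C := (∑ t ∈ S, |c t|) ^ 2) (fun x => ?_) a b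
  rw [abs_pow]
  exact pow_le_pow_left₀ (abs_nonneg _) (sum_sc_bdd δ S c x) 2

theorem integral_sc (δ : ℝ) (t : ZI) :
    ∫ x in (0 : ℝ)..(2 * Real.pi), sc δ x t = volume.real (Es δ t ∩ Set.Ioc 0 (2 * Real.pi)) := by
  have : (fun x => sc δ x t) = (Es δ t).indicator (fun _ => (1 : ℝ)) := by
    ext x
    exact sc_ind δ x t
  rw [this, intervalIntegral.integral_of_le (by positivity), ← integral_indicator measurableSet_Ioc,
    Set.indicator_indicator, Set.inter_comm]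
  exact integral_indicator_one ((Es_meas δ t).inter measurableSet_Ioc)

theorem integral_sc_le {δ : ℝ} (h0 : 0 < δ) (h1 : δ ≤ 1) (t : ZI) :
    ∫ x in (0 : ℝ)..(2 * Real.pi), sc δ x t ≤ 2 * δ := by
  rw [integral_sc]
  set θ := Complex.arg (t : ℂ) with hθ
  have hθ1 : -Real.pi < θ := Complex.neg_pi_lt_arg _
  have hθ2 : θ ≤ Real.pi := Complex.arg_le_pi _
  have hpi := Real.pi_gt_three
  have hsub : Es δ t ∩ Set.Ioc 0 (2 * Real.pi) ⊆
      Set.Ioc (θ - δ) θ ∪ Set.Ioc (θ + 2 * Real.pi - δ) (θ + 2 * Real.pi) := by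
    rintro x ⟨⟨j, hj1, hj2⟩, hx1, hx2⟩
    rw [← hθ] at hj1 hj2
    have h2 : (-1 : ℝ) < j := by
      by_contra h
      push Not at h
      nlinarith
    have h3 : (j : ℝ) < 2 := by
      by_contra h
      push Not at h
      nlinarith
    have h2' : (-1 : ℤ) < j := by exact_mod_cast h2
    have h3' : j < 2 := by exact_mod_cast h3
    have h4 : j = 0 ∨ j = 1 := by omega
    rcases h4 with rfl | rfl
    · left
      rw [Int.cast_zero, mul_zero, add_zero] at hj1 hj2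
      exact ⟨by linarith, hj1⟩
    · right
      rw [Int.cast_one, mul_one] at hj1 hj2
      exact ⟨by linarith, hj1⟩
  have h5 := (measureReal_mono (μ := volume) hsub (by
    exact (measure_union_lt_top measure_Ioc_lt_top measure_Ioc_lt_top).ne)).trans (measureReal_union_le _ _)
  rw [Real.volume_real_Ioc_of_le (by linarith), Real.volume_real_Ioc_of_le (by linarith)] at h5
  linarith

theorem integral_sc_ge {δ : ℝ} (h0 : 0 < δ) (h1 : δ ≤ 1) (t : ZI) :
    δ / 2 ≤ ∫ x in (0 : ℝ)..(2 * Real.pi), sc δ x t := by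
  rw [integral_sc]
  set θ := Complex.arg (t : ℂ) with hθ
  have hθ1 : -Real.pi < θ := Complex.neg_pi_lt_arg _
  have hθ2 : θ ≤ Real.pi := Complex.arg_le_pi _
  have hpi := Real.pi_gt_three
  have hf : volume (Es δ t ∩ Set.Ioc 0 (2 * Real.pi)) ≠ ⊤ :=
    ne_top_of_le_ne_top measure_Ioc_lt_top.ne (measure_mono Set.inter_subset_right)
  rcases le_or_gt (δ / 2) θ with h | h
  · have hsub : Set.Ioc (θ - δ / 2) θ ⊆ Es δ t ∩ Set.Ioc 0 (2 * Real.pi) := by
      rintro x ⟨h2, h3⟩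
      refine ⟨⟨0, ?_, ?_⟩, ?_, ?_⟩
      · rw [Int.cast_zero, mul_zero, add_zero]; exact h3
      · rw [Int.cast_zero, mul_zero, add_zero, ← hθ]; linarith
      · linarith
      · linarith
    have h5 := measureReal_mono (μ := volume) hsub hf
    rw [Real.volume_real_Ioc_of_le (by linarith)] at h5
    linarith
  · have hsub : Set.Ioc (θ + 2 * Real.pi - δ) (θ + 2 * Real.pi - δ / 2) ⊆ Es δ t ∩ Set.Ioc 0 (2 * Real.pi) := by
      rintro x ⟨h2, h3⟩
      refine ⟨⟨1, ?_, ?_⟩, ?_, ?_⟩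
      · rw [Int.cast_one, mul_one, ← hθ]; linarith
      · rw [Int.cast_one, mul_one, ← hθ]; linarith
      · linarith
      · linarith
    have h5 := measureReal_mono (μ := volume) hsub hf
    rw [Real.volume_real_Ioc_of_le (by linarith)] at h5
    linarith

/-- the sector in terms of half planes -/
theorem sc_iff {δ : ℝ} (h0 : 0 < δ) (h1 : δ ≤ 1) (x : ℝ) {t : ZI} (ht : t ≠ 0) :
    sc δ x t = 1 ↔ 0 ≤ ri x t ∧ ri (x + δ) t < 0 := by
  have hn : 0 < ‖(t : ℂ)‖ := norm_pos_iff.2 (cne ht)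
  have hpi := Real.pi_gt_three
  rw [ri_arg, ri_arg]
  set θ := Complex.arg (t : ℂ) with hθ
  have e1 : sc δ x t = 1 ↔ x ∈ Es δ t := by
    rw [sc_ind]
    by_cases h : x ∈ Es δ t
    · rw [Set.indicator_of_mem h]; simp [h]
    · rw [Set.indicator_of_notMem h]; simp [h]
  rw [e1, mul_nonneg_iff_of_pos_left hn, mul_neg_iff]
  have e2 : (0 < ‖(t : ℂ)‖ ∧ Real.sin (θ - (x + δ)) < 0 ∨ ‖(t : ℂ)‖ < 0 ∧ 0 < Real.sin (θ - (x + δ))) ↔
      Real.sin (θ - (x + δ)) < 0 := by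
    constructor
    · rintro (h | h)
      · exact h.2
      · exact absurd h.1 (by linarith)
    · intro h
      exact Or.inl ⟨hn, h⟩
  rw [e2]
  constructor
  · rintro ⟨j, hj1, hj2⟩
    rw [← hθ] at hj1 hj2
    have h3 : Real.sin (θ - x) = Real.sin (θ - x + j * (2 * Real.pi)) := (Real.sin_add_int_mul_two_pi _ _).symm
    have h4 : Real.sin (θ - (x + δ)) = Real.sin (θ - (x + δ) + j * (2 * Real.pi)) :=
      (Real.sin_add_int_mul_two_pi _ _).symm
    rw [h3, h4]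
    constructor
    · apply Real.sin_nonneg_of_nonneg_of_le_pi <;> linarith
    · apply Real.sin_neg_of_neg_of_neg_pi_lt <;> linarith
  · rintro ⟨h3, h4⟩
    have hp : (0 : ℝ) < 2 * Real.pi := by positivity
    set j : ℤ := -⌊(θ - x) / (2 * Real.pi)⌋ with hj
    have h5 := Int.floor_le ((θ - x) / (2 * Real.pi))
    have h6 := Int.lt_floor_add_one ((θ - x) / (2 * Real.pi))
    rw [le_div_iff₀ hp] at h5
    rw [div_lt_iff₀ hp] at h6
    have hjc : (j : ℝ) = -(⌊(θ - x) / (2 * Real.pi)⌋ : ℝ) := by rw [hj]; push_cast; rfl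
    have h7 : 0 ≤ θ - x + j * (2 * Real.pi) := by rw [hjc]; linarith
    have h8 : θ - x + j * (2 * Real.pi) < 2 * Real.pi := by rw [hjc]; linarith
    rw [← Real.sin_add_int_mul_two_pi _ j] at h3 h4
    have h9 : θ - x + j * (2 * Real.pi) ≤ Real.pi := by
      by_contra h
      push Not at h
      have := Real.sin_neg_of_neg_of_neg_pi_lt (x := θ - x + j * (2 * Real.pi) - 2 * Real.pi)
        (by linarith) (by linarith)
      rw [Real.sin_sub_two_pi] at this
      linarith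
    refine ⟨j, ?_, ?_⟩
    · rw [← hθ]; linarith
    · rw [← hθ]
      by_contra h
      push Not at h
      have := Real.sin_nonneg_of_nonneg_of_le_pi (x := θ - (x + δ) + j * (2 * Real.pi))
        (by linarith) (by linarith)
      linarith

theorem mem_SD_mul {x δ R1 R2 : ℝ} {u : ZI} (hu : u ≠ 0) (c : ZI) :
    ((u * c : ZI) : ℂ) ∈ SD x δ R1 R2 ↔
      (c : ℂ) ∈ SD (x - Complex.arg (u : ℂ)) δ (R1 / ‖(u : ℂ)‖) (R2 / ‖(u : ℂ)‖) := by
  have hn : 0 < ‖(u : ℂ)‖ := norm_pos_iff.2 (cne hu)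
  unfold SD
  simp only [Set.mem_ofPred_eq]
  rw [GaussianInt.toComplex_mul, ri_mul, ri_mul, norm_mul, div_lt_iff₀ hn, le_div_iff₀ hn,
    mul_nonneg_iff_of_pos_left hn, mul_comm ‖(u : ℂ)‖ ‖(c : ℂ)‖,
    show x - Complex.arg (u : ℂ) + δ = x + δ - Complex.arg (u : ℂ) by ring]
  have : ‖(u : ℂ)‖ * ri (x + δ - Complex.arg (u : ℂ)) (c : ℂ) < 0 ↔
      ri (x + δ - Complex.arg (u : ℂ)) (c : ℂ) < 0 := by
    constructor
    · intro h
      by_contra h'
      push Not at h'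
      have := mul_nonneg hn.le h'
      linarith
    · intro h
      exact mul_neg_of_pos_of_neg hn h
  rw [this]

theorem ph_eq (k : ℤ) {z : ZI} (hz : z ≠ 0) : ph k 0 z = ((z : ℂ) / (‖(z : ℂ)‖ : ℂ)) ^ k := by
  unfold ph
  have h1 : (z : ℂ) / (‖(z : ℂ)‖ : ℂ) = Complex.exp (Complex.arg (z : ℂ) * Complex.I) := by
    rw [div_eq_iff (by exact_mod_cast (norm_pos_iff.2 (cne hz)).ne'), mul_comm]
    exact (Complex.norm_mul_exp_arg_mul_I _).symm
  rw [h1, ← Complex.exp_int_mul]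
  congr 1
  push_cast
  ring

theorem ph_mul (k : ℤ) {a b : ZI} (ha : a ≠ 0) (hb : b ≠ 0) : ph k 0 (a * b) = ph k 0 a * ph k 0 b := by
  rw [ph_eq k ha, ph_eq k hb, ph_eq k (mul_ne_zero ha hb), ← mul_zpow, GaussianInt.toComplex_mul, norm_mul]
  push_cast
  rw [mul_div_mul_comm]

end Pool.Agent.N855.GN
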