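import Pool.Agent.N855.GN.TypI

/-!
# Project GN: tools for the sums of type II
-/

set_option autoImplicit false

namespace Pool.Agent.N855.GN

open Finset MeasureTheory Filter Topology
open Pool.Agent.N782.GN

theorem one_le_log {V : ℝ} (h : 3 ≤ V) : 1 ≤ Real.log V := by
  rw [Real.le_log_iff_exp_le (by linarith)]
  linarith [Real.exp_one_lt_d9]

/-- powers of the logarithm -/
theorem logpow (n : ℕ) {s c : ℝ} (hs : 0 < s) (hc : 0 < c) :
    ∀ᶠ V : ℝ in atTop, (Real.log V) ^ n ≤ c * V ^ s := by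
  have h1 := isLittleO_log_rpow_rpow_atTop (n : ℝ) hs
  filter_upwards [h1.def hc, eventually_ge_atTop 3] with V hV h3
  have h4 : 0 ≤ Real.log V := by linarith [one_le_log h3]
  rw [Real.norm_of_nonneg (Real.rpow_nonneg h4 _), Real.norm_of_nonneg (Real.rpow_nonneg (by linarith) _),
    Real.rpow_natCast] at hV
  exact hV

theorem sum_inv (s : ℕ) : ∑ x ∈ Icc (-(s : ℤ)) s, 1 / (1 + |(x : ℝ)|) ≤ 2 * (1 + Real.log (s + 1)) := by
  classical
  have h1 : ∑ n ∈ range (s + 1), 1 / (1 + (n : ℝ)) ≤ 1 + Real.log (s + 1) := by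
    have h2 := harmonic_le_one_add_log (s + 1)
    unfold harmonic at h2
    push_cast at h2
    refine le_trans (le_of_eq ?_) h2
    refine sum_congr rfl fun n _ => ?_
    rw [one_div, add_comm]
  have h2 : Icc (-(s : ℤ)) s ⊆ (range (s + 1)).image (fun n : ℕ => (n : ℤ)) ∪
      (range (s + 1)).image (fun n : ℕ => -(n : ℤ)) := by
    intro x hx
    rw [mem_Icc] at hx
    rw [mem_union, mem_image, mem_image]
    rcases le_total 0 x with h | h
    · left
      refine ⟨x.natAbs, ?_, ?_⟩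
      · rw [mem_range]; omega
      · omega
    · right
      refine ⟨x.natAbs, ?_, ?_⟩
      · rw [mem_range]; omega
      · omega
  refine (sum_le_sum_of_subset_of_nonneg h2 fun x _ _ => by positivity).trans ?_
  have h3 := sum_union_inter (s₁ := (range (s + 1)).image (fun n : ℕ => (n : ℤ)))
    (s₂ := (range (s + 1)).image (fun n : ℕ => -(n : ℤ))) (f := fun x : ℤ => 1 / (1 + |(x : ℝ)|))
  have h4 : 0 ≤ ∑ x ∈ (range (s + 1)).image (fun n : ℕ => (n : ℤ)) ∩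
      (range (s + 1)).image (fun n : ℕ => -(n : ℤ)), 1 / (1 + |(x : ℝ)|) := sum_nonneg fun x _ => by positivity
  · have e1 : ∑ x ∈ (range (s + 1)).image (fun n : ℕ => (n : ℤ)), 1 / (1 + |(x : ℝ)|) =
        ∑ n ∈ range (s + 1), 1 / (1 + (n : ℝ)) := by
      rw [sum_image (fun a _ b _ h => by simpa using h)]
      refine sum_congr rfl fun n _ => ?_
      rw [Int.cast_natCast, abs_of_nonneg (Nat.cast_nonneg n)]
    have e2 : ∑ x ∈ (range (s + 1)).image (fun n : ℕ => -(n : ℤ)), 1 / (1 + |(x : ℝ)|) =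
        ∑ n ∈ range (s + 1), 1 / (1 + (n : ℝ)) := by
      rw [sum_image (fun a _ b _ h => by simpa using h)]
      refine sum_congr rfl fun n _ => ?_
      rw [Int.cast_neg, Int.cast_natCast, abs_neg, abs_of_nonneg (Nat.cast_nonneg n)]
    rw [e1, e2] at h3
    linarith

theorem sum_inv_nz {V : ℝ} (hV : 3 ≤ V) : ∑ c ∈ bl V, 1 / nz c ≤ 48 * (Real.log V) ^ 2 := by
  classical
  set s := ⌊Real.sqrt V⌋₊ with hs
  have hL := one_le_log hV
  have h1 : ∀ c ∈ bl V, 1 / nz c ≤ 3 * ((1 / (1 + |(c.re : ℝ)|)) * (1 / (1 + |(c.im : ℝ)|))) := by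
    intro c hc
    have hc0 := ((mem_bl _ _).1 hc).1
    have h2 := nz_one_le hc0
    have h3 : (1 + |(c.re : ℝ)|) * (1 + |(c.im : ℝ)|) ≤ 3 * nz c := by
      have h4 := nz_eq c
      have h5 := sq_abs (c.re : ℝ)
      have h6 := sq_abs (c.im : ℝ)
      nlinarith [sq_nonneg (|(c.re : ℝ)| - |(c.im : ℝ)|), sq_nonneg (|(c.re : ℝ)| - 1),
        sq_nonneg (|(c.im : ℝ)| - 1)]
    have h7 : 0 < (1 + |(c.re : ℝ)|) * (1 + |(c.im : ℝ)|) := by positivity
    rw [one_div_mul_one_div, mul_one_div, div_le_div_iff₀ (nz_pos hc0) h7]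
    linarith
  refine (sum_le_sum h1).trans ?_
  rw [← mul_sum]
  have h2 : ∑ c ∈ bl V, (1 / (1 + |(c.re : ℝ)|)) * (1 / (1 + |(c.im : ℝ)|)) ≤
      ∑ p ∈ (Icc (-(s : ℤ)) s) ×ˢ (Icc (-(s : ℤ)) s), (1 / (1 + |(p.1 : ℝ)|)) * (1 / (1 + |(p.2 : ℝ)|)) := by
    have h3 : ∑ c ∈ bl V, (1 / (1 + |(c.re : ℝ)|)) * (1 / (1 + |(c.im : ℝ)|)) =
        ∑ p ∈ (bl V).image (fun c : ZI => (c.re, c.im)), (1 / (1 + |(p.1 : ℝ)|)) * (1 / (1 + |(p.2 : ℝ)|)) := by
      rw [sum_image]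
      intro a _ b _ h
      rw [Prod.mk.injEq] at h
      exact Zsqrtd.ext h.1 h.2
    rw [h3]
    refine sum_le_sum_of_subset_of_nonneg ?_ fun p _ _ => by positivity
    intro p hp
    rw [mem_image] at hp
    obtain ⟨c, hc, rfl⟩ := hp
    unfold bl at hc
    rw [mem_filter, mem_image] at hc
    obtain ⟨⟨p, hp, rfl⟩, -⟩ := hc
    exact hp
  have e0 : ∑ p ∈ (Icc (-(s : ℤ)) s) ×ˢ (Icc (-(s : ℤ)) s), (1 / (1 + |(p.1 : ℝ)|)) * (1 / (1 + |(p.2 : ℝ)|)) =
      (∑ x ∈ Icc (-(s : ℤ)) s, 1 / (1 + |(x : ℝ)|)) * (∑ x ∈ Icc (-(s : ℤ)) s, 1 / (1 + |(x : ℝ)|)) := by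
    rw [sum_mul_sum, ← sum_product']
  rw [e0] at h2
  have h3 := sum_inv s
  have h4 : Real.log (s + 1) ≤ Real.log V := by
    apply Real.log_le_log (by positivity)
    have h5 := Nat.floor_le (Real.sqrt_nonneg V)
    have h6 : Real.sqrt V * Real.sqrt V = V := Real.mul_self_sqrt (by linarith)
    have h7 : (1.7 : ℝ) ≤ Real.sqrt V := by
      apply Real.le_sqrt_of_sq_le
      norm_num
      linarith
    rw [← hs] at h5
    nlinarith
  have h5 : ∑ x ∈ Icc (-(s : ℤ)) s, 1 / (1 + |(x : ℝ)|) ≤ 4 * Real.log V := by linarith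
  have h6 : 0 ≤ ∑ x ∈ Icc (-(s : ℤ)) s, 1 / (1 + |(x : ℝ)|) := sum_nonneg fun x _ => by positivity
  have h7 := mul_le_mul h5 h5 h6 (by positivity)
  linarith

theorem dv_zero : dv 0 = 0 := by
  classical
  unfold dv
  rw [card_eq_zero, filter_eq_empty_iff]
  intro d hd
  rw [mem_bl] at hd
  have h1 : nz (0 : ZI) = 0 := by unfold nz; simp
  rw [h1] at hd
  exact absurd (nz_one_le hd.1) (by linarith [hd.2])

/-- the fourth moment of the divisor function -/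
theorem dv_moment (h3 : S_LSB) (h4 : S_FT) : ∃ (C : ℝ) (D : ℕ), 0 < C ∧ ∀ V : ℝ, 3 ≤ V →
    ∑ t ∈ bl V, (dv t : ℝ) ^ 4 ≤ C * V * (Real.log V) ^ D := by
  obtain ⟨C2, D2, hC2, h3⟩ := h3
  obtain ⟨C1, D1, hC1, h4⟩ := h4
  refine ⟨2 * C1 * (3 * C2 + 2), D1 + D2, by positivity, ?_⟩
  intro V hV
  have hV0 : (0 : ℝ) < V := by linarith
  have hL := one_le_log hV
  set K := ⌈V⌉₊ with hK
  have hK1 : V ≤ K := Nat.le_ceil V
  have hK2 : (K : ℝ) ≤ 2 * V := by
    have := Nat.ceil_lt_add_one hV0.le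
    linarith
  have hK3 : 1 ≤ K := by
    have : (1 : ℝ) ≤ K := by linarith
    exact_mod_cast this
  have hKp : (0 : ℝ) < K := by linarith
  have a1 := h3 V K (fun t => (((dv t : ℝ) ^ 2 : ℝ) : ℂ)) (by linarith) hK3 (fun t => by
    rw [Complex.norm_real, Real.norm_of_nonneg (by positivity)])
  have a2 := h4 V (1 / V) K (fun t => (dv t : ℝ) ^ 2) (by linarith) (by positivity)
    (by rw [div_le_one hV0]; linarith) hK3 (fun t => by rw [abs_of_nonneg (by positivity)])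
  have a3 : ∑ t ∈ bl V, (dv t : ℝ) ^ 4 * (1 / V / 2) ≤
      ∫ x in (0 : ℝ)..(2 * Real.pi), (∑ t ∈ bl V, (dv t : ℝ) ^ 2 * sc (1 / V) x t) ^ 2 := by
    calc ∑ t ∈ bl V, (dv t : ℝ) ^ 4 * (1 / V / 2)
        ≤ ∑ t ∈ bl V, (dv t : ℝ) ^ 4 * ∫ x in (0 : ℝ)..(2 * Real.pi), sc (1 / V) x t := by
          refine sum_le_sum fun t _ => mul_le_mul_of_nonneg_left ?_ (by positivity)
          exact integral_sc_ge (by positivity) (by rw [div_le_one hV0]; linarith) t
      _ = ∫ x in (0 : ℝ)..(2 * Real.pi), ∑ t ∈ bl V, (dv t : ℝ) ^ 4 * sc (1 / V) x t := by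
          rw [intervalIntegral.integral_finsetSum]
          · exact sum_congr rfl fun t _ => (intervalIntegral.integral_const_mul _ _).symm
          · intro t _
            refine bdd_int ((sc_meas (1 / V) t).const_mul _) (C := (dv t : ℝ) ^ 4) (fun x => ?_) _ _
            rw [abs_mul, abs_of_nonneg (sc_nonneg _ x t), abs_of_nonneg (by positivity)]
            exact mul_le_of_le_one_right (by positivity) (sc_le _ x t)
      _ ≤ _ := by
          apply intervalIntegral.integral_mono_on (by positivity) (int_sum_sc _ _ _ _ _) (int_sum_sc_sq _ _ _ _ _)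
          intro x _
          refine le_trans (le_of_eq ?_) (sum_sq_le_sq_sum_of_nonneg
            (f := fun t => (dv t : ℝ) ^ 2 * sc (1 / V) x t) (s := bl V)
            fun t _ => mul_nonneg (by positivity) (sc_nonneg _ x t))
          refine sum_congr rfl fun t _ => ?_
          rw [mul_pow, sc_sq, ← pow_mul]
  have a4 := a3.trans a2
  rw [← sum_mul] at a4
  set Sk := ∑ k ∈ Icc (-(K : ℤ)) K, ‖∑ t ∈ bl V, (((dv t : ℝ) ^ 2 : ℝ) : ℂ) * ph k 0 t‖ ^ 2 with hSk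
  have b1 : (1 / V) ^ 2 * Sk ≤ 3 * C2 * (Real.log V) ^ (D1 + D2) := by
    have c1 : C2 * (K + V) * V * (Real.log V) ^ D2 ≤ C2 * (3 * V) * V * (Real.log V) ^ D2 := by
      apply mul_le_mul_of_nonneg_right _ (by positivity)
      apply mul_le_mul_of_nonneg_right _ hV0.le
      apply mul_le_mul_of_nonneg_left _ hC2.le
      linarith
    calc (1 / V) ^ 2 * Sk ≤ (1 / V) ^ 2 * (C2 * (3 * V) * V * (Real.log V) ^ D2) :=
          mul_le_mul_of_nonneg_left (a1.trans c1) (by positivity)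
      _ = 3 * C2 * (Real.log V) ^ D2 := by field_simp
      _ ≤ 3 * C2 * (Real.log V) ^ (D1 + D2) := by
          apply mul_le_mul_of_nonneg_left _ (by positivity)
          exact pow_le_pow_right₀ hL (by omega)
  have b2 : V * (Real.log V) ^ D1 * (1 / K + V / K ^ 2) ≤ 2 * (Real.log V) ^ (D1 + D2) := by
    have c1 : 1 / (K : ℝ) ≤ 1 / V := one_div_le_one_div_of_le hV0 hK1
    have c2 : V / (K : ℝ) ^ 2 ≤ 1 / V := by
      rw [div_le_div_iff₀ (by positivity) hV0]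
      nlinarith
    calc V * (Real.log V) ^ D1 * (1 / K + V / K ^ 2) ≤ V * (Real.log V) ^ D1 * (1 / V + 1 / V) :=
          mul_le_mul_of_nonneg_left (add_le_add c1 c2) (by positivity)
      _ = 2 * (Real.log V) ^ D1 := by field_simp; ring
      _ ≤ 2 * (Real.log V) ^ (D1 + D2) := by
          apply mul_le_mul_of_nonneg_left _ (by positivity)
          exact pow_le_pow_right₀ hL (by omega)
  have b3 : (∑ t ∈ bl V, (dv t : ℝ) ^ 4) * (1 / V / 2) ≤ C1 * (3 * C2 + 2) * (Real.log V) ^ (D1 + D2) := by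
    refine a4.trans ?_
    rw [mul_assoc C1]
    apply mul_le_mul_of_nonneg_left _ hC1.le
    linarith
  have b4 : (∑ t ∈ bl V, (dv t : ℝ) ^ 4) = ((∑ t ∈ bl V, (dv t : ℝ) ^ 4) * (1 / V / 2)) * (2 * V) := by
    field_simp
  rw [b4]
  calc (∑ t ∈ bl V, (dv t : ℝ) ^ 4) * (1 / V / 2) * (2 * V)
      ≤ C1 * (3 * C2 + 2) * (Real.log V) ^ (D1 + D2) * (2 * V) := mul_le_mul_of_nonneg_right b3 (by positivity)
    _ = _ := by ring

/-- the hypothesis on the classes, in terms of `V` -/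
theorem pcw (h1 : S_PC) {ε : ℝ} (hε : 0 < ε) (A B : ℕ) : ∃ C : ℝ, 0 < C ∧ ∀ᶠ V : ℝ in atTop,
    ∀ (Z : ℝ) (q : ℕ) (r : ZI) (k : ℤ), V ^ (ε / 8) ≤ Z → 1 ≤ q → (q : ℝ) ≤ (Real.log V) ^ B →
      IsCoprime r ((q : ℕ) : ZI) → |(k : ℝ)| ≤ V →
      ‖∑ t ∈ cls q r Z, (mu t : ℂ) * ph k 0 t‖ ≤ C * Z / (Real.log V) ^ A := by
  obtain ⟨C, hC, h1⟩ := h1 A (B + 1) ⌈8 / ε⌉₊
  refine ⟨C / (ε / 8) ^ A, by positivity, ?_⟩
  have e1 : ∀ᶠ V : ℝ in atTop, (8 / ε) ^ (B + 1) ≤ Real.log V := Real.tendsto_log_atTop.eventually_ge_atTop _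
  have e2 : ∀ᶠ V : ℝ in atTop, 2 ≤ V ^ (ε / 8) := (tendsto_rpow_atTop (by positivity)).eventually_ge_atTop _
  filter_upwards [e1, e2, eventually_ge_atTop 3] with V hV1 hV2 hV3
  intro Z q r k hZ hq hqB hr hk
  have hL := one_le_log hV3
  have hV0 : 0 < V := by linarith
  have hZ2 : 2 ≤ Z := hV2.trans hZ
  have hZ0 : 0 < Z := by linarith
  have hlZ : ε / 8 * Real.log V ≤ Real.log Z := by
    rw [← Real.log_rpow hV0]
    exact Real.log_le_log (by linarith) hZ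
  have b1 : (q : ℝ) ≤ (Real.log Z) ^ (B + 1) := by
    refine hqB.trans ?_
    have c1 : (Real.log V) ^ B ≤ (ε / 8 * Real.log V) ^ (B + 1) := by
      rw [mul_pow, pow_succ (Real.log V) B]
      have c2 : 1 ≤ (ε / 8) ^ (B + 1) * Real.log V := by
        have c3 : (ε / 8) ^ (B + 1) * (8 / ε) ^ (B + 1) = 1 := by
          rw [← mul_pow]
          have : ε / 8 * (8 / ε) = 1 := by field_simp
          rw [this, one_pow]
        rw [← c3]
        exact mul_le_mul_of_nonneg_left hV1 (by positivity)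
      calc (Real.log V) ^ B = (Real.log V) ^ B * 1 := (mul_one _).symm
        _ ≤ (Real.log V) ^ B * ((ε / 8) ^ (B + 1) * Real.log V) := mul_le_mul_of_nonneg_left c2 (by positivity)
        _ = _ := by ring
    exact c1.trans (pow_le_pow_left₀ (by positivity) hlZ _)
  have b2 : |(k : ℝ)| ≤ Z ^ ⌈8 / ε⌉₊ := by
    refine hk.trans ?_
    have c1 : V = (V ^ (ε / 8)) ^ (8 / ε) := by
      rw [← Real.rpow_mul hV0.le]
      have : ε / 8 * (8 / ε) = 1 := by field_simp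
      rw [this, Real.rpow_one]
    calc V = (V ^ (ε / 8)) ^ (8 / ε) := c1
      _ ≤ Z ^ (8 / ε) := Real.rpow_le_rpow (by positivity) hZ (by positivity)
      _ ≤ Z ^ ((⌈8 / ε⌉₊ : ℕ) : ℝ) := Real.rpow_le_rpow_of_exponent_le (by linarith) (Nat.le_ceil _)
      _ = Z ^ ⌈8 / ε⌉₊ := Real.rpow_natCast _ _
  refine (h1 Z q r k hZ2 hq b1 hr b2).trans ?_
  have c1 : (ε / 8 * Real.log V) ^ A ≤ (Real.log Z) ^ A := pow_le_pow_left₀ (by positivity) hlZ _
  calc C * Z / (Real.log Z) ^ A ≤ C * Z / (ε / 8 * Real.log V) ^ A :=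
        div_le_div_of_nonneg_left (by positivity) (by positivity) c1
    _ = C / (ε / 8) ^ A * Z / (Real.log V) ^ A := by
        rw [mul_pow]
        field_simp

open Classical in
theorem p0bw (h2 : S_P0B) {ε : ℝ} (hε : 0 < ε) (A B : ℕ) : ∃ C : ℝ, 0 < C ∧ ∀ᶠ V : ℝ in atTop,
    ∀ q : ℕ, 1 ≤ q → (q : ℝ) ≤ (Real.log V) ^ B →
      |∑ a ∈ (bl (V ^ (ε / 8))).filter (fun a => IsCoprime a ((q : ℕ) : ZI)), mu a / nz a| ≤
        C / (Real.log V) ^ A := by
  obtain ⟨C, hC, h2⟩ := h2 A (B + 1)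
  refine ⟨C / (ε / 8) ^ A, by positivity, ?_⟩
  have e1 : ∀ᶠ V : ℝ in atTop, (8 / ε) ^ (B + 1) ≤ Real.log V := Real.tendsto_log_atTop.eventually_ge_atTop _
  have e2 : ∀ᶠ V : ℝ in atTop, 2 ≤ V ^ (ε / 8) := (tendsto_rpow_atTop (by positivity)).eventually_ge_atTop _
  filter_upwards [e1, e2, eventually_ge_atTop 3] with V hV1 hV2 hV3
  intro q hq hqB
  have hL := one_le_log hV3
  have hV0 : 0 < V := by linarith
  have hlZ : Real.log (V ^ (ε / 8)) = ε / 8 * Real.log V := Real.log_rpow hV0 _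
  have b1 : (q : ℝ) ≤ (Real.log (V ^ (ε / 8))) ^ (B + 1) := by
    refine hqB.trans ?_
    rw [hlZ, mul_pow, pow_succ (Real.log V) B]
    have c2 : 1 ≤ (ε / 8) ^ (B + 1) * Real.log V := by
      have c3 : (ε / 8) ^ (B + 1) * (8 / ε) ^ (B + 1) = 1 := by
        rw [← mul_pow]
        have : ε / 8 * (8 / ε) = 1 := by field_simp
        rw [this, one_pow]
      rw [← c3]
      exact mul_le_mul_of_nonneg_left hV1 (by positivity)
    calc (Real.log V) ^ B = (Real.log V) ^ B * 1 := (mul_one _).symm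
      _ ≤ (Real.log V) ^ B * ((ε / 8) ^ (B + 1) * Real.log V) := mul_le_mul_of_nonneg_left c2 (by positivity)
      _ = _ := by ring
  have b2 := (h2 (V ^ (ε / 8)) q hV2 hq b1).2
  rw [hlZ] at b2
  refine b2.trans (le_of_eq ?_)
  rw [mul_pow]
  field_simp

end Pool.Agent.N855.GN
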