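import Pool.Agent.N855.GN.Idn

/-!
# Project GN: the sums of type I
-/

set_option autoImplicit false

namespace Pool.Agent.N855.GN

open Finset MeasureTheory
open Pool.Agent.N782.GN

theorem card_bl {X : ℝ} (hX : 1 ≤ X) : ((bl X).card : ℝ) ≤ 9 * X := by
  classical
  have h1 : (bl X).card ≤ (2 * ⌊Real.sqrt X⌋₊ + 1) ^ 2 := by
    unfold bl
    refine (card_filter_le _ _).trans (card_image_le.trans ?_)
    rw [card_product, Int.card_Icc, sq]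
    apply le_of_eq
    congr 1 <;> omega
  have h2 : ((2 * ⌊Real.sqrt X⌋₊ + 1 : ℕ) : ℝ) ≤ 3 * Real.sqrt X := by
    push_cast
    have h3 := Nat.floor_le (Real.sqrt_nonneg X)
    have h4 : 1 ≤ Real.sqrt X := Real.one_le_sqrt.2 hX
    linarith
  have h3 : ((bl X).card : ℝ) ≤ ((2 * ⌊Real.sqrt X⌋₊ + 1 : ℕ) : ℝ) ^ 2 := by exact_mod_cast h1
  refine h3.trans ((pow_le_pow_left₀ (Nat.cast_nonneg _) h2 2).trans ?_)
  rw [mul_pow, Real.sq_sqrt (by linarith)]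
  norm_num

open Classical in
/-- the function of the cell -/
noncomputable def FF (q : ℕ) (r : ZI) (Y1 Y2 δ x : ℝ) (t : ZI) : ℝ :=
  if ((q : ℕ) : ZI) ∣ t - r ∧ Y1 < nz t ∧ nz t ≤ Y2 ∧ t ≠ 0 then sc δ x t else 0

theorem FF_out {q : ℕ} {r : ZI} {Y1 Y2 δ x V : ℝ} (hV : Y2 ≤ V) (t : ZI) (ht : t ∉ bl V) :
    FF q r Y1 Y2 δ x t = 0 := by
  unfold FF
  rw [if_neg]
  rintro ⟨-, -, h1, h2⟩
  exact ht ((mem_bl _ _).2 ⟨h2, h1.trans hV⟩)

open Classical in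
theorem FF_sum {q : ℕ} {r : ZI} {Y1 Y2 δ x V : ℝ} (hV : Y2 ≤ V) :
    ∑ t ∈ (cls q r Y2).filter (fun t => Y1 < nz t), mu t * sc δ x t =
      ∑ t ∈ bl V, mu t * FF q r Y1 Y2 δ x t := by
  have h1 : ∑ t ∈ bl V, mu t * FF q r Y1 Y2 δ x t =
      ∑ t ∈ (bl V).filter (fun t => ((q : ℕ) : ZI) ∣ t - r ∧ Y1 < nz t ∧ nz t ≤ Y2 ∧ t ≠ 0),
        mu t * sc δ x t := by
    rw [sum_filter]
    refine sum_congr rfl fun t _ => ?_
    unfold FF
    split_ifs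
    · rfl
    · rw [mul_zero]
  rw [h1]
  refine sum_congr ?_ fun _ _ => rfl
  ext t
  unfold cls
  rw [mem_filter, mem_filter, mem_filter, mem_bl, mem_bl]
  constructor
  · rintro ⟨⟨⟨a, b⟩, c⟩, d⟩
    exact ⟨⟨a, b.trans hV⟩, c, d, b, a⟩
  · rintro ⟨⟨a, _⟩, c, d, b, _⟩
    exact ⟨⟨⟨a, b⟩, c⟩, d⟩

theorem mem_SD {x δ Y1 Y2 : ℝ} (h0 : 0 < δ) (h1 : δ ≤ 1) (hY : 0 ≤ Y1) (hY2 : Y1 ≤ Y2) {t : ZI} (ht : t ≠ 0) :
    (t : ℂ) ∈ SD x δ (Real.sqrt Y1) (Real.sqrt Y2) ↔ Y1 < nz t ∧ nz t ≤ Y2 ∧ sc δ x t = 1 := by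
  unfold SD
  simp only [Set.mem_ofPred_eq]
  rw [sc_iff h0 h1 x ht, nz_norm, Real.sqrt_lt' (norm_pos_iff.2 (cne ht)),
    Real.le_sqrt (norm_nonneg _) (hY.trans hY2)]

/-- the number of the multiples of `u` in a cell -/
theorem inner {q : ℕ} (hq : 1 ≤ q) {r : ZI} {Y1 Y2 δ x V : ℝ} (h0 : 0 < δ) (h1 : δ ≤ 1) (hY : 0 ≤ Y1)
    (hY2 : Y1 ≤ Y2) (hV : Y2 ≤ V) (hV1 : 1 ≤ V) {u : ZI} (hu : u ≠ 0) (hc : IsCoprime u ((q : ℕ) : ZI)) :
    |∑ c ∈ bl V, FF q r Y1 Y2 δ x (u * c) - δ * (Y2 - Y1) / (2 * q ^ 2) * (1 / nz u)| ≤ 280 * Real.sqrt V := by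
  classical
  have hn : 0 < ‖(u : ℂ)‖ := norm_pos_iff.2 (cne hu)
  have hn1 : 1 ≤ ‖(u : ℂ)‖ := by
    have := nz_one_le hu
    rw [nz_norm] at this
    nlinarith
  have hq0 : (0 : ℝ) < q := by exact_mod_cast hq
  have hq1 : (1 : ℝ) ≤ q := by exact_mod_cast hq
  obtain ⟨e, f, hef⟩ := hc
  -- the set
  set S := (bl V).filter (fun c => ((q : ℕ) : ZI) ∣ u * c - r ∧ Y1 < nz (u * c) ∧ nz (u * c) ≤ Y2 ∧ sc δ x (u * c) = 1)
    with hS
  have hdvd : ∀ c : ZI, ((q : ℕ) : ZI) ∣ u * c - r ↔ ((q : ℕ) : ZI) ∣ c - e * r := by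
    intro c
    constructor
    · intro h
      have h2 : c - e * r = e * (u * c - r) + f * c * ((q : ℕ) : ZI) := by
        linear_combination (-c) * hef
      rw [h2]
      exact dvd_add (Dvd.dvd.mul_left h _) (dvd_mul_left _ _)
    · intro h
      have h2 : u * c - r = u * (c - e * r) - r * f * ((q : ℕ) : ZI) := by
        linear_combination (r) * hef
      rw [h2]
      exact dvd_sub (Dvd.dvd.mul_left h _) (dvd_mul_left _ _)
  have hmem : ∀ c, c ∈ S ↔ ((q : ℕ) : ZI) ∣ c - e * r ∧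
      (c : ℂ) ∈ SD (x - Complex.arg (u : ℂ)) δ (Real.sqrt Y1 / ‖(u : ℂ)‖) (Real.sqrt Y2 / ‖(u : ℂ)‖) := by
    intro c
    rw [hS, mem_filter, ← hdvd, ← mem_SD_mul hu]
    constructor
    · rintro ⟨h2, h3, h4, h5, h6⟩
      refine ⟨h3, ?_⟩
      rw [mem_SD h0 h1 hY hY2 (mul_ne_zero hu ((mem_bl _ _).1 h2).1)]
      exact ⟨h4, h5, h6⟩
    · rintro ⟨h3, h4⟩
      have hc0 : u * c ≠ 0 := by
        intro h
        have h5 := h4.1
        rw [h, GaussianInt.toComplex_zero, norm_zero] at h5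
        exact absurd h5 (not_lt.2 (Real.sqrt_nonneg _))
      rw [mem_SD h0 h1 hY hY2 hc0] at h4
      refine ⟨?_, h3, h4.1, h4.2.1, h4.2.2⟩
      rw [mem_bl]
      refine ⟨right_ne_zero_of_mul hc0, ?_⟩
      have h5 := h4.2.1.trans hV
      rw [nz_mul] at h5
      exact (le_mul_of_one_le_left (nz_nonneg c) (nz_one_le hu)).trans h5
  have hsum : ∑ c ∈ bl V, FF q r Y1 Y2 δ x (u * c) = S.card := by
    rw [card_eq_sum_ones, hS, sum_filter]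
    push_cast
    refine sum_congr rfl fun c hc => ?_
    have hc0 : u * c ≠ 0 := mul_ne_zero hu ((mem_bl _ _).1 hc).1
    unfold FF
    by_cases h2 : ((q : ℕ) : ZI) ∣ u * c - r ∧ Y1 < nz (u * c) ∧ nz (u * c) ≤ Y2
    · rw [if_pos ⟨h2.1, h2.2.1, h2.2.2, hc0⟩]
      rcases sc01 δ x (u * c) with h3 | h3
      · rw [h3, if_neg]
        rintro ⟨-, -, -, h4⟩
        exact zero_ne_one h4
      · rw [h3, if_pos ⟨h2.1, h2.2.1, h2.2.2, rfl⟩]
    · rw [if_neg fun h => h2 ⟨h.1, h.2.1, h.2.2.1⟩, if_neg fun h => h2 ⟨h.1, h.2.1, h.2.2.1⟩]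
  have h2 := count (x := x - Complex.arg (u : ℂ)) (δ := δ) h0.le h1
    (R1 := Real.sqrt Y1 / ‖(u : ℂ)‖) (R2 := Real.sqrt Y2 / ‖(u : ℂ)‖) (by positivity)
    (div_le_div_of_nonneg_right (Real.sqrt_le_sqrt hY2) hn.le) hq (e * r) S hmem
  rw [hsum]
  have h3 : δ * ((Real.sqrt Y2 / ‖(u : ℂ)‖) ^ 2 - (Real.sqrt Y1 / ‖(u : ℂ)‖) ^ 2) / (2 * q ^ 2) =
      δ * (Y2 - Y1) / (2 * q ^ 2) * (1 / nz u) := by
    rw [div_pow, div_pow, Real.sq_sqrt hY, Real.sq_sqrt (hY.trans hY2), nz_norm]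
    field_simp
  rw [h3] at h2
  refine h2.trans ?_
  have h4 : Real.sqrt Y2 / ‖(u : ℂ)‖ / q ≤ Real.sqrt V := by
    refine (div_le_self (by positivity) hq1).trans ((div_le_self (Real.sqrt_nonneg _) hn1).trans ?_)
    exact Real.sqrt_le_sqrt hV
  have h5 : 1 ≤ Real.sqrt V := Real.one_le_sqrt.2 hV1
  linarith

/-- if `u` is not coprime to `q` there are no multiples -/
theorem inner0 {q : ℕ} {r : ZI} {Y1 Y2 δ x V : ℝ} (hr : IsCoprime r ((q : ℕ) : ZI)) {u : ZI}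
    (hc : ¬ IsCoprime u ((q : ℕ) : ZI)) : ∑ c ∈ bl V, FF q r Y1 Y2 δ x (u * c) = 0 := by
  refine sum_eq_zero fun c _ => ?_
  unfold FF
  rw [if_neg]
  rintro ⟨h, -⟩
  apply hc
  obtain ⟨k, hk⟩ := h
  obtain ⟨e, f, hef⟩ := hr
  refine ⟨e * c, f - e * k, ?_⟩
  linear_combination hef + e * hk

open Classical in
/-- **type I** -/
theorem typeI {q : ℕ} (hq : 1 ≤ q) {r : ZI} (hr : IsCoprime r ((q : ℕ) : ZI)) {Y1 Y2 δ V w p : ℝ} (x : ℝ)
    (h0 : 0 < δ) (h1 : δ ≤ 1) (hY : 0 ≤ Y1) (hY2 : Y1 ≤ Y2) (hV : Y2 ≤ V) (hV1 : 1 ≤ V) (hw : 1 ≤ w)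
    (hp : |∑ a ∈ (bl w).filter (fun a => IsCoprime a ((q : ℕ) : ZI)), mu a / nz a| ≤ p) :
    |∑ a ∈ bl w, ∑ b ∈ bl w, mu a * mu b * ∑ c ∈ bl V, FF q r Y1 Y2 δ x (a * b * c)| ≤
      δ * V * p ^ 2 + (9 * w) ^ 2 * (280 * Real.sqrt V) := by
  have hq1 : (1 : ℝ) ≤ q := by exact_mod_cast hq
  set K : ℝ := δ * (Y2 - Y1) / (2 * q ^ 2) with hK
  have hK0 : 0 ≤ K := by
    rw [hK]
    have : 0 ≤ Y2 - Y1 := by linarith
    positivity
  have hKV : K ≤ δ * V := by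
    rw [hK]
    have h2 : 0 ≤ Y2 - Y1 := by linarith
    refine (div_le_self (by positivity) (by nlinarith)).trans ?_
    exact mul_le_mul_of_nonneg_left (by linarith) h0.le
  have h2 : ∀ a ∈ bl w, ∀ b ∈ bl w,
      |mu a * mu b * ∑ c ∈ bl V, FF q r Y1 Y2 δ x (a * b * c) -
        K * ((if IsCoprime a ((q : ℕ) : ZI) then mu a / nz a else 0) *
          (if IsCoprime b ((q : ℕ) : ZI) then mu b / nz b else 0))| ≤ 280 * Real.sqrt V := by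
    intro a ha b hb
    have ha0 := ((mem_bl _ _).1 ha).1
    have hb0 := ((mem_bl _ _).1 hb).1
    by_cases hc : IsCoprime (a * b) ((q : ℕ) : ZI)
    · rw [if_pos (IsCoprime.mul_left_iff.1 hc).1, if_pos (IsCoprime.mul_left_iff.1 hc).2]
      have h3 := inner hq (r := r) (x := x) h0 h1 hY hY2 hV hV1 (mul_ne_zero ha0 hb0) hc
      have h4 : mu a * mu b * ∑ c ∈ bl V, FF q r Y1 Y2 δ x (a * b * c) - K * (mu a / nz a * (mu b / nz b)) =
          mu a * mu b * (∑ c ∈ bl V, FF q r Y1 Y2 δ x (a * b * c) - K * (1 / nz (a * b))) := by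
        rw [nz_mul]
        have := (nz_pos ha0).ne'
        have := (nz_pos hb0).ne'
        field_simp
      rw [h4, abs_mul, abs_mul]
      calc |mu a| * |mu b| * |∑ c ∈ bl V, FF q r Y1 Y2 δ x (a * b * c) - K * (1 / nz (a * b))|
          ≤ 1 * 1 * (280 * Real.sqrt V) := by
            refine mul_le_mul (mul_le_mul (abs_mu_le a) (abs_mu_le b) (abs_nonneg _) zero_le_one) h3
              (abs_nonneg _) (by norm_num)
        _ = 280 * Real.sqrt V := by ring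
    · rw [inner0 hr hc, mul_zero, zero_sub, abs_neg]
      have h3 : (if IsCoprime a ((q : ℕ) : ZI) then mu a / nz a else 0) *
          (if IsCoprime b ((q : ℕ) : ZI) then mu b / nz b else 0) = 0 := by
        by_cases h4 : IsCoprime a ((q : ℕ) : ZI)
        · by_cases h5 : IsCoprime b ((q : ℕ) : ZI)
          · exact absurd (IsCoprime.mul_left_iff.2 ⟨h4, h5⟩) hc
          · rw [if_neg h5, mul_zero]
        · rw [if_neg h4, zero_mul]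
      rw [h3, mul_zero, abs_zero]
      positivity
  have h3 : ∑ a ∈ bl w, ∑ b ∈ bl w, K * ((if IsCoprime a ((q : ℕ) : ZI) then mu a / nz a else 0) *
      (if IsCoprime b ((q : ℕ) : ZI) then mu b / nz b else 0)) =
      K * (∑ a ∈ (bl w).filter (fun a => IsCoprime a ((q : ℕ) : ZI)), mu a / nz a) ^ 2 := by
    rw [sum_filter, sq, sum_mul_sum, mul_sum]
    exact sum_congr rfl fun a _ => (mul_sum _ _ _).symm
  have h4 : |∑ a ∈ bl w, ∑ b ∈ bl w, mu a * mu b * ∑ c ∈ bl V, FF q r Y1 Y2 δ x (a * b * c) -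
      K * (∑ a ∈ (bl w).filter (fun a => IsCoprime a ((q : ℕ) : ZI)), mu a / nz a) ^ 2| ≤
      (9 * w) ^ 2 * (280 * Real.sqrt V) := by
    rw [← h3, ← sum_sub_distrib]
    refine (abs_sum_le_sum_abs _ _).trans ?_
    have h5 : ∀ a ∈ bl w, |∑ b ∈ bl w, mu a * mu b * ∑ c ∈ bl V, FF q r Y1 Y2 δ x (a * b * c) -
        ∑ b ∈ bl w, K * ((if IsCoprime a ((q : ℕ) : ZI) then mu a / nz a else 0) *
          (if IsCoprime b ((q : ℕ) : ZI) then mu b / nz b else 0))| ≤ (bl w).card * (280 * Real.sqrt V) := by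
      intro a ha
      rw [← sum_sub_distrib]
      refine (abs_sum_le_sum_abs _ _).trans ((sum_le_sum fun b hb => h2 a ha b hb).trans ?_)
      rw [sum_const, nsmul_eq_mul]
    refine (sum_le_sum h5).trans ?_
    rw [sum_const, nsmul_eq_mul, ← mul_assoc, sq]
    refine mul_le_mul_of_nonneg_right ?_ (by positivity)
    exact mul_le_mul (card_bl hw) (card_bl hw) (Nat.cast_nonneg _) (by positivity)
  have h5 : |K * (∑ a ∈ (bl w).filter (fun a => IsCoprime a ((q : ℕ) : ZI)), mu a / nz a) ^ 2| ≤ δ * V * p ^ 2 := by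
    rw [abs_mul, abs_of_nonneg hK0, abs_pow]
    exact mul_le_mul hKV (pow_le_pow_left₀ (abs_nonneg _) hp 2) (by positivity) (by positivity)
  have h6 := abs_sub_abs_le_abs_sub (∑ a ∈ bl w, ∑ b ∈ bl w, mu a * mu b * ∑ c ∈ bl V, FF q r Y1 Y2 δ x (a * b * c))
    (K * (∑ a ∈ (bl w).filter (fun a => IsCoprime a ((q : ℕ) : ZI)), mu a / nz a) ^ 2)
  linarith

/-- the number of the lattice points of a thin shell in a sector -/
theorem shell_card {Y1 Y2 δ : ℝ} (x : ℝ) (h0 : 0 < δ) (h1 : δ ≤ 1) (hY : 0 ≤ Y1) (hY2 : Y1 ≤ Y2) (S : Finset ZI)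
    (hS : ∀ c ∈ S, c ≠ 0 ∧ Y1 < nz c ∧ nz c ≤ Y2 ∧ sc δ x c = 1) :
    (S.card : ℝ) ≤ δ * (Y2 - Y1) / 2 + 140 * (Real.sqrt Y2 + 1) := by
  classical
  set S' := (bl Y2).filter (fun c => Y1 < nz c ∧ nz c ≤ Y2 ∧ sc δ x c = 1) with hS'
  have hsub : S ⊆ S' := by
    intro c hc
    obtain ⟨h2, h3, h4, h5⟩ := hS c hc
    rw [hS', mem_filter, mem_bl]
    exact ⟨⟨h2, h4⟩, h3, h4, h5⟩
  have hmem : ∀ c, c ∈ S' ↔ ((1 : ℕ) : ZI) ∣ c - 0 ∧ (c : ℂ) ∈ SD x δ (Real.sqrt Y1) (Real.sqrt Y2) := by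
    intro c
    rw [hS', mem_filter]
    constructor
    · rintro ⟨h2, h3⟩
      refine ⟨by simp, ?_⟩
      rw [mem_SD h0 h1 hY hY2 ((mem_bl _ _).1 h2).1]
      exact h3
    · rintro ⟨-, h4⟩
      have hc0 : c ≠ 0 := by
        rintro rfl
        have h5 := h4.1
        rw [GaussianInt.toComplex_zero, norm_zero] at h5
        exact absurd h5 (not_lt.2 (Real.sqrt_nonneg _))
      rw [mem_SD h0 h1 hY hY2 hc0] at h4
      exact ⟨(mem_bl _ _).2 ⟨hc0, h4.2.1⟩, h4⟩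
  have h2 := count (x := x) h0.le h1 (Real.sqrt_nonneg Y1) (Real.sqrt_le_sqrt hY2) le_rfl 0 S' hmem
  rw [Real.sq_sqrt hY, Real.sq_sqrt (hY.trans hY2)] at h2
  have h3 := (abs_le.1 h2).2
  have h4 : (S.card : ℝ) ≤ S'.card := by exact_mod_cast card_le_card hsub
  norm_num at h3
  linarith

end Pool.Agent.N855.GN
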